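import Pool.Agent.Helper314_MC.Rules

/-!
# Basic facts about the rules
-/

set_option autoImplicit false
set_option linter.unusedSectionVars false

namespace Pool.Agent.Helper314_MC

variable {C : Type} [DecidableEq C] {G : Geo C} {stop p : Bool}

theorem win_self {B : Board C} : G.Win stop p p B ↔
    (¬ ∃ B', G.Legal stop p B B') ∨ ∃ B', G.Legal stop p B B' ∧ G.Win stop p (!p) B' := by
  constructor
  · intro h
    cases h with
    | blocked _ h => exact Or.inl h
    | move _ h1 h2 => exact Or.inr ⟨_, h1, h2⟩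
    | reply h _ _ => exact absurd rfl h
  · rintro (h | ⟨B', h1, h2⟩)
    · exact .blocked rfl h
    · exact .move rfl h1 h2

theorem win_other {B : Board C} : G.Win stop p (!p) B ↔
    (∃ B', G.Legal stop (!p) B B') ∧ ∀ B', G.Legal stop (!p) B B' → G.Win stop p p B' := by
  have hp : (!p) ≠ p := by cases p <;> simp
  constructor
  · intro h
    cases h with
    | blocked h _ => exact absurd h hp
    | move h _ _ => exact absurd h hp
    | reply _ h1 h2 => exact ⟨h1, by simpa using h2⟩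
  · rintro ⟨h1, h2⟩
    exact .reply hp h1 (by simpa using h2)

/-- the result of a capture move which may still be going on -/
def Geo.Cont (G : Geo C) (stop : Bool) (B : Board C) (s : C) (B' : Board C) : Prop :=
  (B' = B ∧ ¬ ∃ B'' u, G.Jump B s B'' u) ∨ G.Cap stop B s B'

theorem cap_iff {B : Board C} {s : C} {B' : Board C}
    (hc : ∀ B₁ t, G.Jump B s B₁ t → ¬ G.Halts stop B s t) :
    G.Cap stop B s B' ↔ ∃ B₁ t, G.Jump B s B₁ t ∧ G.Cont stop B₁ t B' := by
  constructor
  · intro h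
    cases h with
    | last h1 h2 => exact ⟨_, _, h1, Or.inl ⟨rfl, h2.resolve_left (hc _ _ h1)⟩⟩
    | more h1 _ h2 => exact ⟨_, _, h1, Or.inr h2⟩
  · rintro ⟨B₁, t, h1, ⟨rfl, h2⟩ | h2⟩
    · exact .last h1 (Or.inr h2)
    · exact .more h1 (hc _ _ h1) h2

theorem Geo.Cap.jump {B : Board C} {s : C} {B' : Board C} (h : G.Cap stop B s B') :
    ∃ B₁ t, G.Jump B s B₁ t := by
  cases h with
  | last h _ => exact ⟨_, _, h⟩
  | more h _ _ => exact ⟨_, _, h⟩

theorem owns_jump {w : Bool} {B : Board C} {s : C} {B' : Board C} {t : C} (hs : Owns B w s)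
    (h : G.Jump B s B' t) : Owns B' w t := by
  obtain ⟨p, q, d, h2, -, -, -, -, -, -, rfl⟩ := h
  obtain ⟨p', h3, h4⟩ := hs
  refine ⟨_, Function.update_self _ _ _, ?_⟩
  rw [h2] at h3
  cases h3
  exact h4

/-- A property preserved by jumps of a colour is preserved by capture moves. -/
theorem Geo.Cap.ind {w : Bool} {I : Board C → Prop}
    (hI : ∀ B s B' t, I B → Owns B w s → G.Jump B s B' t → I B')
    {B : Board C} {s : C} {B' : Board C} (h : G.Cap stop B s B') (hs : Owns B w s) (hB : I B) :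
    I B' := by
  induction h with
  | last h1 _ => exact hI _ _ _ _ hB hs h1
  | more h1 _ _ ih =>
    refine ih ?_ (hI _ _ _ _ hB hs h1)
    obtain ⟨p, q, d, h2, -, -, -, -, -, -, rfl⟩ := h1
    obtain ⟨p', h3, h4⟩ := hs
    refine ⟨_, Function.update_self _ _ _, ?_⟩
    rw [h2] at h3
    cases h3
    exact h4

/-! ### Sums over the board -/

/-- a weighted count of the pieces -/
def tot (S : Finset C) (f : Option Piece → C → ℕ) (B : Board C) : ℕ := ∑ c ∈ S, f (B c) c

theorem tot_update {S : Finset C} {f : Option Piece → C → ℕ} {B : Board C} {s : C} (hs : s ∈ S)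
    (v : Option Piece) : tot S f (Function.update B s v) + f (B s) s = tot S f B + f v s := by
  unfold tot
  rw [← Finset.add_sum_erase S _ hs, ← Finset.add_sum_erase S (fun c => f (B c) c) hs]
  have h : ∑ x ∈ S.erase s, f (Function.update B s v x) x = ∑ x ∈ S.erase s, f (B x) x := by
    refine Finset.sum_congr rfl fun x hx => ?_
    rw [Function.update_of_ne (Finset.ne_of_mem_erase hx)]
  rw [h, Function.update_self]
  omega

theorem tot_jump {S : Finset C} {f : Option Piece → C → ℕ} (hf : ∀ c, f none c = 0)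
    {B : Board C} {s m t : C} {p' : Piece} (hs : s ∈ S) (hm : m ∈ S) (ht : t ∈ S)
    (hsm : s ≠ m) (hB : B t = none) (hst : t ≠ s) (hmt : t ≠ m) :
    tot S f (Function.update (Function.update (Function.update B s none) m none) t (some p')) +
      f (B s) s + f (B m) m = tot S f B + f (some p') t := by
  have h1 := tot_update (f := f) (B := B) hs none
  have h2 := tot_update (f := f) (B := Function.update B s none) hm none
  have h3 := tot_update (f := f) (B := Function.update (Function.update B s none) m none) ht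
    (some p')
  rw [Function.update_of_ne hsm.symm] at h2
  rw [Function.update_of_ne hmt, Function.update_of_ne hst, hB] at h3
  simp only [hf] at h1 h2 h3
  omega

theorem tot_step {S : Finset C} {f : Option Piece → C → ℕ} (hf : ∀ c, f none c = 0)
    {B : Board C} {s t : C} {p' : Piece} (hs : s ∈ S) (ht : t ∈ S)
    (hB : B t = none) (hst : t ≠ s) :
    tot S f (Function.update (Function.update B s none) t (some p')) +
      f (B s) s = tot S f B + f (some p') t := by
  have h1 := tot_update (f := f) (B := B) hs none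
  have h3 := tot_update (f := f) (B := Function.update B s none) ht (some p')
  rw [Function.update_of_ne hst, hB] at h3
  simp only [hf] at h1 h3
  omega

/-- the squares of a jump are different -/
theorem Geo.Jump.elim {B : Board C} {s : C} {B' : Board C} {t : C} (h : G.Jump B s B' t) :
    ∃ p q d, B s = some p ∧ p.can d ∧ B (G.nb s d) = some q ∧ q.white ≠ p.white ∧
      t = G.nb (G.nb s d) d ∧ G.ok t ∧ B t = none ∧ s ≠ G.nb s d ∧ t ≠ s ∧ t ≠ G.nb s d ∧
      B' = Function.update (Function.update (Function.update B s none) (G.nb s d) none) t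
        (some (G.crown p t)) := by
  obtain ⟨p, q, d, h1, h2, h3, h4, h5, h6, h7, h8⟩ := h
  refine ⟨p, q, d, h1, h2, h3, h4, h5, h6, h7, ?_, ?_, ?_, h8⟩
  · intro h
    rw [← h, h1] at h3
    cases h3
    exact h4 rfl
  · rintro rfl
    rw [h1] at h7
    cases h7
  · intro h
    rw [h, h3] at h7
    cases h7

/-- all the pieces are on `S` -/
def Supp (S : Finset C) (B : Board C) : Prop := ∀ c, B c ≠ none → c ∈ S

theorem supp_jump {S : Finset C} (hS : ∀ c, G.ok c → c ∈ S) {B : Board C} {s : C} {B' : Board C}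
    {t : C} (hB : Supp S B) (h : G.Jump B s B' t) : Supp S B' := by
  obtain ⟨p, q, d, h1, h2, h3, h4, h5, h6, h7, h8, h9, h10, rfl⟩ := h.elim
  intro c hc
  by_cases h11 : c = t
  · rw [h11]
    exact hS _ h6
  · rw [Function.update_of_ne h11] at hc
    by_cases h12 : c = G.nb s d
    · rw [h12, Function.update_self] at hc
      exact absurd rfl hc
    · rw [Function.update_of_ne h12] at hc
      by_cases h13 : c = s
      · rw [h13, Function.update_self] at hc
        exact absurd rfl hc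
      · rw [Function.update_of_ne h13] at hc
        exact hB c hc

theorem supp_step {S : Finset C} (hS : ∀ c, G.ok c → c ∈ S) {B : Board C} {s : C} {B' : Board C}
    (hB : Supp S B) (h : G.Step B s B') : Supp S B' := by
  obtain ⟨p, d, h1, h2, h3, h4, rfl⟩ := h
  intro c hc
  by_cases h11 : c = G.nb s d
  · rw [h11]
    exact hS _ h3
  · rw [Function.update_of_ne h11] at hc
    by_cases h13 : c = s
    · rw [h13, Function.update_self] at hc
      exact absurd rfl hc
    · rw [Function.update_of_ne h13] at hc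
      exact hB c hc

/-- the number of pieces decreases -/
theorem card_jump {S : Finset C} (hS : ∀ c, G.ok c → c ∈ S) {B : Board C} {s : C} {B' : Board C}
    {t : C} (hB : Supp S B) (h : G.Jump B s B' t) :
    tot S (fun o _ => if o = none then 0 else 1) B' < tot S (fun o _ => if o = none then 0 else 1) B := by
  obtain ⟨p, q, d, h1, h2, h3, h4, h5, h6, h7, h8, h9, h10, rfl⟩ := h.elim
  have hs : s ∈ S := hB s (by rw [h1]; simp)
  have hm : G.nb s d ∈ S := hB _ (by rw [h3]; simp)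
  have := tot_jump (f := fun o _ => if o = none then 0 else 1) (fun _ => if_pos rfl) hs hm
    (hS _ h6) h8 h7 h9 h10 (p' := G.crown p t)
  simp only [h1, h3, reduceCtorEq, if_false] at this
  omega

/-- a capture which has been started can be finished -/
theorem exists_cap {S : Finset C} (hS : ∀ c, G.ok c → c ∈ S) (k : ℕ) : ∀ (B : Board C) (s : C),
    tot S (fun o _ => if o = none then 0 else 1) B ≤ k → Supp S B →
    (∃ B₁ t, G.Jump B s B₁ t) → ∃ B', G.Cap stop B s B' := by
  induction k with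
  | zero =>
    rintro B s h1 h2 ⟨B₁, t, h3⟩
    have := card_jump hS h2 h3
    omega
  | succ k ih =>
    rintro B s h1 h2 ⟨B₁, t, h3⟩
    have h4 := card_jump hS h2 h3
    by_cases h5 : G.Halts stop B s t
    · exact ⟨B₁, .last h3 (Or.inl h5)⟩
    · by_cases h6 : ∃ B'' u, G.Jump B₁ t B'' u
      · obtain ⟨B', h7⟩ := ih B₁ t (by omega) (supp_jump hS h2 h3) h6
        exact ⟨B', .more h3 h5 h7⟩
      · exact ⟨B₁, .last h3 (Or.inr h6)⟩

theorem exists_cont {S : Finset C} (hS : ∀ c, G.ok c → c ∈ S) {B : Board C} {s : C}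
    (hB : Supp S B) : ∃ B', G.Cont stop B s B' := by
  by_cases h : ∃ B₁ t, G.Jump B s B₁ t
  · obtain ⟨B', h'⟩ := exists_cap hS _ B s le_rfl hB h
    exact ⟨B', Or.inr h'⟩
  · exact ⟨B, Or.inl ⟨rfl, h⟩⟩

/-- Positions in which colour `p` cannot win. -/
theorem not_win {J : Bool → Board C → Prop}
    (h1 : ∀ B, J p B → (∃ B', G.Legal stop p B B') ∧ ∀ B', G.Legal stop p B B' → J (!p) B')
    (h2 : ∀ B, J (!p) B → ∃ B', G.Legal stop (!p) B B' ∧ J p B')
    {t : Bool} {B : Board C} (hB : J t B) : ¬ G.Win stop p t B := by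
  intro h
  induction h with
  | blocked h3 h4 =>
    subst h3
    exact h4 (h1 _ hB).1
  | move h3 h4 _ ih =>
    subst h3
    exact ih ((h1 _ hB).2 _ h4)
  | @reply t B h3 _ _ ih =>
    have h5 : t = !p := by cases t <;> cases p <;> simp_all
    subst h5
    obtain ⟨B', h6, h7⟩ := h2 _ hB
    exact ih B' h6 (by simpa using h7)

/-! ### Transfer to another description of the board -/

section transfer

variable {C' : Type} [DecidableEq C'] {G' : Geo C'} {φ : C' → C}

/-- `φ` describes (a part of) the board `G` -/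
structure Chart (G : Geo C) (G' : Geo C') (φ : C' → C) : Prop where
  inj : Function.Injective φ
  nb : ∀ c d, G.nb (φ c) d = φ (G'.nb c d)
  ok : ∀ c, G.ok (φ c) ↔ G'.ok c
  far : ∀ w c, G.far w (φ c) = G'.far w c

/-- the two boards agree -/
def Same (φ : C' → C) (B : Board C) (B' : Board C') : Prop :=
  (∀ c, B (φ c) = B' c) ∧ ∀ s, B s ≠ none → ∃ c, s = φ c

theorem same_update (hφ : Function.Injective φ) {B : Board C} {B' : Board C'} (h : Same φ B B')
    (c : C') (v : Option Piece) :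
    Same φ (Function.update B (φ c) v) (Function.update B' c v) := by
  constructor
  · intro x
    by_cases hx : x = c
    · subst hx
      rw [Function.update_self, Function.update_self]
    · rw [Function.update_of_ne (fun h => hx (hφ h)), Function.update_of_ne hx, h.1]
  · intro s hs
    by_cases hx : s = φ c
    · exact ⟨c, hx⟩
    · rw [Function.update_of_ne hx] at hs
      exact h.2 s hs

theorem same_ext {B B₂ : Board C} {B' : Board C'} (h : Same φ B B') (h2 : Same φ B₂ B') :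
    B = B₂ := by
  funext s
  by_cases hs : ∃ c, s = φ c
  · obtain ⟨c, rfl⟩ := hs
    rw [h.1, h2.1]
  · have h3 : B s = none := by
      by_contra h4
      exact hs (h.2 s h4)
    have h5 : B₂ s = none := by
      by_contra h4
      exact hs (h2.2 s h4)
    rw [h3, h5]

variable (hφ : Chart G G' φ)

include hφ

theorem Chart.jump_to {B : Board C} {B' : Board C'} (h : Same φ B B') {s : C'} {B₁ : Board C}
    {t : C} (hj : G.Jump B (φ s) B₁ t) :
    ∃ B₁' t', t = φ t' ∧ Same φ B₁ B₁' ∧ G'.Jump B' s B₁' t' := by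
  obtain ⟨p, q, d, h1, h2, h3, h4, h5, h6, h7, rfl⟩ := hj
  rw [hφ.nb] at h3 h5
  rw [hφ.nb] at h5
  subst h5
  refine ⟨_, _, rfl, ?_, p, q, d, ?_, h2, ?_, h4, rfl, ?_, ?_, rfl⟩
  · rw [hφ.nb]
    have e : G.crown p (φ (G'.nb (G'.nb s d) d)) = G'.crown p (G'.nb (G'.nb s d) d) := by
      unfold Geo.crown
      rw [hφ.far]
    rw [e]
    exact same_update hφ.inj (same_update hφ.inj (same_update hφ.inj h _ _) _ _) _ _
  · rw [← h.1, h1]
  · rw [← h.1, h3]
  · exact (hφ.ok _).1 h6
  · rw [← h.1, h7]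

theorem Chart.jump_from {B : Board C} {B' : Board C'} (h : Same φ B B') {s : C'} {B₁' : Board C'}
    {t : C'} (hj : G'.Jump B' s B₁' t) : ∃ B₁, Same φ B₁ B₁' ∧ G.Jump B (φ s) B₁ (φ t) := by
  obtain ⟨p, q, d, h1, h2, h3, h4, h5, h6, h7, rfl⟩ := hj
  subst h5
  have e : G.crown p (φ (G'.nb (G'.nb s d) d)) = G'.crown p (G'.nb (G'.nb s d) d) := by
    unfold Geo.crown
    rw [hφ.far]
  refine ⟨_, same_update hφ.inj (same_update hφ.inj (same_update hφ.inj h s none)
    (G'.nb s d) none) _ _, p, q, d, ?_, h2, ?_, h4, ?_, ?_, ?_, ?_⟩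
  · rw [h.1, h1]
  · rw [hφ.nb, h.1, h3]
  · rw [hφ.nb, hφ.nb]
  · exact (hφ.ok _).2 h6
  · rw [h.1, h7]
  · rw [hφ.nb, e]

theorem Chart.halts {B : Board C} {B' : Board C'} (h : Same φ B B') {s t : C'} :
    G.Halts stop B (φ s) (φ t) ↔ G'.Halts stop B' s t := by
  unfold Geo.Halts
  rw [h.1]
  simp only [hφ.far]

theorem Chart.cap_to {B : Board C} {s : C} {B₁ : Board C} (hc : G.Cap stop B s B₁) :
    ∀ {B' : Board C'} {s' : C'}, Same φ B B' → s = φ s' →
      ∃ B₁', Same φ B₁ B₁' ∧ G'.Cap stop B' s' B₁' := by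
  induction hc with
  | last h1 h2 =>
    rintro B' s' h rfl
    obtain ⟨B₁', t', rfl, h3, h4⟩ := hφ.jump_to h h1
    refine ⟨B₁', h3, .last h4 ?_⟩
    rcases h2 with h2 | h2
    · exact Or.inl ((hφ.halts h).1 h2)
    · refine Or.inr fun ⟨B'', u, h5⟩ => h2 ?_
      obtain ⟨B₂, -, h6⟩ := hφ.jump_from h3 h5
      exact ⟨B₂, _, h6⟩
  | more h1 h2 _ ih =>
    rintro B' s' h rfl
    obtain ⟨B₁', t', rfl, h3, h4⟩ := hφ.jump_to h h1
    obtain ⟨B₂', h5, h6⟩ := ih h3 rfl
    exact ⟨B₂', h5, .more h4 (fun h7 => h2 ((hφ.halts h).2 h7)) h6⟩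

theorem Chart.cap_from {B' : Board C'} {s : C'} {B₁' : Board C'} (hc : G'.Cap stop B' s B₁') :
    ∀ {B : Board C}, Same φ B B' → ∃ B₁, Same φ B₁ B₁' ∧ G.Cap stop B (φ s) B₁ := by
  induction hc with
  | last h1 h2 =>
    rintro B h
    obtain ⟨B₁, h3, h4⟩ := hφ.jump_from h h1
    refine ⟨B₁, h3, .last h4 ?_⟩
    rcases h2 with h2 | h2
    · exact Or.inl ((hφ.halts h).2 h2)
    · refine Or.inr fun ⟨B'', u, h5⟩ => h2 ?_
      obtain ⟨B₂, t, -, -, h6⟩ := hφ.jump_to h3 h5
      exact ⟨B₂, t, h6⟩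
  | more h1 h2 _ ih =>
    rintro B h
    obtain ⟨B₁, h3, h4⟩ := hφ.jump_from h h1
    obtain ⟨B₂, h5, h6⟩ := ih h3
    exact ⟨B₂, h5, .more h4 (fun h7 => h2 ((hφ.halts h).1 h7)) h6⟩

theorem Chart.step_to {B : Board C} {B' : Board C'} (h : Same φ B B') {s : C'} {B₁ : Board C}
    (hj : G.Step B (φ s) B₁) : ∃ B₁', Same φ B₁ B₁' ∧ G'.Step B' s B₁' := by
  obtain ⟨p, d, h1, h2, h3, h4, rfl⟩ := hj
  rw [hφ.nb] at h3 h4 ⊢
  refine ⟨_, ?_, p, d, ?_, h2, (hφ.ok _).1 h3, ?_, rfl⟩
  · have e : G.crown p (φ (G'.nb s d)) = G'.crown p (G'.nb s d) := by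
      unfold Geo.crown
      rw [hφ.far]
    rw [e]
    exact same_update hφ.inj (same_update hφ.inj h _ _) _ _
  · rw [← h.1, h1]
  · rw [← h.1, h4]

theorem Chart.step_from {B : Board C} {B' : Board C'} (h : Same φ B B') {s : C'} {B₁' : Board C'}
    (hj : G'.Step B' s B₁') : ∃ B₁, Same φ B₁ B₁' ∧ G.Step B (φ s) B₁ := by
  obtain ⟨p, d, h1, h2, h3, h4, rfl⟩ := hj
  have e : G.crown p (φ (G'.nb s d)) = G'.crown p (G'.nb s d) := by
    unfold Geo.crown
    rw [hφ.far]
  refine ⟨_, same_update hφ.inj (same_update hφ.inj h s none) (G'.nb s d) _, p, d, ?_, h2, ?_, ?_,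
    ?_⟩
  · rw [h.1, h1]
  · rw [hφ.nb]
    exact (hφ.ok _).2 h3
  · rw [hφ.nb, h.1, h4]
  · rw [hφ.nb, e]

omit hφ in
theorem same_owns {B : Board C} {B' : Board C'} (h : Same φ B B') {w : Bool} {s : C'} :
    Owns B w (φ s) ↔ Owns B' w s := by
  unfold Owns
  rw [h.1]

omit hφ in
theorem same_owns' {B : Board C} {B' : Board C'} (h : Same φ B B') {w : Bool} {s : C}
    (hs : Owns B w s) : ∃ s', s = φ s' ∧ Owns B' w s' := by
  obtain ⟨p, h1, h2⟩ := hs
  obtain ⟨c, rfl⟩ := h.2 s (by rw [h1]; simp)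
  exact ⟨c, rfl, p, by rw [← h.1, h1], h2⟩

theorem Chart.canJump {B : Board C} {B' : Board C'} (h : Same φ B B') {w : Bool} :
    G.CanJump w B ↔ G'.CanJump w B' := by
  constructor
  · rintro ⟨s, B₁, t, h1, h2⟩
    obtain ⟨s', rfl, h3⟩ := same_owns' h h1
    obtain ⟨B₁', t', -, -, h4⟩ := hφ.jump_to h h2
    exact ⟨s', B₁', t', h3, h4⟩
  · rintro ⟨s, B₁, t, h1, h2⟩
    obtain ⟨B₁', -, h4⟩ := hφ.jump_from h h2
    exact ⟨_, B₁', _, (same_owns h).2 h1, h4⟩

theorem Chart.legal_to {B : Board C} {B' : Board C'} (h : Same φ B B') {w : Bool} {B₁ : Board C}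
    (hl : G.Legal stop w B B₁) : ∃ B₁', Same φ B₁ B₁' ∧ G'.Legal stop w B' B₁' := by
  rcases hl with ⟨s, h1, h2⟩ | ⟨h1, s, h2, h3⟩
  · obtain ⟨s', rfl, h3⟩ := same_owns' h h1
    obtain ⟨B₁', h4, h5⟩ := hφ.cap_to h2 h rfl
    exact ⟨B₁', h4, Or.inl ⟨s', h3, h5⟩⟩
  · obtain ⟨s', rfl, h4⟩ := same_owns' h h2
    obtain ⟨B₁', h5, h6⟩ := hφ.step_to h h3
    exact ⟨B₁', h5, Or.inr ⟨fun h7 => h1 ((hφ.canJump h).2 h7), s', h4, h6⟩⟩

theorem Chart.legal_from {B : Board C} {B' : Board C'} (h : Same φ B B') {w : Bool}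
    {B₁' : Board C'} (hl : G'.Legal stop w B' B₁') :
    ∃ B₁, Same φ B₁ B₁' ∧ G.Legal stop w B B₁ := by
  rcases hl with ⟨s, h1, h2⟩ | ⟨h1, s, h2, h3⟩
  · obtain ⟨B₁, h4, h5⟩ := hφ.cap_from h2 h
    exact ⟨B₁, h4, Or.inl ⟨_, (same_owns h).2 h1, h5⟩⟩
  · obtain ⟨B₁, h5, h6⟩ := hφ.step_from h h3
    exact ⟨B₁, h5, Or.inr ⟨fun h7 => h1 ((hφ.canJump h).1 h7), _, (same_owns h).2 h2, h6⟩⟩

theorem Chart.win_to {t : Bool} {B : Board C} (hw : G.Win stop p t B) :
    ∀ {B' : Board C'}, Same φ B B' → G'.Win stop p t B' := by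
  induction hw with
  | blocked h1 h2 =>
    intro B' h
    refine .blocked h1 fun ⟨B₁, h3⟩ => h2 ?_
    obtain ⟨B₂, -, h4⟩ := hφ.legal_from h h3
    exact ⟨B₂, h4⟩
  | move h1 h2 _ ih =>
    intro B' h
    obtain ⟨B₁', h3, h4⟩ := hφ.legal_to h h2
    exact .move h1 h4 (ih h3)
  | reply h1 h2 _ ih =>
    intro B' h
    refine .reply h1 ?_ ?_
    · obtain ⟨B₁, h3⟩ := h2
      obtain ⟨B₁', -, h4⟩ := hφ.legal_to h h3
      exact ⟨B₁', h4⟩
    · intro B₁' h3
      obtain ⟨B₁, h4, h5⟩ := hφ.legal_from h h3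
      exact ih _ h5 h4

theorem Chart.win_from {t : Bool} {B' : Board C'} (hw : G'.Win stop p t B') :
    ∀ {B : Board C}, Same φ B B' → G.Win stop p t B := by
  induction hw with
  | blocked h1 h2 =>
    intro B h
    refine .blocked h1 fun ⟨B₁, h3⟩ => h2 ?_
    obtain ⟨B₂, -, h4⟩ := hφ.legal_to h h3
    exact ⟨B₂, h4⟩
  | move h1 h2 _ ih =>
    intro B h
    obtain ⟨B₁, h3, h4⟩ := hφ.legal_from h h2
    exact .move h1 h4 (ih h3)
  | reply h1 h2 _ ih =>
    intro B h
    refine .reply h1 ?_ ?_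
    · obtain ⟨B₁', h3⟩ := h2
      obtain ⟨B₁, -, h4⟩ := hφ.legal_from h h3
      exact ⟨B₁, h4⟩
    · intro B₁ h3
      obtain ⟨B₁', h4, h5⟩ := hφ.legal_to h h3
      exact ih _ h5 h4

theorem Chart.win_iff {t : Bool} {B : Board C} {B' : Board C'} (h : Same φ B B') :
    G.Win stop p t B ↔ G'.Win stop p t B' :=
  ⟨fun hw => hφ.win_to hw h, fun hw => hφ.win_from hw h⟩

end transfer

end Pool.Agent.Helper314_MC
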