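import Pool.Agent.Helper314_MC.Eval

/-!
# The blocks
-/

set_option autoImplicit false
set_option linter.unusedSectionVars false

namespace Pool.Agent.Helper314_MC

open Pool.Agent.H656R2.AK (QF)

/-- squares next to a block which are empty -/
def ext : List (ℤ × ℤ) := [(0, 12), (0, 22), (4, 0), (6, 37), (37, 14), (37, 10)]

/-- the local situation in a block of type `t` from which the pieces `r0` have been removed -/
def ctx (t : ℕ) (r0 : List (ℤ × ℤ)) : Ctx where
  v0 q := if ownz q then (if q ∈ r0 then 0 else pat t (q.1.toNat, q.2.toNat))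
    else if q ∈ ext then 0 else 3
  chk := decide (t = 3 ∨ t = 4)
  r37 := decide (t = 1 ∨ t = 3 ∨ t = 4)

/-- the pieces removed from a variable block when the variable gets the value `b` -/
def rv (t : ℕ) (b : Bool) : List (ℤ × ℤ) :=
  if t = 3 then
    (if b then [(36, 10), (34, 10), (32, 10), (31, 9), (31, 7), (30, 6), (28, 6), (26, 6), (24, 6), (21, 6), (22, 7), (22, 9), (22, 11), (22, 13), (22, 15), (22, 17), (22, 19), (22, 21), (22, 23), (22, 26), (21, 25), (19, 25), (17, 25), (15, 25), (13, 25), (11, 25), (9, 25), (6, 25), (7, 26), (7, 28), (7, 30), (7, 32), (7, 34), (7, 36)]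
    else [(36, 10), (34, 10), (32, 10), (30, 10), (27, 10), (28, 11), (28, 13), (28, 15), (28, 17), (28, 19), (28, 21), (28, 23), (28, 25), (28, 27), (28, 29), (28, 32), (27, 31), (25, 31), (23, 31), (21, 31), (19, 31), (17, 31), (15, 31), (13, 31), (11, 31), (10, 30), (10, 28), (10, 26), (9, 25), (6, 25), (7, 26), (7, 28), (7, 30), (7, 32), (7, 34), (7, 36)])
  else
    (if b then [(36, 10), (34, 10), (32, 10), (31, 9), (31, 7), (30, 6), (28, 6), (26, 6), (24, 6), (21, 6), (22, 7), (22, 9), (22, 11), (22, 13), (22, 15), (22, 17), (22, 19), (22, 21), (22, 23), (22, 26), (21, 25), (19, 25), (17, 25), (15, 25), (13, 25), (11, 25), (9, 25), (7, 25), (5, 25), (2, 25), (3, 26), (3, 28), (3, 30), (3, 32), (4, 33), (6, 33), (7, 34), (7, 36)]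
    else [(36, 10), (34, 10), (32, 10), (30, 10), (27, 10), (28, 11), (28, 13), (28, 15), (28, 17), (28, 19), (28, 21), (28, 23), (28, 25), (28, 27), (28, 29), (28, 32), (27, 31), (25, 31), (23, 31), (21, 31), (19, 31), (17, 31), (15, 31), (13, 31), (11, 31), (9, 31), (6, 31), (7, 32), (7, 34), (7, 36)])

/-- the shape of a result -/
inductive Sh
  | tt | ff | bad
  | leaf (p : Bool) (c : ℤ × ℤ)
  | or (a b : Sh)
  | and (a b : Sh)
deriving DecidableEq

/-- the shape of a result -/
def Tr.sh : Tr → Sh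
  | .tt => .tt
  | .ff => .ff
  | .bad => .bad
  | .leaf p c _ => .leaf p c
  | .or a b => .or a.sh b.sh
  | .and a b => .and a.sh b.sh

/-- all the removed pieces are in the block -/
def Tr.rok : Tr → Bool
  | .leaf _ _ rm => rm.all ownz
  | .or a b => a.rok && b.rok
  | .and a b => a.rok && b.rok
  | _ => true

theorem f_var3 : ev (ctx 3 []) 60 .ro [] (7, 37) =
    .or (.leaf true (37, 10) (rv 3 true)) (.leaf true (37, 10) (rv 3 false)) := by decide +kernel

theorem f_var4 : ev (ctx 4 []) 60 .ro [] (7, 37) =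
    .and (.leaf true (37, 10) (rv 4 true)) (.leaf true (37, 10) (rv 4 false)) := by decide +kernel

theorem f_rv : ∀ b, ((rv 3 b).all ownz = true ∧ (rv 4 b).all ownz = true) := by decide +kernel

theorem f_test3 : ∀ b, ev (ctx 3 (rv 3 b)) 60 .rp [] (0, 11) = (if b then .tt else .ff) ∧
    ev (ctx 3 (rv 3 b)) 60 .rp [] (0, 21) = (if b then .ff else .tt) := by decide +kernel

theorem f_test4 : ∀ b, ev (ctx 4 (rv 4 b)) 60 .rp [] (0, 11) = (if b then .tt else .ff) ∧
    ev (ctx 4 (rv 4 b)) 60 .rp [] (0, 21) = (if b then .ff else .tt) := by decide +kernel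

/-- the results of the other blocks -/
def fact (t : ℕ) (ph : Ph) (c : ℤ × ℤ) (s : Sh) : Prop :=
  (ev (ctx t []) 60 ph [] c).sh = s ∧ (ev (ctx t []) 60 ph [] c).rok = true

instance (t : ℕ) (ph : Ph) (c : ℤ × ℤ) (s : Sh) : Decidable (fact t ph c s) := by
  unfold fact; infer_instance

theorem f_corner : fact 2 .rp (1, 10) (.leaf false (7, 1)) := by decide +kernel
theorem f_hh : fact 5 .rp (0, 11) (.leaf true (36, 11)) ∧ fact 5 .rp (0, 21) (.leaf true (36, 21)) := by
  decide +kernel
theorem f_e : ∀ a < 2, ∀ b < 2, fact (6 + a + 2 * b) .rp (0, 11) (.leaf true (36, 11)) ∧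
    fact (6 + a + 2 * b) .rp (0, 21) (.leaf true (36, 21)) := by decide +kernel
theorem f_row0 : fact 6 .rp (3, 0) (.leaf true (3, 36)) := by decide +kernel
theorem f_row1 : fact 7 .rp (3, 0) (.or (.leaf true (36, 11)) (.leaf true (3, 36))) := by decide +kernel
theorem f_row2 : fact 8 .rp (3, 0) (.or (.leaf true (36, 21)) (.leaf true (3, 36))) := by decide +kernel
theorem f_row3 : fact 9 .rp (3, 0)
    (.or (.leaf true (36, 11)) (.or (.leaf true (36, 21)) (.leaf true (3, 36)))) := by decide +kernel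
theorem f_v : fact 10 .rp (3, 0) (.leaf true (3, 36)) := by decide +kernel
theorem f_sel : fact 11 .ro (37, 15) (.and (.leaf true (3, 36)) (.leaf false (7, 1))) := by decide +kernel
theorem f_oc : fact 12 .ro (7, 37) (.leaf false (1, 15)) := by decide +kernel
theorem f_oh : fact 13 .ro (37, 15) (.leaf false (1, 15)) := by decide +kernel
theorem f_start : fact 1 .lp (22, 10) (.leaf true (37, 10)) := by decide +kernel
theorem f_top : fact 1 .rp (3, 0) .ff ∧ fact 0 .rp (3, 0) .ff := by decide +kernel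
theorem f_end : fact 0 .ro (37, 15) .tt := by decide +kernel

theorem f_ext : ∀ t < 14, pat t (36, 12) = 0 ∧ pat t (36, 22) = 0 ∧ pat t (4, 36) = 0 ∧
    pat t (6, 1) = 0 ∧ pat t (1, 14) = 0 ∧ pat t (1, 10) = 0 := by decide +kernel

end Pool.Agent.Helper314_MC
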