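import Pool.Agent.Helper314_MC.Zone

/-!
# The endgame
-/

set_option autoImplicit false
set_option linter.unusedSectionVars false

namespace Pool.Agent.Helper314_MC

/-- a finite set containing the board -/
noncomputable def box (g : ℕ) : Finset (ℤ × ℤ) :=
  Finset.Icc (-(72 * (g : ℤ) + 40)) (72 * g + 40) ×ˢ Finset.Icc (-(72 * (g : ℤ) + 40)) (72 * g + 40)

theorem ok_box (g : ℕ) (s : ℤ × ℤ) (h : (rot g).ok s) : s ∈ box g := by
  simp only [rot] at h
  simp only [box, Finset.mem_product, Finset.mem_Icc]
  omega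

theorem ZI.supp {g : ℕ} {B : Board (ℤ × ℤ)} (h : ZI g B) : Supp (box g) B :=
  fun c hc => ok_box g c (h.2 c hc)

/-- the black king is in its chamber -/
def KB (g : ℕ) (B : Board (ℤ × ℤ)) : Prop :=
  ∃ i j, i ≠ j ∧ B (bc g i) = BK ∧ B (bc g j) = none

/-- the contents of the chamber of the white king -/
def kv (g : ℕ) (B : Board (ℤ × ℤ)) : Fin 5 → Option Piece := fun i => B (kc g i)

theorem zone_kc {g : ℕ} (i : Fin 5) : zone g (kc g i) := zone_ok (rel_mem.2 (Or.inl ⟨i, rfl⟩))

theorem zone_bc {g : ℕ} (i : Fin 2) : zone g (bc g i) := zone_ok (rel_mem.2 (Or.inr ⟨i, rfl⟩))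

theorem ZI.update {g : ℕ} {B : Board (ℤ × ℤ)} (h : ZI g B) {s : ℤ × ℤ} {v : Option Piece}
    (hs : ¬ zone g s ∨ rel g s ∈ cav) (hv : v = none ∨ (rot g).ok s) :
    ZI g (Function.update B s v) := by
  constructor
  · intro c hc hc'
    have hcs : c ≠ s := by
      rintro rfl
      rcases hs with hs | hs
      · exact hs hc
      · exact hc' hs
    rw [Function.update_of_ne hcs]
    exact h.1 c hc hc'
  · intro c hc
    by_cases hcs : c = s
    · subst hcs
      rw [Function.update_self] at hc
      exact hv.resolve_left hc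
    · rw [Function.update_of_ne hcs] at hc
      exact h.2 c hc

theorem rot_kc (g : ℕ) (i : Fin 5) : rel g (kc g i) ∈ cav := rel_mem.2 (Or.inl ⟨i, rfl⟩)

theorem rot_bc (g : ℕ) (i : Fin 2) : rel g (bc g i) ∈ cav := rel_mem.2 (Or.inr ⟨i, rfl⟩)

theorem upd_kc {g : ℕ} {B : Board (ℤ × ℤ)} {s : ℤ × ℤ} {v : Option Piece} (hs : ¬ zone g s)
    (i : Fin 5) : Function.update B s v (kc g i) = B (kc g i) :=
  Function.update_of_ne (fun h => hs (by rw [← h]; exact zone_kc i)) _ _

theorem upd_bc {g : ℕ} {B : Board (ℤ × ℤ)} {s : ℤ × ℤ} {v : Option Piece} (hs : ¬ zone g s)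
    (i : Fin 2) : Function.update B s v (bc g i) = B (bc g i) :=
  Function.update_of_ne (fun h => hs (by rw [← h]; exact zone_bc i)) _ _

theorem upd_kc_bc {g : ℕ} {B : Board (ℤ × ℤ)} {v : Option Piece} (i : Fin 5)
    (j : Fin 2) : Function.update B (kc g i) v (bc g j) = B (bc g j) :=
  Function.update_of_ne (fun h => kc_ne_bc h.symm) _ _

theorem upd_bc_kc {g : ℕ} {B : Board (ℤ × ℤ)} {v : Option Piece} (i : Fin 5)
    (j : Fin 2) : Function.update B (bc g j) v (kc g i) = B (kc g i) :=
  Function.update_of_ne (fun h => kc_ne_bc h) _ _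

theorem kv_update {g : ℕ} {B : Board (ℤ × ℤ)} {v : Option Piece} (i : Fin 5) :
    kv g (Function.update B (kc g i) v) = Function.update (kv g B) i v := by
  funext j
  unfold kv
  by_cases h : j = i
  · subst h
    rw [Function.update_self, Function.update_self]
  · rw [Function.update_of_ne (fun h' => h (kc_inj h')), Function.update_of_ne h]

theorem KB.out {g : ℕ} {B : Board (ℤ × ℤ)} (h : KB g B) {s : ℤ × ℤ} {v : Option Piece}
    (hs : ¬ zone g s) : KB g (Function.update B s v) := by
  obtain ⟨i, j, h1, h2, h3⟩ := h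
  exact ⟨i, j, h1, by rw [upd_bc hs, h2], by rw [upd_bc hs, h3]⟩

theorem KB.kc {g : ℕ} {B : Board (ℤ × ℤ)} (h : KB g B) {v : Option Piece} (i : Fin 5) :
    KB g (Function.update B (kc g i) v) := by
  obtain ⟨i', j, h1, h2, h3⟩ := h
  exact ⟨i', j, h1, by rw [upd_kc_bc, h2], by rw [upd_kc_bc, h3]⟩

theorem kv_out {g : ℕ} {B : Board (ℤ × ℤ)} {s : ℤ × ℤ} {v : Option Piece}
    (hs : ¬ zone g s) : kv g (Function.update B s v) = kv g B := by
  funext i
  exact upd_kc hs i

/-- black always has a move -/
theorem black_moves {g : ℕ} {stop : Bool} {B : Board (ℤ × ℤ)} (hZ : ZI g B) (hK : KB g B) :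
    ∃ B', (rot g).Legal stop false B B' ∧ ((∃ s, Owns B false s ∧ (rot g).Cap stop B s B') ∨
      ∃ i j, i ≠ j ∧ B (bc g i) = BK ∧ B (bc g j) = none ∧
        B' = Function.update (Function.update B (bc g i) none) (bc g j) BK) := by
  by_cases h : (rot g).CanJump false B
  · obtain ⟨s, B₁, t, h1, h2⟩ := h
    obtain ⟨B', h3⟩ := exists_cap (stop := stop) (ok_box g) _ B s le_rfl hZ.supp ⟨B₁, t, h2⟩
    exact ⟨B', Or.inl ⟨s, h1, h3⟩, Or.inl ⟨s, h1, h3⟩⟩
  · obtain ⟨i, j, h1, h2, h3⟩ := hK
    have key : ∃ d, (rot g).nb (bc g i) d = bc g j := by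
      fin_cases i <;> fin_cases j <;> simp at h1
      · exact ⟨0, by simp [rot_nb, bc, dx, dy]; ring⟩
      · exact ⟨2, by simp [rot_nb, bc, dx, dy]; ring⟩
    obtain ⟨d, hd⟩ := key
    refine ⟨_, Or.inr ⟨h, bc g i, ⟨_, h2, rfl⟩, ⟨false, true⟩, d, h2, Or.inl rfl, ?_, ?_, rfl⟩,
      Or.inr ⟨i, j, h1, h2, h3, ?_⟩⟩
    · rw [hd]
      exact (zone_bc j).1
    · rw [hd, h3]
    · rw [hd]
      rfl

/-- the allowed contents of the chamber of the white king after it has been closed -/
def jl : List (Fin 5 → Option Piece) :=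
  [![none, none, WK, BM, none], ![none, WK, none, BM, none], ![WK, none, none, BM, none],
   ![WK, none, none, none, none], ![none, WK, none, none, none], ![none, none, WK, none, none],
   ![none, none, none, WK, none], ![none, none, none, none, WK]]

/-- positions which white cannot win -/
def JJ (g : ℕ) (B : Board (ℤ × ℤ)) : Prop := ZI g B ∧ KB g B ∧ kv g B ∈ jl

theorem jl_jump : ∀ f ∈ jl, ∀ i j : Fin 5, (i = 0 ∧ j = 4) ∨ (i = 4 ∧ j = 0) → f i ≠ none →
    f 3 ≠ none → f j = none → i = 0 ∧ j = 4 ∧ f 0 = WK ∧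
      Function.update (Function.update (Function.update f 0 none) 3 none) 4 WK ∈ jl := by
  decide

theorem jl_step : ∀ f ∈ jl, ∀ i j : Fin 5, adj i j = true → f i = WK → f j = none →
      Function.update (Function.update f i none) j WK ∈ jl := by
  decide

theorem jl_white : ∀ f ∈ jl, ∀ i : Fin 5, f i = none ∨ f i = WK ∨ f i = BM := by
  decide

theorem jl_exists : ∀ f ∈ jl, ∃ i j : Fin 5, adj i j = true ∧ f i = WK ∧ f j = none := by
  decide

theorem adj_nb {g : ℕ} : ∀ i j : Fin 5, adj i j = true → ∃ d, (rot g).nb (kc g i) d = kc g j := by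
  intro i j h
  fin_cases i <;> fin_cases j <;> simp [adj] at h
  · exact ⟨1, by simp [rot_nb, kc, dx, dy]; ring⟩
  · exact ⟨0, by simp [rot_nb, kc, dx, dy]; ring⟩
  · exact ⟨3, by simp [rot_nb, kc, dx, dy]; ring⟩
  · exact ⟨0, by simp [rot_nb, kc, dx, dy]; ring⟩
  · exact ⟨2, by simp [rot_nb, kc, dx, dy]; ring⟩
  · exact ⟨3, by simp [rot_nb, kc, dx, dy]; ring⟩
  · exact ⟨2, by simp [rot_nb, kc, dx, dy]; ring⟩
  · exact ⟨1, by simp [rot_nb, kc, dx, dy]; ring⟩
  · exact ⟨0, by simp [rot_nb, kc, dx, dy]; ring⟩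
  · exact ⟨2, by simp [rot_nb, kc, dx, dy]; ring⟩

theorem JJ.jump {g : ℕ} {B : Board (ℤ × ℤ)} (h : JJ g B) {s : ℤ × ℤ} {B' : Board (ℤ × ℤ)}
    {t : ℤ × ℤ} (hj : (rot g).Jump B s B' t) : JJ g B' := by
  obtain ⟨p, q, d, h1, h2, h3, h4, h5, h6, h7, rfl⟩ := hj
  obtain ⟨hZ, hK, hv⟩ := h
  rcases zone_jump hZ h1 h2 h3 h5 h6 h7 with ⟨h8, h9, h10⟩ | ⟨h8, h9⟩
  · refine ⟨((hZ.update (Or.inl h8) (Or.inl rfl)).update (Or.inl h9) (Or.inl rfl)).update
      (Or.inl h10) (Or.inr h6), ((hK.out h8).out h9).out h10, ?_⟩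
    rw [kv_out h10, kv_out h9, kv_out h8]
    exact hv
  · rw [h8] at h3 ⊢
    obtain ⟨i, j, rfl, rfl, h10⟩ : ∃ i j, s = kc g i ∧ t = kc g j ∧ ((i = 0 ∧ j = 4) ∨ (i = 4 ∧ j = 0)) := by
      rcases h9 with ⟨rfl, rfl⟩ | ⟨rfl, rfl⟩
      · exact ⟨0, 4, rfl, rfl, Or.inl ⟨rfl, rfl⟩⟩
      · exact ⟨4, 0, rfl, rfl, Or.inr ⟨rfl, rfl⟩⟩
    obtain ⟨rfl, rfl, h11, h12⟩ := jl_jump _ hv i j h10 (by unfold kv; rw [h1]; simp)
      (by unfold kv; rw [h3]; simp) h7
    unfold kv at h11
    rw [h1] at h11
    cases h11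
    refine ⟨((hZ.update (Or.inr (rot_kc g _)) (Or.inl rfl)).update (Or.inr (rot_kc g _))
      (Or.inl rfl)).update (Or.inr (rot_kc g _)) (Or.inr h6), ((hK.kc _).kc _).kc _, ?_⟩
    rw [kv_update, kv_update, kv_update]
    exact h12

theorem JJ.cap {g : ℕ} {stop w : Bool} {B : Board (ℤ × ℤ)} (h : JJ g B) {s : ℤ × ℤ}
    {B' : Board (ℤ × ℤ)} (hs : Owns B w s) (hj : (rot g).Cap stop B s B') : JJ g B' :=
  Geo.Cap.ind (w := w) (I := JJ g) (fun _ _ _ _ h1 _ h2 => h1.jump h2) hj hs h

theorem JJ.step {g : ℕ} {B : Board (ℤ × ℤ)} (h : JJ g B) {s : ℤ × ℤ} {B' : Board (ℤ × ℤ)}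
    (hs : Owns B true s) (hj : (rot g).Step B s B') : JJ g B' := by
  obtain ⟨p, d, h1, h2, h6, h7, rfl⟩ := hj
  obtain ⟨hZ, hK, hv⟩ := h
  obtain ⟨p', hp', hw⟩ := hs
  rw [h1] at hp'
  cases hp'
  rcases zone_step hZ h1 h2 h6 h7 with ⟨h8, h10⟩ | ⟨i, j, h8, rfl, h9⟩ | ⟨i, j, h8, rfl, h9⟩
  · refine ⟨((hZ.update (Or.inl h8) (Or.inl rfl))).update
      (Or.inl h10) (Or.inr h6), ((hK.out h8)).out h10, ?_⟩
    rw [kv_out h10, kv_out h8]
    exact hv
  · rw [h9] at h6 h7 ⊢
    have h10 : p = ⟨true, true⟩ := by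
      rcases jl_white _ hv i with h10 | h10 | h10
      · unfold kv at h10
        rw [h1] at h10
        cases h10
      · unfold kv at h10
        rw [h1] at h10
        cases h10
        rfl
      · unfold kv at h10
        rw [h1] at h10
        cases h10
        cases hw
    subst h10
    refine ⟨((hZ.update (Or.inr (rot_kc g _)) (Or.inl rfl))).update (Or.inr (rot_kc g _))
      (Or.inr h6), ((hK.kc _)).kc _, ?_⟩
    rw [kv_update, kv_update]
    exact jl_step _ hv i j h8 h1 h7
  · exfalso
    obtain ⟨i', j', h10, h11, h12⟩ := hK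
    by_cases h13 : i = i'
    · subst h13
      rw [h1] at h11
      cases h11
      cases hw
    · have h14 : i = j' := by omega
      subst h14
      rw [h1] at h12
      cases h12

theorem JJ.not_win {g : ℕ} {stop t : Bool} {B : Board (ℤ × ℤ)} (h : JJ g B) :
    ¬ (rot g).Win stop true t B := by
  refine Pool.Agent.Helper314_MC.not_win (J := fun _ => JJ g) ?_ ?_ h
  · intro B h
    refine ⟨?_, ?_⟩
    · by_cases h1 : (rot g).CanJump true B
      · obtain ⟨s, B₁, t, h1, h2⟩ := h1
        obtain ⟨B', h3⟩ := exists_cap (stop := stop) (ok_box g) _ B s le_rfl h.1.supp ⟨B₁, t, h2⟩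
        exact ⟨B', Or.inl ⟨s, h1, h3⟩⟩
      · obtain ⟨i, j, h2, h3, h4⟩ := jl_exists _ h.2.2
        obtain ⟨d, hd⟩ := adj_nb (g := g) i j h2
        refine ⟨_, Or.inr ⟨h1, kc g i, ⟨_, h3, rfl⟩, ⟨true, true⟩, d, h3, Or.inl rfl, ?_, ?_, rfl⟩⟩
        · rw [hd]
          exact (zone_kc j).1
        · rw [hd]
          exact h4
    · rintro B' (⟨s, h1, h2⟩ | ⟨_, s, h1, h2⟩)
      · exact h.cap h1 h2
      · exact h.step h1 h2
  · intro B h
    obtain ⟨B', h1, ⟨s, h2, h3⟩ | ⟨i, j, h2, h3, h4, rfl⟩⟩ := black_moves (stop := stop) h.1 h.2.1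
    · exact ⟨B', h1, h.cap h2 h3⟩
    · refine ⟨_, h1, (h.1.update (Or.inr (rot_bc g _)) (Or.inl rfl)).update (Or.inr (rot_bc g _))
        (Or.inr (zone_bc j).1), ⟨j, i, h2.symm, Function.update_self _ _ _, ?_⟩, ?_⟩
      · rw [Function.update_of_ne (fun h' => h2 (bc_inj h')), Function.update_self]
      · have : kv g (Function.update (Function.update B (bc g i) none) (bc g j) BK) = kv g B := by
          funext k
          unfold kv
          rw [upd_bc_kc, upd_bc_kc]
        rw [this]
        exact h.2.2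

/-! ### Positions without white kings -/

/-- no white king and the ceiling is intact -/
def NW (g : ℕ) (B : Board (ℤ × ℤ)) : Prop :=
  ZI g B ∧ KB g B ∧ (∀ s, B s ≠ WK) ∧ ∀ i p, B (kc g i) = some p → p.white = false

/-- the potential of the white men -/
def pot (g : ℕ) (o : Option Piece) (s : ℤ × ℤ) : ℕ :=
  match o with
  | some ⟨true, _⟩ => (72 * (g : ℤ) + 100 - (s.1 + s.2)).toNat
  | _ => 0

theorem pot_none {g : ℕ} (s : ℤ × ℤ) : pot g none s = 0 := rfl

theorem pot_black {g : ℕ} {p : Piece} (hp : p.white = false) (s : ℤ × ℤ) : pot g (some p) s = 0 := by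
  obtain ⟨w, k⟩ := p
  cases hp
  rfl

theorem pot_white {g : ℕ} {p : Piece} (hp : p.white = true) (s : ℤ × ℤ) :
    pot g (some p) s = (72 * (g : ℤ) + 100 - (s.1 + s.2)).toNat := by
  obtain ⟨w, k⟩ := p
  cases hp
  rfl

theorem far_out {g : ℕ} {t : ℤ × ℤ} (h : (rot g).ok t) (h' : ¬ zone g t) :
    (rot g).far true t = false := by
  have h1 : ¬ (72 * (g : ℤ) + 27 ≤ t.1 + t.2) := fun h1 => h' ⟨h, h1⟩
  simp only [rot, if_true, decide_eq_false_iff_not]
  omega

theorem up_of_man {p : Piece} {d : Fin 4} (h : p.can d) (hw : p.white = true)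
    (hk : p.king = false) : d = 0 ∨ d = 1 := by
  unfold Piece.can at h
  rw [hw, hk] at h
  simp at h
  omega

theorem man_of_ne {p : Piece} (h : some p ≠ WK) (hw : p.white = true) : p.king = false := by
  obtain ⟨w, k⟩ := p
  cases hw
  cases k
  · rfl
  · exact absurd rfl h

theorem NW.jump {g : ℕ} {B : Board (ℤ × ℤ)} (h : NW g B) {s : ℤ × ℤ} {B' : Board (ℤ × ℤ)}
    {t : ℤ × ℤ} (hj : (rot g).Jump B s B' t) : NW g B' ∧
      tot (box g) (pot g) B' ≤ tot (box g) (pot g) B ∧
      (Owns B true s → tot (box g) (pot g) B' < tot (box g) (pot g) B) := by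
  obtain ⟨p, q, d, h1, h2, h3, h4, h5, h6, h7, h11, h12, h13, rfl⟩ := hj.elim
  obtain ⟨hZ, hK, hW, hv⟩ := h
  rcases zone_jump hZ h1 h2 h3 h5 h6 h7 with ⟨h8, h9, h10⟩ | ⟨h8, h9⟩
  · have e := tot_jump (f := pot g) (pot_none) (ok_box g _ (hZ.2 s (by rw [h1]; simp)))
      (ok_box g _ (hZ.2 _ (by rw [h3]; simp))) (ok_box g _ h6) h11 h7 h12 h13
      (p' := (rot g).crown p t)
    have hcr : p.white = true → some ((rot g).crown p t) ≠ WK := by
      intro hw
      unfold Geo.crown
      rw [hw, far_out h6 h10, man_of_ne (fun h => hW s (by rw [h1, h])) hw]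
      simp
    refine ⟨⟨((hZ.update (Or.inl h8) (Or.inl rfl)).update (Or.inl h9) (Or.inl rfl)).update
      (Or.inl h10) (Or.inr h6), ((hK.out h8).out h9).out h10, ?_, ?_⟩, ?_, ?_⟩
    · intro c
      by_cases hc : c = t
      · rw [hc, Function.update_self]
        by_cases hw : p.white = true
        · exact hcr hw
        · intro h
          injection h with h
          have := congrArg Piece.white h
          exact hw this
      · rw [Function.update_of_ne hc]
        by_cases hc : c = (rot g).nb s d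
        · rw [hc, Function.update_self]
          simp
        · rw [Function.update_of_ne hc]
          by_cases hc : c = s
          · rw [hc, Function.update_self]
            simp
          · rw [Function.update_of_ne hc]
            exact hW c
    · intro i p' hp'
      rw [upd_kc h10, upd_kc h9, upd_kc h8] at hp'
      exact hv i p' hp'
    · rw [h1, h3] at e
      by_cases hw : p.white = true
      · have hk : p.king = false := man_of_ne (fun h => hW s (by rw [h1, h])) hw
        have hq : q.white = false := by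
          cases hq : q.white
          · rfl
          · rw [hq, hw] at h4
            exact absurd rfl h4
        rw [pot_white hw, pot_black hq, pot_white (p := (rot g).crown p t) hw] at e
        have h14 : t.1 + t.2 = s.1 + s.2 + 2 := by
          subst h5
          rcases up_of_man h2 hw hk with rfl | rfl <;> simp [rot_nb, dx, dy] <;> ring
        omega
      · have hw' : p.white = false := by simpa using hw
        rw [pot_black hw', pot_black (p := (rot g).crown p t) hw'] at e
        omega
    · rintro ⟨p', hp', hw⟩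
      rw [h1] at hp'
      cases hp'
      rw [h1, h3] at e
      have hk : p.king = false := man_of_ne (fun h => hW s (by rw [h1, h])) hw
      have hq : q.white = false := by
        cases hq : q.white
        · rfl
        · rw [hq, hw] at h4
          exact absurd rfl h4
      rw [pot_white hw, pot_black hq, pot_white (p := (rot g).crown p t) hw] at e
      have h14 : t.1 + t.2 = s.1 + s.2 + 2 := by
        subst h5
        rcases up_of_man h2 hw hk with rfl | rfl <;> simp [rot_nb, dx, dy] <;> ring
      have h15 : s.1 + s.2 < 72 * (g : ℤ) + 38 := by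
        have := (hZ.2 s (by rw [h1]; simp)).2.2
        omega
      omega
  · exfalso
    have h10 : ∃ i, s = kc g i := by
      rcases h9 with ⟨h9, -⟩ | ⟨h9, -⟩
      · exact ⟨_, h9⟩
      · exact ⟨_, h9⟩
    obtain ⟨i, rfl⟩ := h10
    rw [h8] at h3
    have h14 := hv _ _ h1
    have h15 := hv _ _ h3
    rw [h14, h15] at h4
    exact h4 rfl

theorem NW.cap {g : ℕ} {stop w : Bool} {B : Board (ℤ × ℤ)} (h : NW g B) {s : ℤ × ℤ}
    {B' : Board (ℤ × ℤ)} (hs : Owns B w s) (hj : (rot g).Cap stop B s B') : NW g B' ∧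
      tot (box g) (pot g) B' ≤ tot (box g) (pot g) B ∧
      (w = true → tot (box g) (pot g) B' < tot (box g) (pot g) B) := by
  have h1 : NW g B' ∧ tot (box g) (pot g) B' ≤ tot (box g) (pot g) B :=
    Geo.Cap.ind (w := w) (I := fun B' => NW g B' ∧ tot (box g) (pot g) B' ≤ tot (box g) (pot g) B)
      (fun _ _ _ _ h1 _ h2 => ⟨(h1.1.jump h2).1, (h1.1.jump h2).2.1.trans h1.2⟩) hj hs ⟨h, le_rfl⟩
  refine ⟨h1.1, h1.2, ?_⟩
  rintro rfl
  cases hj with
  | last h2 _ => exact (h.jump h2).2.2 hs
  | more h2 _ h3 =>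
    have h4 := h.jump h2
    have h5 := h4.2.2 hs
    have hs' := owns_jump hs h2
    have h6 : NW g B' ∧ tot (box g) (pot g) B' ≤ tot (box g) (pot g) _ :=
      Geo.Cap.ind (w := true) (I := fun B' => NW g B' ∧ tot (box g) (pot g) B' ≤ tot (box g) (pot g) _)
        (fun _ _ _ _ h1 _ h2 => ⟨(h1.1.jump h2).1, (h1.1.jump h2).2.1.trans h1.2⟩) h3 hs' ⟨h4.1, le_rfl⟩
    exact h6.2.trans_lt h5

theorem NW.step {g : ℕ} {w : Bool} {B : Board (ℤ × ℤ)} (h : NW g B) {s : ℤ × ℤ}
    {B' : Board (ℤ × ℤ)} (hs : Owns B w s) (hj : (rot g).Step B s B') : NW g B' ∧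
      tot (box g) (pot g) B' ≤ tot (box g) (pot g) B ∧
      (w = true → tot (box g) (pot g) B' < tot (box g) (pot g) B) := by
  obtain ⟨p, d, h1, h2, h6, h7, rfl⟩ := hj
  obtain ⟨hZ, hK, hW, hv⟩ := h
  obtain ⟨p', hp', hw⟩ := hs
  rw [h1] at hp'
  cases hp'
  have hne : (rot g).nb s d ≠ s := by
    intro h
    rw [h, h1] at h7
    cases h7
  have e := tot_step (f := pot g) (pot_none) (ok_box g _ (hZ.2 s (by rw [h1]; simp)))
    (ok_box g _ h6) h7 hne (p' := (rot g).crown p ((rot g).nb s d))
  have hZ' : ZI g (Function.update (Function.update B s none) ((rot g).nb s d)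
      (some ((rot g).crown p ((rot g).nb s d)))) := by
    rcases zone_step hZ h1 h2 h6 h7 with ⟨h8, h10⟩ | ⟨i, j, h8, rfl, h9⟩ | ⟨i, j, h8, rfl, h9⟩
    · exact ((hZ.update (Or.inl h8) (Or.inl rfl))).update (Or.inl h10) (Or.inr h6)
    · refine ((hZ.update (Or.inr (rot_kc g _)) (Or.inl rfl))).update ?_ (Or.inr h6)
      rw [h9]
      exact Or.inr (rot_kc g _)
    · refine ((hZ.update (Or.inr (rot_bc g _)) (Or.inl rfl))).update ?_ (Or.inr h6)
      rw [h9]
      exact Or.inr (rot_bc g _)
  rw [h1] at e
  cases w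
  · rw [pot_black hw, pot_black (p := (rot g).crown p _) hw] at e
    refine ⟨⟨hZ', ?_, ?_, ?_⟩, by omega, by simp⟩
    · rcases zone_step hZ h1 h2 h6 h7 with ⟨h8, h10⟩ | ⟨i, j, h8, rfl, h9⟩ | ⟨i, j, h8, rfl, h9⟩
      · exact (hK.out h8).out h10
      · rw [h9]
        exact (hK.kc _).kc _
      · obtain ⟨i', j', h10, h11, h12⟩ := hK
        rw [h9] at h7 ⊢
        have hi : i = i' := by
          by_contra h13
          have h14 : i = j' := by omega
          subst h14
          rw [h1] at h12
          cases h12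
        have hj : j = j' := by omega
        subst hi
        subst hj
        rw [h1] at h11
        cases h11
        refine ⟨j, i, h8.symm, ?_, ?_⟩
        · rw [Function.update_self]
          rfl
        · rw [Function.update_of_ne (fun h' => h8 (bc_inj h')), Function.update_self]
    · intro c
      by_cases hc : c = (rot g).nb s d
      · rw [hc, Function.update_self]
        intro h
        injection h with h
        have := congrArg Piece.white h
        simp only [Geo.crown] at this
        rw [hw] at this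
        cases this
      · rw [Function.update_of_ne hc]
        by_cases hc : c = s
        · rw [hc, Function.update_self]
          simp
        · rw [Function.update_of_ne hc]
          exact hW c
    · intro i p' hp'
      by_cases hc : kc g i = (rot g).nb s d
      · rw [hc, Function.update_self] at hp'
        cases hp'
        exact hw
      · rw [Function.update_of_ne hc] at hp'
        by_cases hc : kc g i = s
        · rw [hc, Function.update_self] at hp'
          cases hp'
        · rw [Function.update_of_ne hc] at hp'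
          exact hv i p' hp'
  · have hk : p.king = false := man_of_ne (fun h => hW s (by rw [h1, h])) hw
    rcases zone_step hZ h1 h2 h6 h7 with ⟨h8, h10⟩ | ⟨i, j, h8, rfl, h9⟩ | ⟨i, j, h8, rfl, h9⟩
    · rw [pot_white hw, pot_white (p := (rot g).crown p _) hw] at e
      have h14 : ((rot g).nb s d).1 + ((rot g).nb s d).2 = s.1 + s.2 + 1 := by
        rcases up_of_man h2 hw hk with rfl | rfl <;> simp [rot_nb, dx, dy] <;> ring
      have h15 : s.1 + s.2 < 72 * (g : ℤ) + 38 := by
        have := (hZ.2 s (by rw [h1]; simp)).2.2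
        omega
      refine ⟨⟨hZ', (hK.out h8).out h10, ?_, ?_⟩, by omega, fun _ => by omega⟩
      · intro c
        by_cases hc : c = (rot g).nb s d
        · rw [hc, Function.update_self]
          unfold Geo.crown
          rw [hw, hk, far_out h6 h10]
          simp
        · rw [Function.update_of_ne hc]
          by_cases hc : c = s
          · rw [hc, Function.update_self]
            simp
          · rw [Function.update_of_ne hc]
            exact hW c
      · intro i p' hp'
        rw [upd_kc h10, upd_kc h8] at hp'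
        exact hv i p' hp'
    · have := hv _ _ h1
      rw [hw] at this
      cases this
    · exfalso
      obtain ⟨i', j', h10, h11, h12⟩ := hK
      by_cases h13 : i = i'
      · subst h13
        rw [h1] at h11
        cases h11
        cases hw
      · have h14 : i = j' := by omega
        subst h14
        rw [h1] at h12
        cases h12

theorem NW.win {g : ℕ} {stop : Bool} (k : ℕ) : ∀ B, NW g B → tot (box g) (pot g) B ≤ k →
    (rot g).Win stop true true B ∧ (rot g).Win stop true false B := by
  induction k with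
  | zero =>
    intro B h hk
    have h1 : ∀ B, NW g B → tot (box g) (pot g) B ≤ 0 → (rot g).Win stop true true B := by
      intro B h hk
      refine .blocked rfl ?_
      rintro ⟨B', ⟨s, h1, h2⟩ | ⟨_, s, h1, h2⟩⟩
      · have := (h.cap h1 h2).2.2 rfl
        omega
      · have := (h.step h1 h2).2.2 rfl
        omega
    refine ⟨h1 B h hk, .reply (by simp) ?_ ?_⟩
    · obtain ⟨B', h2, -⟩ := black_moves (stop := stop) h.1 h.2.1
      exact ⟨B', h2⟩
    · rintro B' (⟨s, h2, h3⟩ | ⟨_, s, h2, h3⟩)
      · have := h.cap h2 h3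
        exact h1 B' this.1 (by omega)
      · have := h.step h2 h3
        exact h1 B' this.1 (by omega)
  | succ k ih =>
    intro B h hk
    have h1 : ∀ B, NW g B → tot (box g) (pot g) B ≤ k + 1 → (rot g).Win stop true true B := by
      intro B h hk
      by_cases hm : ∃ B', (rot g).Legal stop true B B'
      · obtain ⟨B', hm⟩ := hm
        refine .move rfl hm ?_
        rcases hm with ⟨s, h2, h3⟩ | ⟨_, s, h2, h3⟩
        · have := h.cap h2 h3
          have h4 := this.2.2 rfl
          exact (ih B' this.1 (by omega)).2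
        · have := h.step h2 h3
          have h4 := this.2.2 rfl
          exact (ih B' this.1 (by omega)).2
      · exact .blocked rfl hm
    refine ⟨h1 B h hk, .reply (by simp) ?_ ?_⟩
    · obtain ⟨B', h2, -⟩ := black_moves (stop := stop) h.1 h.2.1
      exact ⟨B', h2⟩
    · rintro B' (⟨s, h2, h3⟩ | ⟨_, s, h2, h3⟩)
      · have := h.cap h2 h3
        exact h1 B' this.1 (by omega)
      · have := h.step h2 h3
        exact h1 B' this.1 (by omega)

/-! ### The two outcomes of the forced phase -/

/-- the initial contents of the chamber of the white king -/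
def k0 : Fin 5 → Option Piece := ![none, none, WK, none, BM]

/-- Black to move and no capture is possible: black closes the chamber. -/
theorem endO {g : ℕ} {stop : Bool} {B : Board (ℤ × ℤ)} (hZ : ZI g B) (hK : KB g B)
    (hv : kv g B = k0) (hc : ¬ (rot g).CanJump false B) : ¬ (rot g).Win stop true false B := by
  intro hwin
  have hv' : ∀ i, B (kc g i) = k0 i := fun i => congrFun hv i
  have h4 : (rot g).nb (kc g 4) 2 = kc g 3 := by simp [rot_nb, kc, dx, dy]; ring
  have hB' : (rot g).Legal stop false B (Function.update (Function.update B (kc g 4) none)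
      (kc g 3) BM) := by
    refine Or.inr ⟨hc, kc g 4, ⟨_, hv' 4, rfl⟩, ⟨false, false⟩, 2, hv' 4,
      Or.inr (Or.inr ⟨rfl, le_rfl⟩), ?_, ?_, ?_⟩
    · rw [h4]
      exact (zone_kc 3).1
    · rw [h4, hv' 3]
      rfl
    · have hcr : (rot g).crown ⟨false, false⟩ (kc g 3) = ⟨false, false⟩ := by
        unfold Geo.crown
        simp [rot, kc]
        omega
      rw [h4, hcr]
  have hJ : JJ g (Function.update (Function.update B (kc g 4) none) (kc g 3) BM) := by
    refine ⟨((hZ.update (Or.inr (rot_kc g _)) (Or.inl rfl))).update (Or.inr (rot_kc g _))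
      (Or.inr (zone_kc 3).1), (hK.kc _).kc _, ?_⟩
    rw [kv_update, kv_update, hv]
    decide
  cases hwin with
  | blocked h _ => cases h
  | move h _ _ => cases h
  | reply _ _ h => exact hJ.not_win (h _ hB')

/-- White to move and no capture is possible: white sacrifices its king. -/
theorem endP {g : ℕ} {stop : Bool} {B : Board (ℤ × ℤ)} (hZ : ZI g B) (hK : KB g B)
    (hv : kv g B = k0) (hc : ¬ (rot g).CanJump false B) (hc' : ¬ (rot g).CanJump true B)
    (hW : ∀ s, B s = WK → s = kc g 2) : (rot g).Win stop true true B := by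
  have hv' : ∀ i, B (kc g i) = k0 i := fun i => congrFun hv i
  have h4 : (rot g).nb (kc g 2) 3 = kc g 3 := by simp [rot_nb, kc, dx, dy]; ring
  set B₁ := Function.update (Function.update B (kc g 2) none) (kc g 3) WK with hB₁
  have hB' : (rot g).Legal stop true B B₁ := by
    refine Or.inr ⟨hc', kc g 2, ⟨_, hv' 2, rfl⟩, ⟨true, true⟩, 3, hv' 2,
      Or.inl rfl, ?_, ?_, ?_⟩
    · rw [h4]
      exact (zone_kc 3).1
    · rw [h4, hv' 3]
      rfl
    · rw [h4]
      rfl
  have hZ1 : ZI g B₁ := ((hZ.update (Or.inr (rot_kc g _)) (Or.inl rfl))).update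
    (Or.inr (rot_kc g _)) (Or.inr (zone_kc 3).1)
  have hK1 : KB g B₁ := (hK.kc _).kc _
  have hv1 : kv g B₁ = ![none, none, none, WK, BM] := by
    rw [hB₁, kv_update, kv_update, hv]
    decide
  have hv1' : ∀ i, B₁ (kc g i) = (![none, none, none, WK, BM] : Fin 5 → Option Piece) i :=
    fun i => congrFun hv1 i
  have hout : ∀ s, (∀ i, s ≠ kc g i) → B₁ s = B s := by
    intro s hs
    rw [hB₁, Function.update_of_ne (hs 3), Function.update_of_ne (hs 2)]
  have hzo : ∀ s, ¬ zone g s → B₁ s = B s := fun s hs => hout s fun i h => hs (by rw [h]; exact zone_kc i)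
  -- every black jump captures the king
  have key : ∀ s B₂ t, Owns B₁ false s → (rot g).Jump B₁ s B₂ t → NW g B₂ := by
    rintro s B₂ t ⟨p', hp', hw'⟩ ⟨p, q, d, h1, h2, h3, h5, h6, h7, h8, rfl⟩
    have hw : p.white = false := by
      rw [h1] at hp'
      cases hp'
      exact hw'
    rcases zone_jump hZ1 h1 h2 h3 h6 h7 h8 with ⟨h9, h10, h11⟩ | ⟨h9, h10⟩
    · exfalso
      rw [hzo _ h9] at h1
      rw [hzo _ h10] at h3
      rw [hzo _ h11] at h8
      exact hc ⟨s, _, t, ⟨p, h1, hw⟩, p, q, d, h1, h2, h3, h5, h6, h7, h8, rfl⟩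
    · rw [h9] at h3 ⊢
      have h11 : s = kc g 4 ∧ t = kc g 0 := by
        rcases h10 with ⟨rfl, rfl⟩ | h10
        · rw [hv1' 0] at h1
          cases h1
        · exact h10
      obtain ⟨rfl, rfl⟩ := h11
      refine ⟨((hZ1.update (Or.inr (rot_kc g _)) (Or.inl rfl)).update (Or.inr (rot_kc g _))
        (Or.inl rfl)).update (Or.inr (rot_kc g _)) (Or.inr h7), ((hK1.kc _).kc _).kc _, ?_, ?_⟩
      · intro c
        by_cases hc1 : c = kc g 0
        · rw [hc1, Function.update_self]
          intro h
          injection h with h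
          have := congrArg Piece.white h
          simp only [Geo.crown] at this
          rw [hw] at this
          cases this
        · rw [Function.update_of_ne hc1]
          by_cases hc2 : c = kc g 3
          · rw [hc2, Function.update_self]
            simp
          · rw [Function.update_of_ne hc2]
            by_cases hc3 : c = kc g 4
            · rw [hc3, Function.update_self]
              simp
            · rw [Function.update_of_ne hc3]
              intro h
              by_cases hc4 : c = kc g 2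
              · rw [hc4, hv1' 2] at h
                cases h
              · rw [hB₁, Function.update_of_ne hc2, Function.update_of_ne hc4] at h
                exact hc4 (hW c h)
      · intro i p' hp'
        have h12 : kv g (Function.update (Function.update (Function.update B₁ (kc g 4) none)
            (kc g 3) none) (kc g 0) (some ((rot g).crown p (kc g 0)))) =
            Function.update (Function.update (Function.update (![none, none, none, WK, BM] : Fin 5 → Option Piece) 4 none) 3
              none) 0 (some ((rot g).crown p (kc g 0))) := by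
          rw [kv_update, kv_update, kv_update, hv1]
        have h13 := congrFun h12 i
        unfold kv at h13
        rw [hp'] at h13
        fin_cases i
        · simp at h13
          subst h13
          exact hw
        · simp at h13
        · simp at h13
        · simp at h13
        · simp at h13
  refine .move rfl hB' (.reply (by simp) ?_ ?_)
  · obtain ⟨B', h2, -⟩ := black_moves (stop := stop) hZ1 hK1
    exact ⟨B', h2⟩
  · have hcj : (rot g).CanJump false B₁ := by
      refine ⟨kc g 4, _, kc g 0, ⟨_, hv1' 4, rfl⟩, ⟨false, false⟩, ⟨true, true⟩, 2, hv1' 4,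
        Or.inr (Or.inr ⟨rfl, le_rfl⟩), ?_, by simp, ?_, (zone_kc 0).1, hv1' 0, rfl⟩
      · have : (rot g).nb (kc g 4) 2 = kc g 3 := by simp [rot_nb, kc, dx, dy]; ring
        rw [this]
        exact hv1' 3
      · simp [rot_nb, kc, dx, dy]; ring
    rintro B' (⟨s, h2, h3⟩ | ⟨h2, _⟩)
    · have h5 : NW g B' := by
        cases h3 with
        | last h3 _ => exact key _ _ _ h2 h3
        | more h3 _ h4 =>
          have h6 := key _ _ _ h2 h3
          have hs' := owns_jump h2 h3
          exact (h6.cap hs' h4).1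
      exact (NW.win _ B' h5 le_rfl).1
    · exact absurd hcj h2

end Pool.Agent.Helper314_MC
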