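import Pool.Agent.Helper314_MC.Pat

/-!
# The forced phase, step by step
-/

set_option autoImplicit false
set_option linter.unusedSectionVars false

namespace Pool.Agent.Helper314_MC

open Pool.Agent.H656R2.AK (QF)

theorem near_net {g : ℕ} {m : ℤ × ℤ} (h : net g m) (d : Fin 4) :
    (rot g).ok ((rot g).nb m d) ∧ ¬ zone g ((rot g).nb m d) ∧
      ∀ w, (rot g).far w ((rot g).nb m d) = false := by
  unfold net at h
  have h1 : -1 ≤ m.1 + dx d ∧ m.1 + dx d ≤ 36 * g ∧ -1 ≤ m.2 + dy d ∧ m.2 + dy d ≤ 36 * g ∧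
      -1 ≤ (m.1 + dx d) + (m.2 + dy d) ∧ (m.1 + dx d) + (m.2 + dy d) ≤ 72 * g - 1 := by
    fin_cases d <;> simp [dx, dy] <;> omega
  refine ⟨?_, ?_, ?_⟩
  · simp only [rot]
    omega
  · intro h2
    have := h2.2
    simp only [rot_nb] at this
    omega
  · intro w
    cases w
    · simp only [rot, Bool.false_eq_true, if_false, decide_eq_false_iff_not]
      omega
    · simp only [rot, if_true, decide_eq_false_iff_not]
      omega

theorem nb_ne (g : ℕ) (c : ℤ × ℤ) (d : Fin 4) : (rot g).nb c d ≠ c := by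
  intro h
  have h1 := congrArg Prod.fst h
  have h2 := congrArg Prod.snd h
  simp only [rot_nb] at h1 h2
  fin_cases d <;> simp [dx, dy] at h1 h2

theorem nb_nb_ne (g : ℕ) (c : ℤ × ℤ) (d : Fin 4) : (rot g).nb ((rot g).nb c d) d ≠ c := by
  intro h
  have h1 := congrArg Prod.fst h
  have h2 := congrArg Prod.snd h
  simp only [rot_nb] at h1 h2
  fin_cases d <;> simp [dx, dy] at h1 h2 <;> omega

theorem nb_opp (g : ℕ) (c : ℤ × ℤ) (d : Fin 4) : (rot g).nb ((rot g).nb c (d + 2)) d = c := by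
  fin_cases d <;> simp [rot_nb, dx, dy]

theorem nb_opp' (g : ℕ) (c : ℤ × ℤ) (d : Fin 4) : (rot g).nb ((rot g).nb c d) (d + 2) = c := by
  fin_cases d <;> simp [rot_nb, dx, dy]

variable {Q : QF} {A : Board (ℤ × ℤ)} {c : ℤ × ℤ} {stop : Bool}

/-- an exit of a run -/
def ex (Q : QF) (w : Bool) (A : Board (ℤ × ℤ)) (c : ℤ × ℤ) (d : Fin 4) : Prop :=
  up w d ∧ A ((rot (gg Q)).nb c d) = Mn (!w) ∧ A ((rot (gg Q)).nb ((rot (gg Q)).nb c d) d) = none

/-- the possible captures of the token -/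
def cp (Q : QF) (w : Bool) (A : Board (ℤ × ℤ)) (c : ℤ × ℤ) (e : Fin 4) : Prop :=
  up w e ∧ A ((rot (gg Q)).nb c (e + 2)) = Mn w ∧ A ((rot (gg Q)).nb c e) = none

/-- removal of a piece -/
def del (A : Board (ℤ × ℤ)) (s : ℤ × ℤ) : Board (ℤ × ℤ) := Function.update A s none

theorem upd_upd (h : A c = none) (v : Option Piece) :
    Function.update (Function.update A c v) c none = A := by
  funext x
  by_cases hx : x = c
  · rw [hx, Function.update_self, h]
  · rw [Function.update_of_ne hx, Function.update_of_ne hx]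

theorem jump_run (hA : GA Q A) (hc : net (gg Q) c) (hn : A c = none) {w : Bool}
    {B₁ : Board (ℤ × ℤ)} {t : ℤ × ℤ} : (rot (gg Q)).Jump (Function.update A c (Mn w)) c B₁ t ↔
      ∃ d, ex Q w A c d ∧ t = (rot (gg Q)).nb ((rot (gg Q)).nb c d) d ∧
        B₁ = Function.update (del A ((rot (gg Q)).nb c d)) t (Mn w) := by
  constructor
  · rintro ⟨p, q, d, h1, h2, h3, h4, h5, h6, h7, rfl⟩
    rw [Function.update_self] at h1
    cases h1
    rw [can_man] at h2
    rw [Function.update_of_ne (nb_ne _ _ _)] at h3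
    have htc : t ≠ c := by rw [h5]; exact nb_nb_ne _ _ _
    rw [Function.update_of_ne htc] at h7
    obtain ⟨h8, -, h9⟩ := hA.some_net h3 (near_net hc d).2.1
    have h10 : q = ⟨!w, false⟩ := by
      have h11 : q.white = !w := by
        revert h4
        cases q.white <;> cases w <;> simp
      rw [h9, h11]
    refine ⟨d, ⟨h2, by rw [h3, h10], by rw [← h5]; exact h7⟩, h5, ?_⟩
    unfold del
    rw [upd_upd hn]
    congr 2
    unfold Geo.crown
    rw [h5, (near_net h8 d).2.2]
    rfl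
  · rintro ⟨d, ⟨h1, h2, h3⟩, rfl, rfl⟩
    obtain ⟨h8, -, h9⟩ := hA.some_net h2 (near_net hc d).2.1
    refine ⟨⟨w, false⟩, ⟨!w, false⟩, d, Function.update_self _ _ _, can_man.2 h1, ?_, ?_, rfl,
      (near_net h8 d).1, ?_, ?_⟩
    · rw [Function.update_of_ne (nb_ne _ _ _), h2]
    · cases w <;> simp
    · rw [Function.update_of_ne (nb_nb_ne _ _ _), h3]
    · unfold del
      rw [upd_upd hn]
      congr 2
      unfold Geo.crown
      rw [(near_net h8 d).2.2]
      rfl

theorem no_halts (hA : GA Q A) (hc : net (gg Q) c) (hn : A c = none) {w : Bool}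
    {B₁ : Board (ℤ × ℤ)} {t : ℤ × ℤ} (h : (rot (gg Q)).Jump (Function.update A c (Mn w)) c B₁ t) :
    ¬ (rot (gg Q)).Halts stop (Function.update A c (Mn w)) c t := by
  rintro ⟨-, p, -, -, h1⟩
  obtain ⟨d, ⟨h2, h3, h4⟩, rfl, -⟩ := (jump_run hA hc hn).1 h
  obtain ⟨h8, -, -⟩ := hA.some_net h3 (near_net hc d).2.1
  rw [(near_net h8 d).2.2] at h1
  cases h1

/-- all the jumps in a position with a token -/
theorem jumps (hA : GA Q A) (hc : net (gg Q) c) (hn : A c = none) {w w0 : Bool} {s : ℤ × ℤ}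
    {B₁ : Board (ℤ × ℤ)} {t : ℤ × ℤ} (hs : Owns (Function.update A c (Mn w0)) w s)
    (hj : (rot (gg Q)).Jump (Function.update A c (Mn w0)) s B₁ t) :
    (s = c ∧ w0 = w) ∨ (w0 = (!w) ∧ ∃ e, cp Q w A c e ∧ s = (rot (gg Q)).nb c (e + 2) ∧
      t = (rot (gg Q)).nb c e ∧
      B₁ = Function.update (del A ((rot (gg Q)).nb c (e + 2))) t (Mn w)) := by
  obtain ⟨p', hp', hw⟩ := hs
  obtain ⟨p, q, d, h1, h2, h3, h4, h5, h6, h7, rfl⟩ := hj
  rw [h1] at hp'
  cases hp'
  have hZ : ZI (gg Q) (Function.update A c (Mn w0)) :=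
    hA.ZI.update (Or.inl (net_not_zone hc)) (Or.inr (net_ok hc))
  rcases zone_jump hZ h1 h2 h3 h5 h6 h7 with ⟨h8, h9, h10⟩ | ⟨h8, -⟩
  · by_cases hsc : s = c
    · subst hsc
      left
      rw [Function.update_self] at h1
      cases h1
      exact ⟨rfl, hw⟩
    · right
      rw [Function.update_of_ne hsc] at h1
      obtain ⟨g1, g2, g3⟩ := hA.some_net h1 h8
      rw [hw] at g3
      subst g3
      rw [can_man] at h2
      have htc : t ≠ c := by
        rintro rfl
        rw [Function.update_self] at h7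
        cases h7
      rw [Function.update_of_ne htc] at h7
      by_cases hm : (rot (gg Q)).nb s d = c
      · rw [hm, Function.update_self] at h3
        cases h3
        have hw0 : w0 = !w := by
          revert h4
          cases w0 <;> cases w <;> simp
        have hs' : s = (rot (gg Q)).nb c (d + 2) := by
          rw [← hm, nb_opp']
        rw [hm] at h5
        refine ⟨hw0, d, ⟨h2, by rw [← hs']; exact h1, by rw [← h5]; exact h7⟩, hs', h5, ?_⟩
        unfold del
        rw [← hs', hm]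
        have e1 : Function.update (Function.update (Function.update A c (Mn w0)) s none) c none =
            Function.update A s none := by
          rw [Function.update_comm hsc, upd_upd]
          exact hn
        rw [e1]
        congr 2
        unfold Geo.crown
        rw [h5, (near_net hc d).2.2]
        rfl
      · exfalso
        rw [Function.update_of_ne hm] at h3
        obtain ⟨g4, g5, g6⟩ := hA.some_net h3 h9
        have g7 : q = ⟨!w, false⟩ := by
          have h11 : q.white = !w := by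
            revert h4
            cases q.white <;> cases w <;> simp
          rw [g6, h11]
        rw [g7] at h3
        exact hA.static h2 h1 h3 h8 h9 (by rw [← h5]; exact h7)
  · exfalso
    rw [h8, Function.update_of_ne (fun h => net_not_zone hc (by rw [← h]; exact zone_kc 3))] at h3
    have := congrFun hA.kv 3
    unfold kv at this
    rw [h3] at this
    cases this

theorem jump_cp (hA : GA Q A) (hc : net (gg Q) c) (hn : A c = none) {w : Bool} {e : Fin 4}
    (he : cp Q w A c e) :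
    Owns (Function.update A c (Mn (!w))) w ((rot (gg Q)).nb c (e + 2)) ∧
    (rot (gg Q)).Jump (Function.update A c (Mn (!w))) ((rot (gg Q)).nb c (e + 2))
      (Function.update (del A ((rot (gg Q)).nb c (e + 2))) ((rot (gg Q)).nb c e) (Mn w))
      ((rot (gg Q)).nb c e) := by
  obtain ⟨h1, h2, h3⟩ := he
  have hs : Function.update A c (Mn (!w)) ((rot (gg Q)).nb c (e + 2)) = Mn w := by
    rw [Function.update_of_ne (nb_ne _ _ _), h2]
  refine ⟨⟨_, hs, rfl⟩, ⟨w, false⟩, ⟨!w, false⟩, e, hs, can_man.2 h1, ?_, ?_, ?_,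
    (near_net hc e).1, ?_, ?_⟩
  · rw [nb_opp, Function.update_self]
  · cases w <;> simp
  · rw [nb_opp]
  · rw [Function.update_of_ne (nb_ne _ _ _), h3]
  · rw [nb_opp]
    unfold del
    have e1 : Function.update (Function.update (Function.update A c (Mn (!w)))
        ((rot (gg Q)).nb c (e + 2)) none) c none =
        Function.update A ((rot (gg Q)).nb c (e + 2)) none := by
      rw [Function.update_comm (nb_ne _ _ _), upd_upd]
      exact hn
    rw [e1]
    congr 2
    unfold Geo.crown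
    rw [(near_net hc e).2.2]
    rfl

/-- black to move, white token -/
def LandO (Q : QF) (stop : Bool) (A : Board (ℤ × ℤ)) (c : ℤ × ℤ) : Prop :=
  (rot (gg Q)).Win stop true false (Function.update A c (Mn true))

/-- white to move, black token -/
def LandP (Q : QF) (stop : Bool) (A : Board (ℤ × ℤ)) (c : ℤ × ℤ) : Prop :=
  (rot (gg Q)).Win stop true true (Function.update A c (Mn false))

/-- white is moving the token -/
def RunP (Q : QF) (stop : Bool) (A : Board (ℤ × ℤ)) (c : ℤ × ℤ) : Prop :=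
  ∃ B', (rot (gg Q)).Cont stop (Function.update A c (Mn true)) c B' ∧
    (rot (gg Q)).Win stop true false B'

/-- black is moving the token -/
def RunO (Q : QF) (stop : Bool) (A : Board (ℤ × ℤ)) (c : ℤ × ℤ) : Prop :=
  ∀ B', (rot (gg Q)).Cont stop (Function.update A c (Mn false)) c B' →
    (rot (gg Q)).Win stop true true B'

theorem runP_iff (hA : GA Q A) (hc : net (gg Q) c) (hn : A c = none) : RunP Q stop A c ↔
    ((∀ d, ¬ ex Q true A c d) ∧ LandO Q stop A c) ∨
      ∃ d, ex Q true A c d ∧ RunP Q stop (del A ((rot (gg Q)).nb c d))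
        ((rot (gg Q)).nb ((rot (gg Q)).nb c d) d) := by
  have key : ∀ B', (rot (gg Q)).Cap stop (Function.update A c (Mn true)) c B' ↔ ∃ B₁ t,
      (rot (gg Q)).Jump (Function.update A c (Mn true)) c B₁ t ∧ (rot (gg Q)).Cont stop B₁ t B' :=
    fun B' => cap_iff fun _ _ h => no_halts hA hc hn h
  constructor
  · rintro ⟨B', ⟨rfl, h1⟩ | h1, h2⟩
    · left
      refine ⟨fun d hd => h1 ?_, h2⟩
      exact ⟨_, _, (jump_run hA hc hn).2 ⟨d, hd, rfl, rfl⟩⟩
    · right
      obtain ⟨B₁, t, h3, h4⟩ := (key B').1 h1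
      obtain ⟨d, hd, rfl, rfl⟩ := (jump_run hA hc hn).1 h3
      exact ⟨d, hd, B', h4, h2⟩
  · rintro (⟨h1, h2⟩ | ⟨d, hd, B', h3, h4⟩)
    · refine ⟨_, Or.inl ⟨rfl, ?_⟩, h2⟩
      rintro ⟨B'', u, h3⟩
      obtain ⟨d, hd, -⟩ := (jump_run hA hc hn).1 h3
      exact h1 d hd
    · exact ⟨B', Or.inr ((key B').2 ⟨_, _, (jump_run hA hc hn).2 ⟨d, hd, rfl, rfl⟩, h3⟩), h4⟩

theorem runO_iff (hA : GA Q A) (hc : net (gg Q) c) (hn : A c = none) : RunO Q stop A c ↔
    ((∀ d, ¬ ex Q false A c d) → LandP Q stop A c) ∧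
      ∀ d, ex Q false A c d → RunO Q stop (del A ((rot (gg Q)).nb c d))
        ((rot (gg Q)).nb ((rot (gg Q)).nb c d) d) := by
  have key : ∀ B', (rot (gg Q)).Cap stop (Function.update A c (Mn false)) c B' ↔ ∃ B₁ t,
      (rot (gg Q)).Jump (Function.update A c (Mn false)) c B₁ t ∧ (rot (gg Q)).Cont stop B₁ t B' :=
    fun B' => cap_iff fun _ _ h => no_halts hA hc hn h
  constructor
  · intro h
    constructor
    · intro h1
      refine h _ (Or.inl ⟨rfl, ?_⟩)
      rintro ⟨B'', u, h3⟩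
      obtain ⟨d, hd, -⟩ := (jump_run hA hc hn).1 h3
      exact h1 d hd
    · intro d hd B' h1
      exact h B' (Or.inr ((key B').2 ⟨_, _, (jump_run hA hc hn).2 ⟨d, hd, rfl, rfl⟩, h1⟩))
  · rintro ⟨h1, h2⟩ B' (⟨rfl, h3⟩ | h3)
    · refine h1 fun d hd => h3 ?_
      exact ⟨_, _, (jump_run hA hc hn).2 ⟨d, hd, rfl, rfl⟩⟩
    · obtain ⟨B₁, t, h4, h5⟩ := (key B').1 h3
      obtain ⟨d, hd, rfl, rfl⟩ := (jump_run hA hc hn).1 h4
      exact h2 d hd B' h5

/-- capture of the token, then the run -/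
theorem cap_land (hA : GA Q A) (hc : net (gg Q) c) (hn : A c = none) {w : Bool} {s : ℤ × ℤ}
    {B' : Board (ℤ × ℤ)} (hs : Owns (Function.update A c (Mn (!w))) w s) :
    (rot (gg Q)).Cap stop (Function.update A c (Mn (!w))) s B' ↔
      ∃ e, cp Q w A c e ∧ s = (rot (gg Q)).nb c (e + 2) ∧
        (rot (gg Q)).Cont stop (Function.update (del A ((rot (gg Q)).nb c (e + 2)))
          ((rot (gg Q)).nb c e) (Mn w)) ((rot (gg Q)).nb c e) B' := by
  have hww : ¬ ((!w) = w) := by cases w <;> simp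
  have key : (rot (gg Q)).Cap stop (Function.update A c (Mn (!w))) s B' ↔ ∃ B₁ t,
      (rot (gg Q)).Jump (Function.update A c (Mn (!w))) s B₁ t ∧ (rot (gg Q)).Cont stop B₁ t B' := by
    refine cap_iff fun B₁ t h => ?_
    rintro ⟨-, p, -, -, h1⟩
    rcases jumps hA hc hn hs h with ⟨-, h2⟩ | ⟨-, e, -, -, rfl, -⟩
    · exact hww h2
    · rw [(near_net hc e).2.2] at h1
      cases h1
  rw [key]
  constructor
  · rintro ⟨B₁, t, h1, h2⟩
    rcases jumps hA hc hn hs h1 with ⟨-, h3⟩ | ⟨-, e, h3, h4, rfl, rfl⟩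
    · exact absurd h3 hww
    · exact ⟨e, h3, h4, h2⟩
  · rintro ⟨e, h1, rfl, h2⟩
    exact ⟨_, _, (jump_cp hA hc hn h1).2, h2⟩

theorem landO_iff (hA : GA Q A) (hc : net (gg Q) c) (hn : A c = none) : LandO Q stop A c ↔
    (∃ e, cp Q false A c e) ∧ ∀ e, cp Q false A c e →
      RunO Q stop (del A ((rot (gg Q)).nb c (e + 2))) ((rot (gg Q)).nb c e) := by
  have hZ : ZI (gg Q) (Function.update A c (Mn true)) :=
    hA.ZI.update (Or.inl (net_not_zone hc)) (Or.inr (net_ok hc))
  by_cases h0 : ∃ e, cp Q false A c e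
  · have hcj : (rot (gg Q)).CanJump false (Function.update A c (Mn true)) := by
      obtain ⟨e, he⟩ := h0
      obtain ⟨h1, h2⟩ := jump_cp hA hc hn he
      exact ⟨_, _, _, h1, h2⟩
    unfold LandO
    have e0 : (rot (gg Q)).Win stop true false (Function.update A c (Mn true)) ↔
        (∃ B', (rot (gg Q)).Legal stop false (Function.update A c (Mn true)) B') ∧
          ∀ B', (rot (gg Q)).Legal stop false (Function.update A c (Mn true)) B' →
            (rot (gg Q)).Win stop true true B' := win_other (p := true)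
    rw [e0]
    constructor
    · rintro ⟨-, h1⟩
      refine ⟨h0, fun e he B' h2 => h1 B' (Or.inl ?_)⟩
      obtain ⟨h3, h4⟩ := jump_cp hA hc hn he
      exact ⟨_, h3, (cap_land hA hc hn (w := false) h3).2 ⟨e, he, rfl, h2⟩⟩
    · rintro ⟨-, h1⟩
      constructor
      · obtain ⟨s, B₁, t, h2, h3⟩ := hcj
        obtain ⟨B', h4⟩ := exists_cap (stop := stop) (ok_box (gg Q)) _ _ s le_rfl hZ.supp ⟨B₁, t, h3⟩
        exact ⟨B', Or.inl ⟨s, h2, h4⟩⟩
      · rintro B' (⟨s, h2, h3⟩ | ⟨h2, -⟩)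
        · obtain ⟨e, he, -, h5⟩ := (cap_land hA hc hn (w := false) h2).1 h3
          exact h1 e he B' h5
        · exact absurd hcj h2
  · constructor
    · intro h
      exfalso
      refine endO hZ (hA.KB.out (net_not_zone hc)) (by rw [kv_out (net_not_zone hc), hA.kv]) ?_ h
      rintro ⟨s, B₁, t, h2, h3⟩
      rcases jumps hA hc hn h2 h3 with ⟨-, h4⟩ | ⟨-, e, h4, -⟩
      · cases h4
      · exact h0 ⟨e, h4⟩
    · rintro ⟨h, -⟩
      exact absurd h h0

theorem landP_iff (hA : GA Q A) (hc : net (gg Q) c) (hn : A c = none)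
    (h0 : ∃ e, cp Q true A c e) : LandP Q stop A c ↔ ∃ e, cp Q true A c e ∧
      RunP Q stop (del A ((rot (gg Q)).nb c (e + 2))) ((rot (gg Q)).nb c e) := by
  have hcj : (rot (gg Q)).CanJump true (Function.update A c (Mn false)) := by
    obtain ⟨e, he⟩ := h0
    obtain ⟨h1, h2⟩ := jump_cp hA hc hn he
    exact ⟨_, _, _, h1, h2⟩
  unfold LandP
  rw [win_self]
  constructor
  · rintro (h1 | ⟨B', ⟨s, h2, h3⟩ | ⟨h2, -⟩, h4⟩)
    · exfalso
      apply h1
      have hZ : ZI (gg Q) (Function.update A c (Mn false)) :=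
        hA.ZI.update (Or.inl (net_not_zone hc)) (Or.inr (net_ok hc))
      obtain ⟨s, B₁, t, h2, h3⟩ := hcj
      obtain ⟨B', h4⟩ := exists_cap (stop := stop) (ok_box (gg Q)) _ _ s le_rfl hZ.supp ⟨B₁, t, h3⟩
      exact ⟨B', Or.inl ⟨s, h2, h4⟩⟩
    · obtain ⟨e, he, -, h5⟩ := (cap_land hA hc hn (w := true) h2).1 h3
      exact ⟨e, he, B', h5, h4⟩
    · exact absurd hcj h2
  · rintro ⟨e, he, B', h1, h2⟩
    obtain ⟨h3, h4⟩ := jump_cp hA hc hn he
    exact Or.inr ⟨B', Or.inl ⟨_, h3, (cap_land hA hc hn (w := true) h3).2 ⟨e, he, rfl, h1⟩⟩, h2⟩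

theorem landP_none (hA : GA Q A) (hc : net (gg Q) c) (hn : A c = none)
    (h0 : ∀ e, ¬ cp Q true A c e) (h1 : ∀ d, ¬ ex Q false A c d) : LandP Q stop A c := by
  have hZ : ZI (gg Q) (Function.update A c (Mn false)) :=
    hA.ZI.update (Or.inl (net_not_zone hc)) (Or.inr (net_ok hc))
  refine endP hZ (hA.KB.out (net_not_zone hc)) (by rw [kv_out (net_not_zone hc), hA.kv]) ?_ ?_ ?_
  · rintro ⟨s, B₁, t, h2, h3⟩
    rcases jumps hA hc hn h2 h3 with ⟨rfl, -⟩ | ⟨h4, -⟩
    · obtain ⟨d, hd, -⟩ := (jump_run hA hc hn).1 h3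
      exact h1 d hd
    · cases h4
  · rintro ⟨s, B₁, t, h2, h3⟩
    rcases jumps hA hc hn h2 h3 with ⟨-, h4⟩ | ⟨-, e, h4, -⟩
    · cases h4
    · exact h0 e h4
  · intro s hs
    by_cases hsc : s = c
    · rw [hsc, Function.update_self] at hs
      simp at hs
    · rw [Function.update_of_ne hsc] at hs
      exact hA.wk hs

end Pool.Agent.Helper314_MC
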