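import Pool.Agent.Helper314_MC.Eqs

/-!
# A verified evaluator for the forced phase inside a block
-/

set_option autoImplicit false
set_option linter.unusedSectionVars false

namespace Pool.Agent.Helper314_MC

open Pool.Agent.H656R2.AK (QF)

/-- neighbours in local coordinates -/
def nbz (q : ℤ × ℤ) (d : Fin 4) : ℤ × ℤ := (q.1 + dx d, q.2 + dy d)

/-- local coordinates -/
def locz (U V : ℕ) (q : ℤ × ℤ) : ℤ × ℤ := (36 * U + q.1 - 1, 36 * V + q.2 - 1)

theorem nb_locz (g U V : ℕ) (q : ℤ × ℤ) (d : Fin 4) :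
    (rot g).nb (locz U V q) d = locz U V (nbz q d) := by
  simp only [rot_nb, locz, nbz, Prod.mk.injEq]
  constructor <;> ring

theorem locz_inj {U V : ℕ} {q q' : ℤ × ℤ} (h : locz U V q = locz U V q') : q = q' := by
  simp only [locz, Prod.mk.injEq] at h
  refine Prod.ext ?_ ?_ <;> omega

theorem locz_loc (U V : ℕ) (q : ℕ × ℕ) : loc U V q = locz U V ((q.1 : ℤ), (q.2 : ℤ)) := rfl

/-- the squares of the block -/
def ownz (q : ℤ × ℤ) : Bool := decide (1 ≤ q.1) && (decide (q.1 ≤ 36) && (decide (1 ≤ q.2) && decide (q.2 ≤ 36)))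

theorem ownz_iff {q : ℤ × ℤ} : ownz q = true ↔ 1 ≤ q.1 ∧ q.1 ≤ 36 ∧ 1 ≤ q.2 ∧ q.2 ≤ 36 := by
  unfold ownz
  simp only [Bool.and_eq_true, decide_eq_true_eq]

theorem net_locz {g U V : ℕ} (hU : U < g) (hV : V < g) {q : ℤ × ℤ} (hq : ownz q = true) :
    net g (locz U V q) := by
  rw [ownz_iff] at hq
  unfold net locz
  simp only
  omega

/-- a local situation: the contents of the squares (`3` means unknown) and two flags -/
structure Ctx where
  v0 : ℤ × ℤ → ℕ
  chk : Bool
  r37 : Bool

/-- contents after removals -/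
def Ctx.v (K : Ctx) (rm : List (ℤ × ℤ)) (q : ℤ × ℤ) : ℕ := if q ∈ rm then 0 else K.v0 q

/-- the test for an exit: `0` no, `1` yes, `2` unknown -/
def tst (k a b : ℕ) : ℕ :=
  if a = k then (if b = 0 then 1 else if b = 1 ∨ b = 2 then 0 else 2)
  else if a = 0 ∨ a = 1 ∨ a = 2 then 0 else 2

/-- the test for a removal -/
def Ctx.rok (K : Ctx) (rm : List (ℤ × ℤ)) (r l : ℤ × ℤ) : Bool :=
  ownz r && ((ownz l || (K.r37 && decide (l = (37, 10)))) &&
    (!K.chk || (decide (r ≠ (24, 15)) && (decide (r ≠ (21, 15)) || decide (K.v rm (22, 15) = 0)))))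

/-- phases: white runs, white token landed, black runs, black token landed -/
inductive Ph | rp | lo | ro | lp

/-- the results -/
inductive Tr
  | tt | ff | bad
  | leaf (p : Bool) (c : ℤ × ℤ) (rm : List (ℤ × ℤ))
  | or (a b : Tr)
  | and (a b : Tr)
deriving DecidableEq

/-- exits of white runs -/
def stopsP : List (ℤ × ℤ) := [(36, 11), (36, 21), (3, 36), (37, 10)]
/-- exits of black runs -/
def stopsO : List (ℤ × ℤ) := [(7, 1), (1, 15)]

/-- combination of the two options -/
@[macro_inline]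
def comb (t0 t1 : ℕ) (e : Tr) (f : Tr → Tr → Tr) (g0 g1 : Tr) : Tr :=
  if t0 = 0 ∧ t1 = 0 then e
  else if t0 = 1 ∧ t1 = 0 then g0
  else if t0 = 0 ∧ t1 = 1 then g1
  else if t0 = 1 ∧ t1 = 1 then f g0 g1 else .bad

/-- the evaluator -/
def ev (K : Ctx) : ℕ → Ph → List (ℤ × ℤ) → ℤ × ℤ → Tr
  | 0, _, _, _ => .bad
  | n + 1, .rp, rm, c =>
    if c ∈ stopsP then .leaf true c rm
    else comb (tst 2 (K.v rm (nbz c 0)) (K.v rm (nbz (nbz c 0) 0)))
      (tst 2 (K.v rm (nbz c 1)) (K.v rm (nbz (nbz c 1) 1))) (ev K n .lo rm c) .or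
      (if K.rok rm (nbz c 0) (nbz (nbz c 0) 0) then ev K n .rp (nbz c 0 :: rm) (nbz (nbz c 0) 0) else .bad)
      (if K.rok rm (nbz c 1) (nbz (nbz c 1) 1) then ev K n .rp (nbz c 1 :: rm) (nbz (nbz c 1) 1) else .bad)
  | n + 1, .lo, rm, c =>
    comb (tst 2 (K.v rm (nbz c 0)) (K.v rm (nbz c 2)))
      (tst 2 (K.v rm (nbz c 1)) (K.v rm (nbz c 3))) .ff .and
      (if K.rok rm (nbz c 0) (nbz c 2) then ev K n .ro (nbz c 0 :: rm) (nbz c 2) else .bad)
      (if K.rok rm (nbz c 1) (nbz c 3) then ev K n .ro (nbz c 1 :: rm) (nbz c 3) else .bad)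
  | n + 1, .ro, rm, c =>
    if c ∈ stopsO then .leaf false c rm
    else comb (tst 1 (K.v rm (nbz c 2)) (K.v rm (nbz (nbz c 2) 2)))
      (tst 1 (K.v rm (nbz c 3)) (K.v rm (nbz (nbz c 3) 3))) (ev K n .lp rm c) .and
      (if K.rok rm (nbz c 2) (nbz (nbz c 2) 2) then ev K n .ro (nbz c 2 :: rm) (nbz (nbz c 2) 2) else .bad)
      (if K.rok rm (nbz c 3) (nbz (nbz c 3) 3) then ev K n .ro (nbz c 3 :: rm) (nbz (nbz c 3) 3) else .bad)
  | n + 1, .lp, rm, c =>
    comb (tst 1 (K.v rm (nbz c 2)) (K.v rm (nbz c 0)))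
      (tst 1 (K.v rm (nbz c 3)) (K.v rm (nbz c 1)))
      (if tst 1 (K.v rm (nbz c 2)) (K.v rm (nbz (nbz c 2) 2)) = 0 ∧
        tst 1 (K.v rm (nbz c 3)) (K.v rm (nbz (nbz c 3) 3)) = 0 then .tt else .bad) .or
      (if K.rok rm (nbz c 2) (nbz c 0) then ev K n .rp (nbz c 2 :: rm) (nbz c 0) else .bad)
      (if K.rok rm (nbz c 3) (nbz c 1) then ev K n .rp (nbz c 3 :: rm) (nbz c 1) else .bad)

/-- no failure of the evaluator -/
def Tr.good : Tr → Bool
  | .tt => true
  | .ff => true
  | .bad => false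
  | .leaf _ _ _ => true
  | .or a b => a.good && b.good
  | .and a b => a.good && b.good

/-- removal of a list of pieces -/
def dl (A : Board (ℤ × ℤ)) (U V : ℕ) : List (ℤ × ℤ) → Board (ℤ × ℤ)
  | [] => A
  | r :: rm => del (dl A U V rm) (locz U V r)

theorem dl_apply (A : Board (ℤ × ℤ)) (U V : ℕ) (rm : List (ℤ × ℤ)) (q : ℤ × ℤ) :
    dl A U V rm (locz U V q) = if q ∈ rm then none else A (locz U V q) := by
  induction rm with
  | nil => simp [dl]
  | cons r rm ih =>
    unfold dl del
    by_cases h : q = r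
    · subst h
      simp
    · rw [Function.update_of_ne (fun h' => h (locz_inj h')), ih]
      simp [h]

/-- squares outside are not changed -/
theorem dl_out (A : Board (ℤ × ℤ)) (U V : ℕ) (rm : List (ℤ × ℤ)) {s : ℤ × ℤ}
    (hs : ∀ q ∈ rm, s ≠ locz U V q) : dl A U V rm s = A s := by
  induction rm with
  | nil => rfl
  | cons r rm ih =>
    unfold dl del
    rw [Function.update_of_ne (hs r (by simp)), ih fun q hq => hs q (by simp [hq])]

/-- the meaning of a result -/
def sem (Q : QF) (stop : Bool) (A : Board (ℤ × ℤ)) (U V : ℕ) : Tr → Prop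
  | .tt => True
  | .ff => False
  | .bad => True
  | .leaf true c rm => RunP Q stop (dl A U V rm) (locz U V c)
  | .leaf false c rm => RunO Q stop (dl A U V rm) (locz U V c)
  | .or a b => sem Q stop A U V a ∨ sem Q stop A U V b
  | .and a b => sem Q stop A U V a ∧ sem Q stop A U V b

/-- the meaning of a phase -/
def Vs (Q : QF) (stop : Bool) : Ph → Board (ℤ × ℤ) → ℤ × ℤ → Prop
  | .rp, A, c => RunP Q stop A c
  | .lo, A, c => LandO Q stop A c
  | .ro, A, c => RunO Q stop A c
  | .lp, A, c => LandP Q stop A c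

variable {Q : QF} {stop : Bool} {A : Board (ℤ × ℤ)} {U V : ℕ}

theorem GA.del (hA : GA Q A) (hU : U < gg Q) (hV : V < gg Q) {r : ℤ × ℤ} (hr : ownz r = true)
    (h : bt Q U V = 3 ∨ bt Q U V = 4 → r ≠ (24, 15) ∧ (r = (21, 15) → A (locz U V (22, 15)) = none)) :
    GA Q (del A (locz U V r)) where
  sub s := by
    by_cases hs : s = locz U V r
    · right
      rw [hs]
      exact ⟨Function.update_self _ _ _, net_locz hU hV hr⟩
    · unfold Helper314_MC.del
      rw [Function.update_of_ne hs]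
      exact hA.sub s
  yy U' V' hU' hV' hb := by
    obtain ⟨h1, h2⟩ := hA.yy U' V' hU' hV' hb
    rw [ownz_iff] at hr
    unfold Helper314_MC.del
    have key : ∀ q : ℕ × ℕ, own q = true → loc U' V' q = locz U V r → U' = U ∧ V' = V ∧
        r = ((q.1 : ℤ), (q.2 : ℤ)) := by
      intro q hq h3
      rw [own_iff] at hq
      simp only [loc, locz, Prod.mk.injEq] at h3
      refine ⟨by omega, by omega, Prod.ext ?_ ?_⟩ <;> simp only <;> omega
    have k1 : loc U' V' (24, 15) ≠ locz U V r := by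
      intro h3
      obtain ⟨rfl, rfl, h4⟩ := key _ (by decide) h3
      exact (h hb).1 h4
    rw [Function.update_of_ne k1]
    refine ⟨h1, ?_⟩
    by_cases h5 : loc U' V' (22, 15) = locz U V r
    · left
      rw [h5, Function.update_self]
    · rw [Function.update_of_ne h5]
      by_cases h6 : loc U' V' (21, 15) = locz U V r
      · left
        obtain ⟨rfl, rfl, h4⟩ := key _ (by decide) h6
        exact (h hb).2 h4
      · rw [Function.update_of_ne h6]
        exact h2

theorem tst_one {k a b : ℕ} (h : tst k a b = 1) : a = k ∧ b = 0 := by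
  unfold tst at h
  split_ifs at h with h1 h2 <;> first | exact ⟨h1, h2⟩ | simp at h

theorem tst_zero {k a b : ℕ} (hk : k = 1 ∨ k = 2) (h : tst k a b = 0) : (a = 0 ∨ a = 1 ∨ a = 2) ∧
    (a = k → b = 1 ∨ b = 2) := by
  unfold tst at h
  split_ifs at h with h1 h2 h3 h4 <;> first | (simp at h; done) | skip
  · exact ⟨by omega, fun _ => h3⟩
  · exact ⟨h4, fun h5 => absurd h5 h1⟩

theorem exT {c : ℤ × ℤ} {P : Fin 4 → Prop} : (∃ d, ex Q true A c d ∧ P d) ↔
    (ex Q true A c 0 ∧ P 0) ∨ (ex Q true A c 1 ∧ P 1) := by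
  constructor
  · rintro ⟨d, h1, h2⟩
    have : d = 0 ∨ d = 1 := by
      rcases h1.1 with ⟨-, h⟩ | ⟨h, -⟩
      · omega
      · cases h
    rcases this with rfl | rfl
    · exact Or.inl ⟨h1, h2⟩
    · exact Or.inr ⟨h1, h2⟩
  · rintro (h | h)
    · exact ⟨0, h⟩
    · exact ⟨1, h⟩

theorem exF {c : ℤ × ℤ} {P : Fin 4 → Prop} : (∀ d, ex Q false A c d → P d) ↔
    (ex Q false A c 2 → P 2) ∧ (ex Q false A c 3 → P 3) := by
  constructor
  · intro h
    exact ⟨h 2, h 3⟩
  · rintro ⟨h2, h3⟩ d hd
    have : d = 2 ∨ d = 3 := by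
      rcases hd.1 with ⟨h, -⟩ | ⟨-, h⟩
      · cases h
      · omega
    rcases this with rfl | rfl
    · exact h2 hd
    · exact h3 hd

theorem cpT {c : ℤ × ℤ} {P : Fin 4 → Prop} : (∃ d, cp Q true A c d ∧ P d) ↔
    (cp Q true A c 0 ∧ P 0) ∨ (cp Q true A c 1 ∧ P 1) := by
  constructor
  · rintro ⟨d, h1, h2⟩
    have : d = 0 ∨ d = 1 := by
      rcases h1.1 with ⟨-, h⟩ | ⟨h, -⟩
      · omega
      · cases h
    rcases this with rfl | rfl
    · exact Or.inl ⟨h1, h2⟩
    · exact Or.inr ⟨h1, h2⟩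
  · rintro (h | h)
    · exact ⟨0, h⟩
    · exact ⟨1, h⟩

theorem cpF {c : ℤ × ℤ} {P : Fin 4 → Prop} : (∀ d, cp Q false A c d → P d) ↔
    (cp Q false A c 2 → P 2) ∧ (cp Q false A c 3 → P 3) := by
  constructor
  · intro h
    exact ⟨h 2, h 3⟩
  · rintro ⟨h2, h3⟩ d hd
    have : d = 2 ∨ d = 3 := by
      rcases hd.1 with ⟨h, -⟩ | ⟨-, h⟩
      · cases h
      · omega
    rcases this with rfl | rfl
    · exact h2 hd
    · exact h3 hd

theorem cpF' {c : ℤ × ℤ} : (∃ d, cp Q false A c d) ↔ cp Q false A c 2 ∨ cp Q false A c 3 := by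
  constructor
  · rintro ⟨d, hd⟩
    have : d = 2 ∨ d = 3 := by
      rcases hd.1 with ⟨h, -⟩ | ⟨-, h⟩
      · cases h
      · omega
    rcases this with rfl | rfl
    · exact Or.inl hd
    · exact Or.inr hd
  · rintro (h | h)
    · exact ⟨2, h⟩
    · exact ⟨3, h⟩

theorem dec_two_ne {a : ℕ} (h : a = 0 ∨ a = 1 ∨ a = 2) (h' : a ≠ 2) : dec a ≠ BM := by
  rcases h with rfl | rfl | rfl
  · decide
  · decide
  · exact absurd rfl h'

theorem dec_one_ne {a : ℕ} (h : a = 0 ∨ a = 1 ∨ a = 2) (h' : a ≠ 1) : dec a ≠ WM := by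
  rcases h with rfl | rfl | rfl
  · decide
  · exact absurd rfl h'
  · decide

theorem dec_ne_none {a : ℕ} (h : a = 1 ∨ a = 2) : dec a ≠ none := by
  rcases h with rfl | rfl <;> decide

/-- agreement of the board with the local situation -/
def Agr (K : Ctx) (A : Board (ℤ × ℤ)) (U V : ℕ) : Prop :=
  ∀ q, K.v0 q = 0 ∨ K.v0 q = 1 ∨ K.v0 q = 2 → A (locz U V q) = dec (K.v0 q)

theorem agr_v {K : Ctx} (hK : Agr K A U V) (rm : List (ℤ × ℤ)) (q : ℤ × ℤ)
    (h : K.v rm q = 0 ∨ K.v rm q = 1 ∨ K.v rm q = 2) : dl A U V rm (locz U V q) = dec (K.v rm q) := by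
  rw [dl_apply]
  unfold Ctx.v at h ⊢
  split_ifs at h ⊢ with h1
  · rfl
  · exact hK q h

theorem tst_pos {K : Ctx} (hK : Agr K A U V) {rm : List (ℤ × ℤ)} {k : ℕ} (hk : k = 1 ∨ k = 2)
    {q q' : ℤ × ℤ} (h : tst k (K.v rm q) (K.v rm q') = 1) :
    dl A U V rm (locz U V q) = dec k ∧ dl A U V rm (locz U V q') = none := by
  obtain ⟨h1, h2⟩ := tst_one h
  rw [agr_v hK rm q (by omega), agr_v hK rm q' (by omega), h1, h2]
  exact ⟨rfl, rfl⟩

theorem tst_neg {K : Ctx} (hK : Agr K A U V) {rm : List (ℤ × ℤ)} {k : ℕ} (hk : k = 1 ∨ k = 2)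
    {q q' : ℤ × ℤ} (h : tst k (K.v rm q) (K.v rm q') = 0) :
    ¬ (dl A U V rm (locz U V q) = dec k ∧ dl A U V rm (locz U V q') = none) := by
  obtain ⟨h1, h2⟩ := tst_zero hk h
  rintro ⟨h3, h4⟩
  rw [agr_v hK rm q h1] at h3
  have h5 : K.v rm q = k := by
    by_contra h5
    rcases hk with rfl | rfl
    · exact dec_one_ne h1 h5 h3
    · exact dec_two_ne h1 h5 h3
  have h6 := h2 h5
  rw [agr_v hK rm q' (by omega)] at h4
  exact dec_ne_none h6 h4

theorem comb_good {t0 t1 : ℕ} {e g0 g1 : Tr} {f : Tr → Tr → Tr}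
    (hf : ∀ a b, (f a b).good = (a.good && b.good)) (h : (comb t0 t1 e f g0 g1).good = true) :
    (t0 = 0 ∧ t1 = 0 ∧ comb t0 t1 e f g0 g1 = e ∧ e.good = true) ∨
    (t0 = 1 ∧ t1 = 0 ∧ comb t0 t1 e f g0 g1 = g0 ∧ g0.good = true) ∨
    (t0 = 0 ∧ t1 = 1 ∧ comb t0 t1 e f g0 g1 = g1 ∧ g1.good = true) ∨
    (t0 = 1 ∧ t1 = 1 ∧ comb t0 t1 e f g0 g1 = f g0 g1 ∧ g0.good = true ∧ g1.good = true) := by
  unfold comb at h ⊢
  split_ifs at h ⊢ with h1 h2 h3 h4
  · exact Or.inl ⟨h1.1, h1.2, rfl, h⟩
  · exact Or.inr (Or.inl ⟨h2.1, h2.2, rfl, h⟩)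
  · exact Or.inr (Or.inr (Or.inl ⟨h3.1, h3.2, rfl, h⟩))
  · rw [hf, Bool.and_eq_true] at h
    exact Or.inr (Or.inr (Or.inr ⟨h4.1, h4.2, rfl, h⟩))
  · cases h

theorem ite_good {b : Bool} {e : Tr} (h : (if b then e else Tr.bad).good = true) :
    b = true ∧ (if b then e else Tr.bad) = e ∧ e.good = true := by
  cases b
  · simp [Tr.good] at h
  · simpa using h

theorem ite_good' {p : Prop} [Decidable p] (h : (if p then Tr.tt else Tr.bad).good = true) : p := by
  by_contra h1
  rw [if_neg h1] at h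
  cases h

/-- soundness of the evaluator -/
theorem ev_sound {K : Ctx} (hK : Agr K A U V) (hU : U < gg Q) (hV : V < gg Q)
    (hchk : bt Q U V = 3 ∨ bt Q U V = 4 → K.chk = true) (h37 : K.r37 = true → U + 1 < gg Q)
    (n : ℕ) : ∀ (ph : Ph) (rm : List (ℤ × ℤ)) (c : ℤ × ℤ), GA Q (dl A U V rm) →
      net (gg Q) (locz U V c) → dl A U V rm (locz U V c) = none → (ev K n ph rm c).good = true →
      (Vs Q stop ph (dl A U V rm) (locz U V c) ↔ sem Q stop A U V (ev K n ph rm c)) := by
  induction n with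
  | zero => intro ph rm c _ _ _ h; cases h
  | succ n ih =>
    -- a removal
    have hrem : ∀ (rm : List (ℤ × ℤ)) (r l : ℤ × ℤ), GA Q (dl A U V rm) → K.rok rm r l = true →
        dl A U V rm (locz U V l) = none →
        GA Q (dl A U V (r :: rm)) ∧ net (gg Q) (locz U V l) ∧
          dl A U V (r :: rm) (locz U V l) = none := by
      intro rm r l h1 h2 h3
      unfold Ctx.rok at h2
      simp only [Bool.and_eq_true, Bool.or_eq_true, decide_eq_true_eq, Bool.not_eq_true'] at h2
      obtain ⟨h4, h5, h6⟩ := h2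
      refine ⟨h1.del hU hV h4 ?_, ?_, ?_⟩
      · intro hb
        have h7 := hchk hb
        rw [h7] at h6
        obtain ⟨h8, h9⟩ := h6.resolve_left (by simp)
        refine ⟨h8, fun h10 => ?_⟩
        have h11 := h9.resolve_left (fun h => h h10)
        rw [agr_v hK rm _ (Or.inl h11), h11]
        rfl
      · rcases h5 with h5 | ⟨h5, rfl⟩
        · exact net_locz hU hV h5
        · have := h37 h5
          unfold net locz
          simp only
          omega
      · rw [dl_apply] at h3 ⊢
        by_cases h7 : l ∈ rm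
        · simp [h7]
        · rw [if_neg h7] at h3
          by_cases h8 : l ∈ r :: rm
          · rw [if_pos h8]
          · rw [if_neg h8, h3]
    intro ph rm c hG hn hc hgood
    cases ph with
    | rp =>
      unfold ev at hgood ⊢
      by_cases hst : c ∈ stopsP
      · rw [if_pos hst]
        rfl
      · rw [if_neg hst] at hgood ⊢
        have e0 : ex Q true (dl A U V rm) (locz U V c) 0 ↔ (dl A U V rm (locz U V (nbz c 0)) = dec 2 ∧
            dl A U V rm (locz U V (nbz (nbz c 0) 0)) = none) := by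
          unfold ex
          rw [nb_locz, nb_locz]
          exact ⟨fun h => h.2, fun h => ⟨Or.inl ⟨rfl, by decide⟩, h⟩⟩
        have e1 : ex Q true (dl A U V rm) (locz U V c) 1 ↔ (dl A U V rm (locz U V (nbz c 1)) = dec 2 ∧
            dl A U V rm (locz U V (nbz (nbz c 1) 1)) = none) := by
          unfold ex
          rw [nb_locz, nb_locz]
          exact ⟨fun h => h.2, fun h => ⟨Or.inl ⟨rfl, by decide⟩, h⟩⟩
        have hE : (∀ d, ¬ ex Q true (dl A U V rm) (locz U V c) d) ↔
            ¬ ex Q true (dl A U V rm) (locz U V c) 0 ∧ ¬ ex Q true (dl A U V rm) (locz U V c) 1 := by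
          have := exT (Q := Q) (A := dl A U V rm) (c := locz U V c) (P := fun _ => True)
          simp only [and_true] at this
          rw [← not_exists, this, not_or]
        show RunP Q stop (dl A U V rm) (locz U V c) ↔ _
        rw [runP_iff hG hn hc, exT, hE, nb_locz, nb_locz, nb_locz, nb_locz]
        rcases comb_good (fun _ _ => rfl) hgood with ⟨h0, h1, h2, h3⟩ | ⟨h0, h1, h2, h3⟩ | ⟨h0, h1, h2, h3⟩ |
          ⟨h0, h1, h2, h3, h4⟩
        · rw [h2]
          have n0 := tst_neg hK (Or.inr rfl) h0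
          have n1 := tst_neg hK (Or.inr rfl) h1
          rw [← e0] at n0
          rw [← e1] at n1
          have := ih .lo rm c hG hn hc h3
          rw [← this]
          simp only [n0, n1, not_false_eq_true, and_self, true_and, false_and, or_self, or_false]
          rfl
        · rw [h2]
          have n0 := tst_pos hK (Or.inr rfl) h0
          have n1 := tst_neg hK (Or.inr rfl) h1
          rw [← e1] at n1
          obtain ⟨h5, h6, h7⟩ := ite_good h3
          rw [h6]
          obtain ⟨h8, h9, h10⟩ := hrem rm _ _ hG h5 n0.2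
          rw [← e0] at n0
          have := ih .rp _ _ h8 h9 h10 h7
          rw [← this]
          simp only [n0, n1, not_true_eq_false, false_and, true_and, or_false, false_or]
          rfl
        · rw [h2]
          have n0 := tst_neg hK (Or.inr rfl) h0
          have n1 := tst_pos hK (Or.inr rfl) h1
          rw [← e0] at n0
          obtain ⟨h5, h6, h7⟩ := ite_good h3
          rw [h6]
          obtain ⟨h8, h9, h10⟩ := hrem rm _ _ hG h5 n1.2
          rw [← e1] at n1
          have := ih .rp _ _ h8 h9 h10 h7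
          rw [← this]
          simp only [n0, n1, not_true_eq_false, and_false, false_and, true_and, false_or]
          rfl
        · rw [h2]
          have n0 := tst_pos hK (Or.inr rfl) h0
          have n1 := tst_pos hK (Or.inr rfl) h1
          obtain ⟨h5, h6, h7⟩ := ite_good h3
          obtain ⟨h5', h6', h7'⟩ := ite_good h4
          rw [h6, h6']
          obtain ⟨h8, h9, h10⟩ := hrem rm _ _ hG h5 n0.2
          obtain ⟨h8', h9', h10'⟩ := hrem rm _ _ hG h5' n1.2
          rw [← e0] at n0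
          rw [← e1] at n1
          have i0 := ih .rp _ _ h8 h9 h10 h7
          have i1 := ih .rp _ _ h8' h9' h10' h7'
          simp only [sem]
          rw [← i0, ← i1]
          simp only [n0, n1, not_true_eq_false, and_false, false_and, true_and, false_or]
          rfl
    | lo =>
      unfold ev at hgood ⊢
      have e0 : cp Q false (dl A U V rm) (locz U V c) 2 ↔ (dl A U V rm (locz U V (nbz c 0)) = dec 2 ∧
          dl A U V rm (locz U V (nbz c 2)) = none) := by
        unfold cp
        rw [nb_locz, nb_locz]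
        exact ⟨fun h => h.2, fun h => ⟨Or.inr ⟨rfl, by decide⟩, h⟩⟩
      have e1 : cp Q false (dl A U V rm) (locz U V c) 3 ↔ (dl A U V rm (locz U V (nbz c 1)) = dec 2 ∧
          dl A U V rm (locz U V (nbz c 3)) = none) := by
        unfold cp
        rw [nb_locz, nb_locz]
        exact ⟨fun h => h.2, fun h => ⟨Or.inr ⟨rfl, by decide⟩, h⟩⟩
      show LandO Q stop (dl A U V rm) (locz U V c) ↔ _
      rw [landO_iff hG hn hc, cpF, cpF', nb_locz, nb_locz, nb_locz, nb_locz]
      rw [show (2 : Fin 4) + 2 = 0 by decide, show (3 : Fin 4) + 2 = 1 by decide]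
      rcases comb_good (fun _ _ => rfl) hgood with ⟨h0, h1, h2, h3⟩ | ⟨h0, h1, h2, h3⟩ | ⟨h0, h1, h2, h3⟩ |
          ⟨h0, h1, h2, h3, h4⟩
      · rw [h2]
        have n0 := tst_neg hK (Or.inr rfl) h0
        have n1 := tst_neg hK (Or.inr rfl) h1
        rw [← e0] at n0
        rw [← e1] at n1
        simp [n0, n1, sem]
      · rw [h2]
        have n0 := tst_pos hK (Or.inr rfl) h0
        have n1 := tst_neg hK (Or.inr rfl) h1
        rw [← e1] at n1
        obtain ⟨h5, h6, h7⟩ := ite_good h3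
        rw [h6]
        obtain ⟨h8, h9, h10⟩ := hrem rm _ _ hG h5 n0.2
        rw [← e0] at n0
        have := ih .ro _ _ h8 h9 h10 h7
        rw [← this]
        simp only [n0, n1, true_or, true_and, forall_true_left, IsEmpty.forall_iff, and_true]
        rfl
      · rw [h2]
        have n0 := tst_neg hK (Or.inr rfl) h0
        have n1 := tst_pos hK (Or.inr rfl) h1
        rw [← e0] at n0
        obtain ⟨h5, h6, h7⟩ := ite_good h3
        rw [h6]
        obtain ⟨h8, h9, h10⟩ := hrem rm _ _ hG h5 n1.2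
        rw [← e1] at n1
        have := ih .ro _ _ h8 h9 h10 h7
        rw [← this]
        simp only [n0, n1, or_true, true_and, forall_true_left, IsEmpty.forall_iff]
        rfl
      · rw [h2]
        have n0 := tst_pos hK (Or.inr rfl) h0
        have n1 := tst_pos hK (Or.inr rfl) h1
        obtain ⟨h5, h6, h7⟩ := ite_good h3
        obtain ⟨h5', h6', h7'⟩ := ite_good h4
        rw [h6, h6']
        obtain ⟨h8, h9, h10⟩ := hrem rm _ _ hG h5 n0.2
        obtain ⟨h8', h9', h10'⟩ := hrem rm _ _ hG h5' n1.2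
        rw [← e0] at n0
        rw [← e1] at n1
        have i0 := ih .ro _ _ h8 h9 h10 h7
        have i1 := ih .ro _ _ h8' h9' h10' h7'
        simp only [sem]
        rw [← i0, ← i1]
        simp only [n0, n1, true_or, true_and, forall_true_left]
        rfl
    | ro =>
      unfold ev at hgood ⊢
      by_cases hst : c ∈ stopsO
      · rw [if_pos hst]
        rfl
      · rw [if_neg hst] at hgood ⊢
        have e0 : ex Q false (dl A U V rm) (locz U V c) 2 ↔ (dl A U V rm (locz U V (nbz c 2)) = dec 1 ∧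
            dl A U V rm (locz U V (nbz (nbz c 2) 2)) = none) := by
          unfold ex
          rw [nb_locz, nb_locz]
          exact ⟨fun h => h.2, fun h => ⟨Or.inr ⟨rfl, by decide⟩, h⟩⟩
        have e1 : ex Q false (dl A U V rm) (locz U V c) 3 ↔ (dl A U V rm (locz U V (nbz c 3)) = dec 1 ∧
            dl A U V rm (locz U V (nbz (nbz c 3) 3)) = none) := by
          unfold ex
          rw [nb_locz, nb_locz]
          exact ⟨fun h => h.2, fun h => ⟨Or.inr ⟨rfl, by decide⟩, h⟩⟩
        have hE : (∀ d, ¬ ex Q false (dl A U V rm) (locz U V c) d) ↔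
            ¬ ex Q false (dl A U V rm) (locz U V c) 2 ∧ ¬ ex Q false (dl A U V rm) (locz U V c) 3 :=
          exF (Q := Q) (A := dl A U V rm) (c := locz U V c) (P := fun _ => False)
        show RunO Q stop (dl A U V rm) (locz U V c) ↔ _
        rw [runO_iff hG hn hc, hE, exF, nb_locz, nb_locz, nb_locz, nb_locz]
        rcases comb_good (fun _ _ => rfl) hgood with ⟨h0, h1, h2, h3⟩ | ⟨h0, h1, h2, h3⟩ | ⟨h0, h1, h2, h3⟩ |
          ⟨h0, h1, h2, h3, h4⟩
        · rw [h2]
          have n0 := tst_neg hK (Or.inl rfl) h0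
          have n1 := tst_neg hK (Or.inl rfl) h1
          rw [← e0] at n0
          rw [← e1] at n1
          have := ih .lp rm c hG hn hc h3
          rw [← this]
          simp only [n0, n1, not_false_eq_true, and_self, forall_true_left, IsEmpty.forall_iff, and_true]
          rfl
        · rw [h2]
          have n0 := tst_pos hK (Or.inl rfl) h0
          have n1 := tst_neg hK (Or.inl rfl) h1
          rw [← e1] at n1
          obtain ⟨h5, h6, h7⟩ := ite_good h3
          rw [h6]
          obtain ⟨h8, h9, h10⟩ := hrem rm _ _ hG h5 n0.2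
          rw [← e0] at n0
          have := ih .ro _ _ h8 h9 h10 h7
          rw [← this]
          simp only [n0, n1, not_true_eq_false, false_and, IsEmpty.forall_iff, forall_true_left, true_and, and_true]
          rfl
        · rw [h2]
          have n0 := tst_neg hK (Or.inl rfl) h0
          have n1 := tst_pos hK (Or.inl rfl) h1
          rw [← e0] at n0
          obtain ⟨h5, h6, h7⟩ := ite_good h3
          rw [h6]
          obtain ⟨h8, h9, h10⟩ := hrem rm _ _ hG h5 n1.2
          rw [← e1] at n1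
          have := ih .ro _ _ h8 h9 h10 h7
          rw [← this]
          simp only [n0, n1, not_true_eq_false, and_false, IsEmpty.forall_iff, forall_true_left, true_and]
          rfl
        · rw [h2]
          have n0 := tst_pos hK (Or.inl rfl) h0
          have n1 := tst_pos hK (Or.inl rfl) h1
          obtain ⟨h5, h6, h7⟩ := ite_good h3
          obtain ⟨h5', h6', h7'⟩ := ite_good h4
          rw [h6, h6']
          obtain ⟨h8, h9, h10⟩ := hrem rm _ _ hG h5 n0.2
          obtain ⟨h8', h9', h10'⟩ := hrem rm _ _ hG h5' n1.2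
          rw [← e0] at n0
          rw [← e1] at n1
          have i0 := ih .ro _ _ h8 h9 h10 h7
          have i1 := ih .ro _ _ h8' h9' h10' h7'
          simp only [sem]
          rw [← i0, ← i1]
          simp only [n0, n1, not_true_eq_false, and_false, IsEmpty.forall_iff, forall_true_left, true_and]
          rfl
    | lp =>
      unfold ev at hgood ⊢
      have e0 : cp Q true (dl A U V rm) (locz U V c) 0 ↔ (dl A U V rm (locz U V (nbz c 2)) = dec 1 ∧
          dl A U V rm (locz U V (nbz c 0)) = none) := by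
        unfold cp
        rw [nb_locz, nb_locz]
        exact ⟨fun h => h.2, fun h => ⟨Or.inl ⟨rfl, by decide⟩, h⟩⟩
      have e1 : cp Q true (dl A U V rm) (locz U V c) 1 ↔ (dl A U V rm (locz U V (nbz c 3)) = dec 1 ∧
          dl A U V rm (locz U V (nbz c 1)) = none) := by
        unfold cp
        rw [nb_locz, nb_locz]
        exact ⟨fun h => h.2, fun h => ⟨Or.inl ⟨rfl, by decide⟩, h⟩⟩
      have e2 : ex Q false (dl A U V rm) (locz U V c) 2 ↔ (dl A U V rm (locz U V (nbz c 2)) = dec 1 ∧
          dl A U V rm (locz U V (nbz (nbz c 2) 2)) = none) := by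
        unfold ex
        rw [nb_locz, nb_locz]
        exact ⟨fun h => h.2, fun h => ⟨Or.inr ⟨rfl, by decide⟩, h⟩⟩
      have e3 : ex Q false (dl A U V rm) (locz U V c) 3 ↔ (dl A U V rm (locz U V (nbz c 3)) = dec 1 ∧
          dl A U V rm (locz U V (nbz (nbz c 3) 3)) = none) := by
        unfold ex
        rw [nb_locz, nb_locz]
        exact ⟨fun h => h.2, fun h => ⟨Or.inr ⟨rfl, by decide⟩, h⟩⟩
      show LandP Q stop (dl A U V rm) (locz U V c) ↔ _
      have hE : (∀ d, ¬ cp Q true (dl A U V rm) (locz U V c) d) ↔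
            ¬ cp Q true (dl A U V rm) (locz U V c) 0 ∧ ¬ cp Q true (dl A U V rm) (locz U V c) 1 := by
        have := cpT (Q := Q) (A := dl A U V rm) (c := locz U V c) (P := fun _ => True)
        simp only [and_true] at this
        rw [← not_exists, this, not_or]
      rcases comb_good (fun _ _ => rfl) hgood with ⟨h0, h1, h2, h3⟩ | ⟨h0, h1, h2, h3⟩ | ⟨h0, h1, h2, h3⟩ |
          ⟨h0, h1, h2, h3, h4⟩
      · rw [h2]
        have n0 := tst_neg hK (Or.inl rfl) h0
        have n1 := tst_neg hK (Or.inl rfl) h1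
        rw [← e0] at n0
        rw [← e1] at n1
        have h4 := ite_good' h3
        rw [if_pos h4]
        have n2 := tst_neg hK (Or.inl rfl) h4.1
        have n3 := tst_neg hK (Or.inl rfl) h4.2
        rw [← e2] at n2
        rw [← e3] at n3
        simp only [sem, iff_true]
        refine landP_none hG hn hc (hE.2 ⟨n0, n1⟩) ?_
        exact (exF (P := fun _ => False)).2 ⟨n2, n3⟩
      · rw [h2]
        have n0 := tst_pos hK (Or.inl rfl) h0
        have n1 := tst_neg hK (Or.inl rfl) h1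
        rw [← e1] at n1
        obtain ⟨h5, h6, h7⟩ := ite_good h3
        rw [h6]
        obtain ⟨h8, h9, h10⟩ := hrem rm _ _ hG h5 n0.2
        rw [← e0] at n0
        have := ih .rp _ _ h8 h9 h10 h7
        rw [← this, landP_iff hG hn hc ⟨_, n0⟩, cpT, nb_locz, nb_locz, nb_locz, nb_locz]
        rw [show (0 : Fin 4) + 2 = 2 by decide, show (1 : Fin 4) + 2 = 3 by decide]
        simp only [n0, n1, true_and, false_and, or_false]
        rfl
      · rw [h2]
        have n0 := tst_neg hK (Or.inl rfl) h0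
        have n1 := tst_pos hK (Or.inl rfl) h1
        rw [← e0] at n0
        obtain ⟨h5, h6, h7⟩ := ite_good h3
        rw [h6]
        obtain ⟨h8, h9, h10⟩ := hrem rm _ _ hG h5 n1.2
        rw [← e1] at n1
        have := ih .rp _ _ h8 h9 h10 h7
        rw [← this, landP_iff hG hn hc ⟨_, n1⟩, cpT, nb_locz, nb_locz, nb_locz, nb_locz]
        rw [show (0 : Fin 4) + 2 = 2 by decide, show (1 : Fin 4) + 2 = 3 by decide]
        simp only [n0, n1, true_and, false_and, false_or]
        rfl
      · rw [h2]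
        have n0 := tst_pos hK (Or.inl rfl) h0
        have n1 := tst_pos hK (Or.inl rfl) h1
        obtain ⟨h5, h6, h7⟩ := ite_good h3
        obtain ⟨h5', h6', h7'⟩ := ite_good h4
        rw [h6, h6']
        obtain ⟨h8, h9, h10⟩ := hrem rm _ _ hG h5 n0.2
        obtain ⟨h8', h9', h10'⟩ := hrem rm _ _ hG h5' n1.2
        rw [← e0] at n0
        rw [← e1] at n1
        have i0 := ih .rp _ _ h8 h9 h10 h7
        have i1 := ih .rp _ _ h8' h9' h10' h7'
        simp only [sem]
        rw [← i0, ← i1, landP_iff hG hn hc ⟨_, n1⟩, cpT, nb_locz, nb_locz, nb_locz, nb_locz]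
        rw [show (0 : Fin 4) + 2 = 2 by decide, show (1 : Fin 4) + 2 = 3 by decide]
        simp only [n0, n1, true_and]
        rfl

end Pool.Agent.Helper314_MC
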