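import Pool.Agent.Helper314_MC.Blocks

/-!
# The value of the initial position
-/

set_option autoImplicit false
set_option linter.unusedSectionVars false

namespace Pool.Agent.Helper314_MC

open Pool.Agent.H656R2.AK (QF QFwf evc)
open Pool.Agent.H623R2.PS (evq)

variable {Q : QF} {stop : Bool} {A : Board (ℤ × ℤ)} {U V : ℕ}

/-- the block is as in the initial position, except that `r0` has been removed -/
def St (Q : QF) (A : Board (ℤ × ℤ)) (U V : ℕ) (r0 : List (ℤ × ℤ)) : Prop :=
  ∀ q, ownz q = true → A (locz U V q) = if q ∈ r0 then none else Lf Q (locz U V q)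

theorem Lf_locz (hU : U < gg Q) (hV : V < gg Q) {q : ℤ × ℤ} (hq : ownz q = true) :
    Lf Q (locz U V q) = dec (pat (bt Q U V) (q.1.toNat, q.2.toNat)) := by
  have hq' := hq
  rw [ownz_iff] at hq
  have h : locz U V q = loc U V (q.1.toNat, q.2.toNat) := by
    unfold locz loc
    refine Prod.ext ?_ ?_ <;> simp only <;> omega
  rw [h, Lf_loc hU hV]
  rw [own_iff]
  simp only
  omega

theorem Lf_out {s : ℤ × ℤ} (h : ¬ net (gg Q) s) (h' : ¬ zone (gg Q) s) : Lf Q s = none := by
  unfold Lf
  rw [if_neg h, if_neg h']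

/-- next to the blocks -/
theorem ext_none (hU : U < gg Q) (hV : V < gg Q) : ∀ e ∈ ext, Lf Q (locz U V e) = none := by
  have low : ∀ e : ℤ × ℤ, e ∈ ext → ¬ zone (gg Q) (locz U V e) := by
    intro e he h
    have h1 := h.2
    simp only [ext, List.mem_cons, List.not_mem_nil, or_false] at he
    simp only [locz] at h1
    rcases he with rfl | rfl | rfl | rfl | rfl | rfl <;> simp at h1 <;> omega
  intro e he
  by_cases hn : net (gg Q) (locz U V e)
  · have h2 := he
    simp only [ext, List.mem_cons, List.not_mem_nil, or_false] at he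
    rcases he with rfl | rfl | rfl | rfl | rfl | rfl
    · have hU1 : 1 ≤ U := by unfold net locz at hn; simp only at hn; omega
      have e1 : locz U V (0, 12) = locz (U - 1) V (36, 12) := by
        unfold locz; refine Prod.ext ?_ ?_ <;> simp only <;> omega
      rw [e1, Lf_locz (by omega) hV (by decide)]
      have := (f_ext _ (bt_lt Q (U - 1) V)).1
      simp only [show ((36 : ℤ), (12 : ℤ)).1.toNat = 36 from rfl, show ((36 : ℤ), (12 : ℤ)).2.toNat = 12 from rfl, this]
      rfl
    · have hU1 : 1 ≤ U := by unfold net locz at hn; simp only at hn; omega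
      have e1 : locz U V (0, 22) = locz (U - 1) V (36, 22) := by
        unfold locz; refine Prod.ext ?_ ?_ <;> simp only <;> omega
      rw [e1, Lf_locz (by omega) hV (by decide)]
      have := (f_ext _ (bt_lt Q (U - 1) V)).2.1
      simp only [show ((36 : ℤ), (22 : ℤ)).1.toNat = 36 from rfl, show ((36 : ℤ), (22 : ℤ)).2.toNat = 22 from rfl, this]
      rfl
    · have hV1 : 1 ≤ V := by unfold net locz at hn; simp only at hn; omega
      have e1 : locz U V (4, 0) = locz U (V - 1) (4, 36) := by
        unfold locz; refine Prod.ext ?_ ?_ <;> simp only <;> omega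
      rw [e1, Lf_locz hU (by omega) (by decide)]
      have := (f_ext _ (bt_lt Q U (V - 1))).2.2.1
      simp only [show ((4 : ℤ), (36 : ℤ)).1.toNat = 4 from rfl, show ((4 : ℤ), (36 : ℤ)).2.toNat = 36 from rfl, this]
      rfl
    · have hV1 : V + 1 < gg Q := by unfold net locz at hn; simp only at hn; omega
      have e1 : locz U V (6, 37) = locz U (V + 1) (6, 1) := by
        unfold locz; refine Prod.ext ?_ ?_ <;> simp only <;> omega
      rw [e1, Lf_locz hU hV1 (by decide)]
      have := (f_ext _ (bt_lt Q U (V + 1))).2.2.2.1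
      simp only [show ((6 : ℤ), (1 : ℤ)).1.toNat = 6 from rfl, show ((6 : ℤ), (1 : ℤ)).2.toNat = 1 from rfl, this]
      rfl
    · have hU1 : U + 1 < gg Q := by unfold net locz at hn; simp only at hn; omega
      have e1 : locz U V (37, 14) = locz (U + 1) V (1, 14) := by
        unfold locz; refine Prod.ext ?_ ?_ <;> simp only <;> omega
      rw [e1, Lf_locz hU1 hV (by decide)]
      have := (f_ext _ (bt_lt Q (U + 1) V)).2.2.2.2.1
      simp only [show ((1 : ℤ), (14 : ℤ)).1.toNat = 1 from rfl, show ((1 : ℤ), (14 : ℤ)).2.toNat = 14 from rfl, this]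
      rfl
    · have hU1 : U + 1 < gg Q := by unfold net locz at hn; simp only at hn; omega
      have e1 : locz U V (37, 10) = locz (U + 1) V (1, 10) := by
        unfold locz; refine Prod.ext ?_ ?_ <;> simp only <;> omega
      rw [e1, Lf_locz hU1 hV (by decide)]
      have := (f_ext _ (bt_lt Q (U + 1) V)).2.2.2.2.2
      simp only [show ((1 : ℤ), (10 : ℤ)).1.toNat = 1 from rfl, show ((1 : ℤ), (10 : ℤ)).2.toNat = 10 from rfl, this]
      rfl
  · exact Lf_out hn (low e he)

theorem GA.none_of (hA : GA Q A) {s : ℤ × ℤ} (h : Helper314_MC.Lf Q s = none) : A s = none := by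
  rcases hA.sub s with h1 | ⟨h1, -⟩
  · rw [h1, h]
  · exact h1

theorem stuckP (hA : GA Q A) (hU : U < gg Q) (hV : V < gg Q) (hn : net (gg Q) (locz U V (3, 0)))
    (hc : A (locz U V (3, 0)) = none) (h : pat (bt Q U V) (3, 1) = 0) :
    ¬ RunP Q stop A (locz U V (3, 0)) := by
  have h0 : A (locz U V (4, 0)) = none := hA.none_of (ext_none hU hV _ (by decide))
  have h1 : A (locz U V (3, 1)) = none := by
    refine hA.none_of ?_
    rw [Lf_locz hU hV (by decide)]
    simp only [show ((3 : ℤ), (1 : ℤ)).1.toNat = 3 from rfl, show ((3 : ℤ), (1 : ℤ)).2.toNat = 1 from rfl, h]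
    rfl
  have e0 : (rot (gg Q)).nb (locz U V (3, 0)) 0 = locz U V (4, 0) := by
    simp [rot_nb, locz, dx, dy]; ring
  have e1 : (rot (gg Q)).nb (locz U V (3, 0)) 1 = locz U V (3, 1) := by
    simp [rot_nb, locz, dx, dy]
  rw [runP_iff hA hn hc, landO_iff hA hn hc]
  rintro (⟨-, ⟨e, he⟩, -⟩ | ⟨d, hd, -⟩)
  · obtain ⟨h2, h3, -⟩ := he
    rcases h2 with ⟨h2, -⟩ | ⟨-, h2⟩
    · cases h2
    · have h4 : e = 2 ∨ e = 3 := by omega
      rcases h4 with rfl | rfl
      · rw [show (2 : Fin 4) + 2 = 0 by decide, e0, h0] at h3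
        cases h3
      · rw [show (3 : Fin 4) + 2 = 1 by decide, e1, h1] at h3
        cases h3
  · obtain ⟨h2, h3, -⟩ := hd
    rcases h2 with ⟨-, h2⟩ | ⟨h2, -⟩
    · have h4 : d = 0 ∨ d = 1 := by omega
      rcases h4 with rfl | rfl
      · rw [e0, h0] at h3
        cases h3
      · rw [e1, h1] at h3
        cases h3
    · cases h2

theorem agr_ctx (hA : GA Q A) (hU : U < gg Q) (hV : V < gg Q) {r0 : List (ℤ × ℤ)}
    (h : St Q A U V r0) : Agr (ctx (bt Q U V) r0) A U V := by
  intro q hq
  simp only [ctx] at hq ⊢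
  by_cases h1 : ownz q = true
  · rw [if_pos h1] at hq ⊢
    rw [h q h1, Lf_locz hU hV h1]
    split_ifs
    · rfl
    · rfl
  · rw [if_neg h1] at hq ⊢
    by_cases h2 : q ∈ ext
    · rw [if_pos h2]
      rw [hA.none_of (ext_none hU hV q h2)]
      rfl
    · rw [if_neg h2] at hq
      exact absurd hq (by decide)

theorem use (hA : GA Q A) (hU : U < gg Q) (hV : V < gg Q) {r0 : List (ℤ × ℤ)}
    (h : St Q A U V r0) {t : ℕ} (ht : bt Q U V = t) (h37 : t = 1 ∨ t = 3 ∨ t = 4 → U + 1 < gg Q) {ph : Ph} {c : ℤ × ℤ}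
    (hn : net (gg Q) (locz U V c)) (hc : A (locz U V c) = none)
    (hg : (ev (ctx t r0) 60 ph [] c).good = true) :
    Vs Q stop ph A (locz U V c) ↔ sem Q stop A U V (ev (ctx t r0) 60 ph [] c) := by
  subst ht
  refine ev_sound (agr_ctx hA hU hV h) hU hV ?_ ?_ 60 ph [] c hA hn hc hg
  · intro hb
    simp only [ctx, decide_eq_true_eq]
    exact hb
  · intro hb
    simp only [ctx, decide_eq_true_eq] at hb
    exact h37 hb

theorem GA.dl (hA : GA Q A) (hU : U < gg Q) (hV : V < gg Q) {rm : List (ℤ × ℤ)}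
    (h : ∀ q ∈ rm, ownz q = true)
    (h' : bt Q U V = 3 ∨ bt Q U V = 4 → (24, 15) ∉ rm ∧ (21, 15) ∉ rm) :
    GA Q (dl A U V rm) := by
  induction rm with
  | nil => exact hA
  | cons r rm ih =>
    have h1 := ih (fun q hq => h q (by simp [hq])) (fun hb => ⟨fun h2 => (h' hb).1 (by simp [h2]),
      fun h2 => (h' hb).2 (by simp [h2])⟩)
    refine h1.del hU hV (h r (by simp)) fun hb => ⟨?_, ?_⟩
    · rintro rfl
      exact (h' hb).1 (by simp)
    · rintro rfl
      exact absurd (by simp) (h' hb).2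

theorem dl_other {rm : List (ℤ × ℤ)} (h : ∀ q ∈ rm, ownz q = true) {U' V' : ℕ}
    (hne : U' ≠ U ∨ V' ≠ V) {q : ℤ × ℤ} (hq : ownz q = true) :
    Helper314_MC.dl A U V rm (locz U' V' q) = A (locz U' V' q) := by
  refine dl_out _ _ _ _ fun r hr h1 => ?_
  have h2 := h r hr
  rw [ownz_iff] at h2 hq
  simp only [locz, Prod.mk.injEq] at h1
  omega

theorem St.other {r0 : List (ℤ × ℤ)} {U' V' : ℕ} (hS : St Q A U' V' r0) {rm : List (ℤ × ℤ)}
    (h : ∀ q ∈ rm, ownz q = true) (hne : U' ≠ U ∨ V' ≠ V) :
    St Q (Helper314_MC.dl A U V rm) U' V' r0 := by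
  intro q hq
  rw [dl_other h hne hq]
  exact hS q hq

theorem sh_leaf {T : Tr} {p : Bool} {c : ℤ × ℤ} (h : T.sh = .leaf p c) (h' : T.rok = true) :
    ∃ rm, T = .leaf p c rm ∧ ∀ q ∈ rm, ownz q = true := by
  cases T with
  | leaf p' c' rm =>
    simp only [Tr.sh, Sh.leaf.injEq] at h
    obtain ⟨rfl, rfl⟩ := h
    exact ⟨rm, rfl, by simpa [Tr.rok, List.all_eq_true] using h'⟩
  | _ => cases h

theorem sh_or {T : Tr} {a b : Sh} (h : T.sh = .or a b) (h' : T.rok = true) :
    ∃ x y, T = .or x y ∧ x.sh = a ∧ y.sh = b ∧ x.rok = true ∧ y.rok = true := by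
  cases T with
  | or x y =>
    simp only [Tr.sh, Sh.or.injEq] at h
    simp only [Tr.rok, Bool.and_eq_true] at h'
    exact ⟨x, y, rfl, h.1, h.2, h'.1, h'.2⟩
  | _ => cases h

theorem sh_and {T : Tr} {a b : Sh} (h : T.sh = .and a b) (h' : T.rok = true) :
    ∃ x y, T = .and x y ∧ x.sh = a ∧ y.sh = b ∧ x.rok = true ∧ y.rok = true := by
  cases T with
  | and x y =>
    simp only [Tr.sh, Sh.and.injEq] at h
    simp only [Tr.rok, Bool.and_eq_true] at h'
    exact ⟨x, y, rfl, h.1, h.2, h'.1, h'.2⟩
  | _ => cases h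

/-- the block is as in the initial position -/
abbrev Fr (Q : QF) (A : Board (ℤ × ℤ)) (U V : ℕ) : Prop := St Q A U V []

/-- a pass through a block with one exit, white -/
theorem use_leafP (hA : GA Q A) (hU : U < gg Q) (hV : V < gg Q) (h : Fr Q A U V) {t : ℕ}
    (ht : bt Q U V = t) (h34 : t ≠ 3 ∧ t ≠ 4) (h37 : t = 1 → U + 1 < gg Q)
    {ph : Ph} {c c' : ℤ × ℤ} (hf : fact t ph c (.leaf true c'))
    (hn : net (gg Q) (locz U V c)) (hc : A (locz U V c) = none) :
    ∃ rm, (∀ q ∈ rm, ownz q = true) ∧ GA Q (Helper314_MC.dl A U V rm) ∧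
      (Vs Q stop ph A (locz U V c) ↔ RunP Q stop (Helper314_MC.dl A U V rm) (locz U V c')) := by
  obtain ⟨rm, h1, h2⟩ := sh_leaf hf.1 hf.2
  refine ⟨rm, h2, hA.dl hU hV h2 (by rw [ht]; rintro (h | h); exacts [absurd h h34.1, absurd h h34.2]), ?_⟩
  rw [use hA hU hV h ht (by rintro (h | h | h); exacts [h37 h, absurd h h34.1, absurd h h34.2])
    hn hc (by rw [h1]; rfl), h1]
  rfl

/-- a pass through a block with one exit, black -/
theorem use_leafO (hA : GA Q A) (hU : U < gg Q) (hV : V < gg Q) (h : Fr Q A U V) {t : ℕ}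
    (ht : bt Q U V = t) (h34 : t ≠ 3 ∧ t ≠ 4) (h37 : t = 1 → U + 1 < gg Q)
    {ph : Ph} {c c' : ℤ × ℤ} (hf : fact t ph c (.leaf false c'))
    (hn : net (gg Q) (locz U V c)) (hc : A (locz U V c) = none) :
    ∃ rm, (∀ q ∈ rm, ownz q = true) ∧ GA Q (Helper314_MC.dl A U V rm) ∧
      (Vs Q stop ph A (locz U V c) ↔ RunO Q stop (Helper314_MC.dl A U V rm) (locz U V c')) := by
  obtain ⟨rm, h1, h2⟩ := sh_leaf hf.1 hf.2
  refine ⟨rm, h2, hA.dl hU hV h2 (by rw [ht]; rintro (h | h); exacts [absurd h h34.1, absurd h h34.2]), ?_⟩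
  rw [use hA hU hV h ht (by rintro (h | h | h); exacts [h37 h, absurd h h34.1, absurd h h34.2])
    hn hc (by rw [h1]; rfl), h1]
  rfl

theorem f_exit : ∀ t < 14, pat t (36, 11) = 0 ∧ pat t (36, 21) = 0 ∧ pat t (3, 36) = 0 ∧
    pat t (7, 1) = 0 ∧ pat t (1, 15) = 0 ∧ pat t (22, 10) = 0 := by decide +kernel

theorem exit_none (hA : GA Q A) (hU : U < gg Q) (hV : V < gg Q) {a b : ℕ} (h : own (a, b) = true)
    (hp : pat (bt Q U V) (a, b) = 0) : net (gg Q) (locz U V ((a : ℤ), (b : ℤ))) ∧
      A (locz U V ((a : ℤ), (b : ℤ))) = none := by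
  have h0 : ownz ((a : ℤ), (b : ℤ)) = true := by
    rw [own_iff] at h
    rw [ownz_iff]
    simp only at h ⊢
    omega
  refine ⟨net_locz hU hV h0, hA.none_of ?_⟩
  rw [Lf_locz hU hV h0]
  simp only [Int.toNat_natCast, hp]
  rfl

/-- entry of a block from the left along the first column -/
theorem s_c1 (hA : GA Q A) (hU : U < gg Q) (hV : V < gg Q) (h1 : 1 ≤ U) :
    net (gg Q) (locz U V (0, 11)) ∧ A (locz U V (0, 11)) = none := by
  have e : locz U V (0, 11) = locz (U - 1) V (((36 : ℕ) : ℤ), ((11 : ℕ) : ℤ)) := by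
    unfold locz; refine Prod.ext ?_ ?_ <;> simp <;> omega
  rw [e]
  exact exit_none hA (by omega) hV (by decide) (f_exit _ (bt_lt Q _ _)).1

theorem s_c2 (hA : GA Q A) (hU : U < gg Q) (hV : V < gg Q) (h1 : 1 ≤ U) :
    net (gg Q) (locz U V (0, 21)) ∧ A (locz U V (0, 21)) = none := by
  have e : locz U V (0, 21) = locz (U - 1) V (((36 : ℕ) : ℤ), ((21 : ℕ) : ℤ)) := by
    unfold locz; refine Prod.ext ?_ ?_ <;> simp <;> omega
  rw [e]
  exact exit_none hA (by omega) hV (by decide) (f_exit _ (bt_lt Q _ _)).2.1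

theorem s_r (hA : GA Q A) (hU : U < gg Q) (hV : V < gg Q) (h1 : 1 ≤ V) :
    net (gg Q) (locz U V (3, 0)) ∧ A (locz U V (3, 0)) = none := by
  have e : locz U V (3, 0) = locz U (V - 1) (((3 : ℕ) : ℤ), ((36 : ℕ) : ℤ)) := by
    unfold locz; refine Prod.ext ?_ ?_ <;> simp <;> omega
  rw [e]
  exact exit_none hA hU (by omega) (by decide) (f_exit _ (bt_lt Q _ _)).2.2.1

theorem s_od (hA : GA Q A) (hU : U < gg Q) (hV : V + 1 < gg Q) :
    net (gg Q) (locz U V (7, 37)) ∧ A (locz U V (7, 37)) = none := by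
  have e : locz U V (7, 37) = locz U (V + 1) (((7 : ℕ) : ℤ), ((1 : ℕ) : ℤ)) := by
    unfold locz; refine Prod.ext ?_ ?_ <;> simp <;> omega
  rw [e]
  exact exit_none hA hU hV (by decide) (f_exit _ (bt_lt Q _ _)).2.2.2.1

theorem s_ol (hA : GA Q A) (hU : U + 1 < gg Q) (hV : V < gg Q) :
    net (gg Q) (locz U V (37, 15)) ∧ A (locz U V (37, 15)) = none := by
  have e : locz U V (37, 15) = locz (U + 1) V (((1 : ℕ) : ℤ), ((15 : ℕ) : ℤ)) := by
    unfold locz; refine Prod.ext ?_ ?_ <;> simp <;> omega
  rw [e]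
  exact exit_none hA hU hV (by decide) (f_exit _ (bt_lt Q _ _)).2.2.2.2.1

theorem s_m (hA : GA Q A) (hU : U < gg Q) (hV : V < gg Q) :
    net (gg Q) (locz U V (1, 10)) ∧ A (locz U V (1, 10)) = none :=
  exit_none (a := 1) (b := 10) hA hU hV (by decide) (f_ext _ (bt_lt Q _ _)).2.2.2.2.2

/-- the value of a variable, as seen by the tests -/
theorem test_var (hA : GA Q A) (hU : U + 1 < gg Q) (hV : V < gg Q) (h1 : 1 ≤ U) {t : ℕ}
    (ht : bt Q U V = t) (h34 : t = 3 ∨ t = 4) {b : Bool} (hS : St Q A U V (rv t b)) :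
    (RunP Q stop A (locz U V (0, 11)) ↔ b = true) ∧
      (RunP Q stop A (locz U V (0, 21)) ↔ b = false) := by
  obtain ⟨g1, g2⟩ := s_c1 hA (by omega : U < gg Q) hV h1
  obtain ⟨g3, g4⟩ := s_c2 hA (by omega : U < gg Q) hV h1
  have e1 : ev (ctx t (rv t b)) 60 .rp [] (0, 11) = (if b then .tt else .ff) := by
    rcases h34 with rfl | rfl
    · exact (f_test3 b).1
    · exact (f_test4 b).1
  have e2 : ev (ctx t (rv t b)) 60 .rp [] (0, 21) = (if b then .ff else .tt) := by
    rcases h34 with rfl | rfl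
    · exact (f_test3 b).2
    · exact (f_test4 b).2
  have u1 := use (stop := stop) (ph := .rp) hA (by omega) hV hS ht (fun _ => hU) g1 g2
    (by rw [e1]; cases b <;> rfl)
  have u2 := use (stop := stop) (ph := .rp) hA (by omega) hV hS ht (fun _ => hU) g3 g4
    (by rw [e2]; cases b <;> rfl)
  rw [e1] at u1
  rw [e2] at u2
  cases b
  · exact ⟨u1.trans (by simp [sem]), u2.trans (by simp [sem])⟩
  · exact ⟨u1.trans (by simp [sem]), u2.trans (by simp [sem])⟩

/-! ### Block types -/

theorem bt_row {i : ℕ} (hi : i < Q.1.length) (U : ℕ) : bt Q U (Q.2.length + Q.1.length - i) =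
    if U = 0 then 0
    else if U ≤ Q.2.length then
      6 + (if (true, i) ∈ Q.2.getD (U - 1) [] then 1 else 0) +
        (if (false, i) ∈ Q.2.getD (U - 1) [] then 2 else 0)
    else if U ≤ Q.2.length + i then 5
    else if U = Q.2.length + 1 + i then
      (if Q.1.getD i false = true then 4 else 3)
    else if U = Q.2.length + 2 + i then 2 else 0 := by
  have e : Q.2.length + Q.1.length - (Q.2.length + Q.1.length - i) = i := by omega
  unfold bt
  rw [if_neg (by omega), if_pos (by omega), e]
  congr 1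
  congr 1
  by_cases h1 : U ≤ Q.2.length + i
  · rw [if_pos (by omega), if_pos h1]
  · rw [if_neg (by omega), if_neg h1]
    by_cases h2 : U = Q.2.length + 1 + i
    · rw [if_pos (by omega), if_pos h2]
    · rw [if_neg (by omega), if_neg h2]
      by_cases h3 : U = Q.2.length + 2 + i
      · rw [if_pos (by omega), if_pos h3]
      · rw [if_neg (by omega), if_neg h3]

/-- the type of the variable block -/
def vt (Q : QF) (i : ℕ) : ℕ := if Q.1.getD i false = true then 4 else 3

theorem vt_34 (Q : QF) (i : ℕ) : vt Q i = 3 ∨ vt Q i = 4 := by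
  unfold vt
  split_ifs <;> simp

theorem bt_var {i : ℕ} (hi : i < Q.1.length) :
    bt Q (Q.2.length + 1 + i) (Q.2.length + Q.1.length - i) = vt Q i := by
  rw [bt_row hi, if_neg (by omega), if_neg (by omega), if_neg (by omega), if_pos rfl]
  rfl

/-- runs along the columns -/
theorem column {i : ℕ} (hi : i < Q.1.length) {b : Bool} (k : ℕ) :
    ∀ (U : ℕ) (A : Board (ℤ × ℤ)), GA Q A → 1 ≤ U → U + k = Q.2.length + 1 + i →
    (∀ U', U ≤ U' → U' < Q.2.length + 1 + i → Fr Q A U' (Q.2.length + Q.1.length - i)) →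
    St Q A (Q.2.length + 1 + i) (Q.2.length + Q.1.length - i) (rv (vt Q i) b) →
    (RunP Q stop A (locz U (Q.2.length + Q.1.length - i) (0, 11)) ↔ b = true) ∧
      (RunP Q stop A (locz U (Q.2.length + Q.1.length - i) (0, 21)) ↔ b = false) := by
  induction k with
  | zero =>
    intro U A hA h1 h2 _ h4
    obtain rfl : U = Q.2.length + 1 + i := by omega
    exact test_var hA (by unfold gg; omega) (by unfold gg; omega) h1 (bt_var hi) (vt_34 Q i) h4
  | succ k ih =>
    intro U A hA h1 h2 h3 h4
    set W := Q.2.length + Q.1.length - i with hW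
    have hU : U < gg Q := by unfold gg; omega
    have hV : W < gg Q := by unfold gg; omega
    have hty : ∃ t, bt Q U W = t ∧ (t ≠ 3 ∧ t ≠ 4) ∧ t ≠ 1 ∧
        fact t .rp (0, 11) (.leaf true (36, 11)) ∧ fact t .rp (0, 21) (.leaf true (36, 21)) := by
      rw [bt_row hi, if_neg (by omega)]
      by_cases h5 : U ≤ Q.2.length
      · rw [if_pos h5]
        refine ⟨_, rfl, by split_ifs <;> simp, by split_ifs <;> simp, ?_⟩
        split_ifs
        · exact f_e 1 (by decide) 1 (by decide)
        · exact f_e 1 (by decide) 0 (by decide)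
        · exact f_e 0 (by decide) 1 (by decide)
        · exact f_e 0 (by decide) 0 (by decide)
      · rw [if_neg h5, if_pos (by omega)]
        exact ⟨5, rfl, by decide, by decide, f_hh⟩
    obtain ⟨t, ht, ht34, ht1, hf1, hf2⟩ := hty
    obtain ⟨g1, g2⟩ := s_c1 hA hU hV h1
    obtain ⟨g3, g4⟩ := s_c2 hA hU hV h1
    constructor
    · obtain ⟨rm, h5, h6, h7⟩ := use_leafP (stop := stop) (ph := .rp) hA hU hV (h3 U le_rfl (by omega)) ht ht34
        (fun h => absurd h ht1) hf1 g1 g2
      have e : locz U W (36, 11) = locz (U + 1) W (0, 11) := by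
        unfold locz; refine Prod.ext ?_ ?_ <;> simp only <;> push_cast <;> ring
      rw [e] at h7
      refine h7.trans (ih (U + 1) _ h6 (by omega) (by omega) ?_ ?_).1
      · intro U' h8 h9
        exact (h3 U' (by omega) h9).other h5 (Or.inl (by omega))
      · exact h4.other h5 (Or.inl (by omega))
    · obtain ⟨rm, h5, h6, h7⟩ := use_leafP (stop := stop) (ph := .rp) hA hU hV (h3 U le_rfl (by omega)) ht ht34
        (fun h => absurd h ht1) hf2 g3 g4
      have e : locz U W (36, 21) = locz (U + 1) W (0, 21) := by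
        unfold locz; refine Prod.ext ?_ ?_ <;> simp only <;> push_cast <;> ring
      rw [e] at h7
      refine h7.trans (ih (U + 1) _ h6 (by omega) (by omega) ?_ ?_).2
      · intro U' h8 h9
        exact (h3 U' (by omega) h9).other h5 (Or.inl (by omega))
      · exact h4.other h5 (Or.inl (by omega))

/-- the part of the position which is needed in the test phase -/
structure TS (Q : QF) (A : Board (ℤ × ℤ)) (b : ℕ → Bool) : Prop where
  ga : GA Q A
  fr : ∀ i, i < Q.1.length → ∀ U, U < Q.2.length + 1 + i → Fr Q A U (Q.2.length + Q.1.length - i)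
  st : ∀ i, i < Q.1.length →
    St Q A (Q.2.length + 1 + i) (Q.2.length + Q.1.length - i) (rv (vt Q i) (b i))

/-- a run along a row -/
theorem row {b : ℕ → Bool} {k : ℕ} (hk : k < Q.2.length) (j : ℕ) : ∀ (V : ℕ) (A : Board (ℤ × ℤ)),
    V + j = Q.2.length + Q.1.length + 1 → k + 1 < V → GA Q A →
    (∀ i, i < Q.1.length → ∀ U, k + 1 < U → U < Q.2.length + 1 + i →
      Fr Q A U (Q.2.length + Q.1.length - i)) →
    (∀ i, i < Q.1.length →
      St Q A (Q.2.length + 1 + i) (Q.2.length + Q.1.length - i) (rv (vt Q i) (b i))) →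
    (∀ V', V ≤ V' → V' ≤ Q.2.length + Q.1.length → Fr Q A (k + 1) V') →
    (RunP Q stop A (locz (k + 1) V (3, 0)) ↔
      ∃ i, i < Q.1.length ∧ i + V ≤ Q.2.length + Q.1.length ∧
        ∃ s, (s, i) ∈ Q.2.getD k [] ∧ b i = s) := by
  induction j with
  | zero =>
    intro V A h1 h2 hA _ _ h5
    have hV : V = Q.2.length + Q.1.length + 1 := by omega
    obtain ⟨g1, g2⟩ := s_r (V := V) (U := k + 1) hA (by unfold gg; omega) (by unfold gg; omega) (by omega)
    have hty : pat (bt Q (k + 1) V) (3, 1) = 0 := by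
      unfold bt
      rw [if_neg (by omega), if_neg (by omega), if_pos (by omega)]
      by_cases h6 : k + 1 = Q.2.length
      · rw [if_pos h6]; decide +kernel
      · rw [if_neg h6, if_neg (by omega)]; decide +kernel
    have hs := stuckP (stop := stop) hA (by unfold gg; omega) (by unfold gg; omega) g1 g2 hty
    refine ⟨fun h => absurd h hs, ?_⟩
    rintro ⟨i, h6, h7, -⟩
    omega
  | succ j ih =>
    intro V A h1 h2 hA h3 h4 h5
    obtain ⟨g1, g2⟩ := s_r (V := V) (U := k + 1) hA (by unfold gg; omega) (by unfold gg; omega) (by omega)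
    have hU : k + 1 < gg Q := by unfold gg; omega
    have hV : V < gg Q := by unfold gg; omega
    have e : locz (k + 1) V (3, 36) = locz (k + 1) (V + 1) (3, 0) := by
      unfold locz; refine Prod.ext ?_ ?_ <;> simp only <;> push_cast <;> ring
    have next : ∀ rm : List (ℤ × ℤ), (∀ q ∈ rm, ownz q = true) → GA Q (Helper314_MC.dl A (k + 1) V rm) →
        (RunP Q stop (Helper314_MC.dl A (k + 1) V rm) (locz (k + 1) V (3, 36)) ↔
          ∃ i, i < Q.1.length ∧ i + (V + 1) ≤ Q.2.length + Q.1.length ∧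
            ∃ s, (s, i) ∈ Q.2.getD k [] ∧ b i = s) := by
      intro rm hrm hG
      rw [e]
      refine ih (V + 1) _ (by omega) (by omega) hG ?_ ?_ ?_
      · intro i hi U' h6 h7
        exact (h3 i hi U' h6 h7).other hrm (Or.inl (by omega))
      · intro i hi
        exact (h4 i hi).other hrm (Or.inl (by omega))
      · intro V' h6 h7
        exact (h5 V' (by omega) h7).other hrm (Or.inr (by omega))
    by_cases hVm : V ≤ Q.2.length
    · have ht : bt Q (k + 1) V = 10 := by
        unfold bt
        rw [if_pos hVm, if_neg (by omega), if_pos (by omega), if_neg (by omega), if_neg (by omega),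
          if_pos (by omega)]
      obtain ⟨rm, h6, h7, h8⟩ := use_leafP (stop := stop) (ph := .rp) hA hU hV (h5 V le_rfl (by omega)) ht
        (by decide) (fun h => absurd h (by decide)) f_v g1 g2
      refine h8.trans ((next rm h6 h7).trans ?_)
      constructor
      · rintro ⟨i, h9, h10, h11⟩
        exact ⟨i, h9, by omega, h11⟩
      · rintro ⟨i, h9, h10, h11⟩
        exact ⟨i, h9, by omega, h11⟩
    · obtain ⟨i, hi, rfl⟩ : ∃ i, i < Q.1.length ∧ V = Q.2.length + Q.1.length - i :=
        ⟨Q.2.length + Q.1.length - V, by omega, by omega⟩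
      have col : ∀ rm : List (ℤ × ℤ), (∀ q ∈ rm, ownz q = true) →
          GA Q (Helper314_MC.dl A (k + 1) (Q.2.length + Q.1.length - i) rm) →
          (RunP Q stop (Helper314_MC.dl A (k + 1) (Q.2.length + Q.1.length - i) rm)
            (locz (k + 1) (Q.2.length + Q.1.length - i) (36, 11)) ↔ b i = true) ∧
          (RunP Q stop (Helper314_MC.dl A (k + 1) (Q.2.length + Q.1.length - i) rm)
            (locz (k + 1) (Q.2.length + Q.1.length - i) (36, 21)) ↔ b i = false) := by
        intro rm hrm hG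
        have e1 : locz (k + 1) (Q.2.length + Q.1.length - i) (36, 11) =
            locz (k + 2) (Q.2.length + Q.1.length - i) (0, 11) := by
          unfold locz; refine Prod.ext ?_ ?_ <;> simp only <;> push_cast <;> ring
        have e2 : locz (k + 1) (Q.2.length + Q.1.length - i) (36, 21) =
            locz (k + 2) (Q.2.length + Q.1.length - i) (0, 21) := by
          unfold locz; refine Prod.ext ?_ ?_ <;> simp only <;> push_cast <;> ring
        rw [e1, e2]
        refine column hi (Q.2.length + 1 + i - (k + 2)) (k + 2) _ hG (by omega) (by omega) ?_ ?_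
        · intro U' h6 h7
          exact (h3 i hi U' (by omega) h7).other hrm (Or.inl (by omega))
        · exact (h4 i hi).other hrm (Or.inl (by omega))
      have hb := bt_row hi (k + 1)
      rw [if_neg (by omega), if_pos (by omega), Nat.add_sub_cancel] at hb
      have hF := h5 _ le_rfl (by omega)
      have gax : ∀ (T : Tr), ∀ rm : List (ℤ × ℤ), (∀ q ∈ rm, ownz q = true) →
          GA Q (Helper314_MC.dl A (k + 1) (Q.2.length + Q.1.length - i) rm) := by
        intro _ rm hrm
        refine hA.dl hU hV hrm ?_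
        rw [hb]
        split_ifs <;> simp
      -- the four kinds of entry blocks
      have fin : ∀ P : Prop, (P ↔ (((true, i) ∈ Q.2.getD k [] ∧ b i = true) ∨
          ((false, i) ∈ Q.2.getD k [] ∧ b i = false) ∨
          ∃ i', i' < Q.1.length ∧ i' + (Q.2.length + Q.1.length - i + 1) ≤ Q.2.length + Q.1.length ∧
            ∃ s, (s, i') ∈ Q.2.getD k [] ∧ b i' = s)) →
          (P ↔ ∃ i', i' < Q.1.length ∧ i' + (Q.2.length + Q.1.length - i) ≤ Q.2.length + Q.1.length ∧
            ∃ s, (s, i') ∈ Q.2.getD k [] ∧ b i' = s) := by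
        intro P hP
        rw [hP]
        constructor
        · rintro (h | h | ⟨i', h6, h7, h8⟩)
          · exact ⟨i, hi, by omega, true, h⟩
          · exact ⟨i, hi, by omega, false, h⟩
          · exact ⟨i', h6, by omega, h8⟩
        · rintro ⟨i', h6, h7, s, h8, h9⟩
          by_cases h10 : i' = i
          · subst h10
            cases s
            · exact Or.inr (Or.inl ⟨h8, h9⟩)
            · exact Or.inl ⟨h8, h9⟩
          · exact Or.inr (Or.inr ⟨i', h6, by omega, s, h8, h9⟩)
      apply fin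
      by_cases ht : (true, i) ∈ Q.2.getD k []
      · by_cases hf : (false, i) ∈ Q.2.getD k []
        · rw [if_pos ht, if_pos hf] at hb
          obtain ⟨x, y, h6, h7, h8, h9, h10⟩ := sh_or f_row3.1 f_row3.2
          obtain ⟨x', y', rfl, h11, h12, h13, h14⟩ := sh_or h8 h10
          obtain ⟨r1, rfl, h15⟩ := sh_leaf h7 h9
          obtain ⟨r2, rfl, h16⟩ := sh_leaf h11 h13
          obtain ⟨r3, rfl, h17⟩ := sh_leaf h12 h14
          refine (use (stop := stop) (ph := .rp) hA hU hV hF hb (by rintro (h | h | h) <;> cases h) g1 g2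
            (by rw [h6]; rfl)).trans ?_
          rw [h6]
          simp only [sem]
          rw [(col r1 h15 (gax .tt r1 h15)).1, (col r2 h16 (gax .tt r2 h16)).2, next r3 h17 (gax .tt r3 h17)]
          simp only [ht, hf, true_and]
        · rw [if_pos ht, if_neg hf] at hb
          obtain ⟨x, y, h6, h7, h8, h9, h10⟩ := sh_or f_row1.1 f_row1.2
          obtain ⟨r1, rfl, h15⟩ := sh_leaf h7 h9
          obtain ⟨r3, rfl, h17⟩ := sh_leaf h8 h10
          refine (use (stop := stop) (ph := .rp) hA hU hV hF hb (by rintro (h | h | h) <;> cases h) g1 g2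
            (by rw [h6]; rfl)).trans ?_
          rw [h6]
          simp only [sem]
          rw [(col r1 h15 (gax .tt r1 h15)).1, next r3 h17 (gax .tt r3 h17)]
          simp only [ht, hf, true_and, false_and, false_or]
      · by_cases hf : (false, i) ∈ Q.2.getD k []
        · rw [if_neg ht, if_pos hf] at hb
          obtain ⟨x, y, h6, h7, h8, h9, h10⟩ := sh_or f_row2.1 f_row2.2
          obtain ⟨r1, rfl, h15⟩ := sh_leaf h7 h9
          obtain ⟨r3, rfl, h17⟩ := sh_leaf h8 h10
          refine (use (stop := stop) (ph := .rp) hA hU hV hF hb (by rintro (h | h | h) <;> cases h) g1 g2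
            (by rw [h6]; rfl)).trans ?_
          rw [h6]
          simp only [sem]
          rw [(col r1 h15 (gax .tt r1 h15)).2, next r3 h17 (gax .tt r3 h17)]
          simp only [ht, hf, true_and, false_and, false_or]
        · rw [if_neg ht, if_neg hf] at hb
          obtain ⟨rm, h6, h7, h8⟩ := use_leafP (stop := stop) (ph := .rp) hA hU hV hF hb
            (by decide) (fun h => absurd h (by decide)) f_row0 g1 g2
          refine h8.trans ((next rm h6 h7).trans ?_)
          simp only [ht, hf, false_and, false_or]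

/-- the truth of a clause -/
def ct (Q : QF) (b : ℕ → Bool) (k : ℕ) : Prop :=
  ∃ i, i < Q.1.length ∧ ∃ s, (s, i) ∈ Q.2.getD k [] ∧ b i = s

/-- the choice of a clause -/
theorem select {b : ℕ → Bool} (k : ℕ) : ∀ (A : Board (ℤ × ℤ)), k < Q.2.length → TS Q A b →
    (∀ U V, U ≤ k + 1 → V ≤ Q.2.length → Fr Q A U V) →
    (RunO Q stop A (locz (k + 1) (k + 1) (37, 15)) ↔ ∀ k' ≤ k, ct Q b k') := by
  have main : ∀ (k : ℕ) (A : Board (ℤ × ℤ)) (P : Prop), k < Q.2.length → TS Q A b →
      (∀ U V, U ≤ k + 1 → V ≤ Q.2.length → Fr Q A U V) →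
      (∀ A', TS Q A' b → (∀ U V, U ≤ k → V ≤ Q.2.length → Fr Q A' U V) →
        (RunO Q stop A' (locz k k (37, 15)) ↔ P)) →
      (RunO Q stop A (locz (k + 1) (k + 1) (37, 15)) ↔ ct Q b k ∧ P) := by
    intro k A P hk hT hF hP
    have hU : k + 1 < gg Q := by unfold gg; omega
    obtain ⟨g1, g2⟩ := s_ol (U := k + 1) (V := k + 1) hT.ga (by unfold gg; omega) hU
    have hb : bt Q (k + 1) (k + 1) = 11 := by
      unfold bt
      rw [if_pos (by omega), if_neg (by omega), if_pos (by omega), if_pos rfl]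
    obtain ⟨x, y, h6, h7, h8, h9, h10⟩ := sh_and f_sel.1 f_sel.2
    obtain ⟨r1, rfl, h15⟩ := sh_leaf h7 h9
    obtain ⟨r2, rfl, h17⟩ := sh_leaf h8 h10
    have gax : ∀ rm : List (ℤ × ℤ), (∀ q ∈ rm, ownz q = true) →
        GA Q (Helper314_MC.dl A (k + 1) (k + 1) rm) := by
      intro rm hrm
      exact hT.ga.dl hU hU hrm (by rw [hb]; rintro (h | h) <;> cases h)
    refine (use (stop := stop) (ph := .ro) hT.ga hU hU (hF (k + 1) (k + 1) le_rfl (by omega)) hb
      (by rintro (h | h | h) <;> cases h) g1 g2 (by rw [h6]; rfl)).trans ?_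
    rw [h6]
    simp only [sem]
    refine and_congr ?_ ?_
    · have e : locz (k + 1) (k + 1) (3, 36) = locz (k + 1) (k + 2) (3, 0) := by
        unfold locz; refine Prod.ext ?_ ?_ <;> simp only <;> push_cast <;> ring
      rw [e]
      refine (row (b := b) hk (Q.2.length + Q.1.length + 1 - (k + 2)) (k + 2) _ (by omega) (by omega)
        (gax r1 h15) ?_ ?_ ?_).trans ?_
      · intro i hi U' h11 h12
        exact (hT.fr i hi U' h12).other h15 (Or.inl (by omega))
      · intro i hi
        exact (hT.st i hi).other h15 (Or.inl (by omega))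
      · intro V' h11 h12
        refine St.other (r0 := []) ?_ h15 (Or.inr (by omega))
        by_cases h13 : V' ≤ Q.2.length
        · exact hF _ _ le_rfl h13
        · have := hT.fr (Q.2.length + Q.1.length - V') (by omega) (k + 1) (by omega)
          rwa [show Q.2.length + Q.1.length - (Q.2.length + Q.1.length - V') = V' by omega] at this
      · unfold ct
        constructor
        · rintro ⟨i, h11, -, h12⟩
          exact ⟨i, h11, h12⟩
        · rintro ⟨i, h11, h12⟩
          exact ⟨i, h11, by omega, h12⟩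
    · have e : locz (k + 1) (k + 1) (7, 1) = locz (k + 1) k (7, 37) := by
        unfold locz; refine Prod.ext ?_ ?_ <;> simp only <;> push_cast <;> ring
      rw [e]
      have hG := gax r2 h17
      obtain ⟨g3, g4⟩ := s_od (U := k + 1) (V := k) hG hU hU
      have hb2 : bt Q (k + 1) k = 12 := by
        unfold bt
        rw [if_pos (by omega), if_neg (by omega), if_pos (by omega), if_neg (by omega), if_pos rfl]
      obtain ⟨r3, h18, h19, h20⟩ := use_leafO (stop := stop) (ph := .ro) hG hU (by unfold gg; omega)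
        ((hF (k + 1) k le_rfl (by omega)).other h17 (Or.inr (by omega))) hb2 (by decide)
        (fun h => absurd h (by decide)) f_oc g3 g4
      refine h20.trans ?_
      have e2 : locz (k + 1) k (1, 15) = locz k k (37, 15) := by
        unfold locz; refine Prod.ext ?_ ?_ <;> simp only <;> push_cast <;> ring
      rw [e2]
      refine hP _ ⟨h19, ?_, ?_⟩ ?_
      · intro i hi U' h12
        exact ((hT.fr i hi U' h12).other h17 (Or.inr (by omega))).other h18 (Or.inr (by omega))
      · intro i hi
        exact ((hT.st i hi).other h17 (Or.inl (by omega))).other h18 (Or.inl (by omega))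
      · intro U' V' h12 h13
        exact ((hF U' V' (by omega) h13).other h17 (Or.inl (by omega))).other h18 (Or.inl (by omega))
  induction k with
  | zero =>
    intro A hk hT hF
    rw [main 0 A True hk hT hF]
    · constructor
      · rintro ⟨h, -⟩ k' hk'
        obtain rfl : k' = 0 := by omega
        exact h
      · intro h
        exact ⟨h 0 le_rfl, trivial⟩
    · intro A' hT' hF'
      obtain ⟨g1, g2⟩ := s_ol (U := 0) (V := 0) hT'.ga (by unfold gg; omega) (by unfold gg; omega)
      have hb : bt Q 0 0 = 0 := by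
        unfold bt
        rw [if_pos (by omega), if_pos rfl]
      have hf : (ev (ctx 0 []) 60 .ro [] (37, 15)) = .tt := by
        have h8 := f_end.1
        revert h8
        cases ev (ctx 0 []) 60 .ro [] (37, 15) <;> intro h8 <;> first | rfl | cases h8
      refine (use (stop := stop) (ph := .ro) hT'.ga (by unfold gg; omega) (by unfold gg; omega)
        (hF' 0 0 le_rfl (by omega)) hb (by rintro (h | h | h) <;> cases h) g1 g2 (by rw [hf]; rfl)).trans ?_
      rw [hf]
      rfl
  | succ k ih =>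
    intro A hk hT hF
    rw [main (k + 1) A (∀ k' ≤ k, ct Q b k') hk hT hF]
    · constructor
      · rintro ⟨h1, h2⟩ k' hk'
        by_cases h3 : k' = k + 1
        · rw [h3]; exact h1
        · exact h2 k' (by omega)
      · intro h
        exact ⟨h _ le_rfl, fun k' hk' => h k' (by omega)⟩
    · intro A' hT' hF'
      exact ih A' (by omega) hT' hF'

end Pool.Agent.Helper314_MC
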