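import Pool.Agent.Helper314_MC.Main

/-!
# The value of the initial position: the main chain
-/

set_option autoImplicit false
set_option linter.unusedSectionVars false
set_option linter.unnecessarySeqFocus false

namespace Pool.Agent.Helper314_MC

open Pool.Agent.H656R2.AK (QF QFwf evc)
open Pool.Agent.H623R2.PS (evq)

variable {Q : QF} {stop : Bool} {A : Board (ℤ × ℤ)} {U V : ℕ}

/-- the last part of the way to the choice of a clause -/
theorem tail {b : ℕ → Bool} (j : ℕ) : ∀ (A : Board (ℤ × ℤ)), j ≤ Q.1.length → TS Q A b →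
    (∀ U V, U ≤ Q.2.length + j → V ≤ Q.2.length → Fr Q A U V) →
    (RunO Q stop A (locz (Q.2.length + j) Q.2.length (37, 15)) ↔ ∀ k < Q.2.length, ct Q b k) := by
  induction j with
  | zero =>
    intro A _ hT hF
    rw [Nat.add_zero]
    rcases Nat.eq_zero_or_pos Q.2.length with hm | hm
    · rw [hm]
      have hU : 0 < gg Q := by unfold gg; omega
      obtain ⟨g1, g2⟩ := s_ol (U := 0) (V := 0) hT.ga (by unfold gg; omega) hU
      have hb : bt Q 0 0 = 0 := by
        unfold bt
        rw [if_pos (by omega), if_pos rfl]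
      have hf : (ev (ctx 0 []) 60 .ro [] (37, 15)) = .tt := by
        have h8 := f_end.1
        revert h8
        cases ev (ctx 0 []) 60 .ro [] (37, 15) <;> intro h8 <;> first | rfl | cases h8
      refine (use (stop := stop) (ph := .ro) hT.ga hU hU
        (hF 0 0 (by omega) (by omega)) hb (by rintro (h | h | h) <;> cases h) g1 g2 (by rw [hf]; rfl)).trans ?_
      rw [hf]
      simp only [sem, true_iff]
      intro k hk
      omega
    · obtain ⟨k, hk⟩ : ∃ k, Q.2.length = k + 1 := ⟨Q.2.length - 1, by omega⟩
      have := select (stop := stop) (b := b) k A (by omega) hT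
        (fun U V h1 h2 => hF U V (by omega) h2)
      rw [hk]
      rw [this]
      constructor
      · intro h k' h'
        exact h k' (by omega)
      · intro h k' h'
        exact h k' (by omega)
  | succ j ih =>
    intro A hj hT hF
    have hU : Q.2.length + (j + 1) < gg Q := by unfold gg; omega
    have hV : Q.2.length < gg Q := by unfold gg; omega
    obtain ⟨g1, g2⟩ := s_ol (U := Q.2.length + (j + 1)) (V := Q.2.length) hT.ga
      (by unfold gg; omega) hV
    have hb : bt Q (Q.2.length + (j + 1)) Q.2.length = 13 := by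
      unfold bt
      rw [if_pos le_rfl, if_neg (by omega), if_neg (by omega), if_pos rfl, if_pos (by omega)]
    obtain ⟨rm, h1, h2, h3⟩ := use_leafO (stop := stop) (ph := .ro) hT.ga hU hV
      (hF _ _ le_rfl le_rfl) hb (by decide) (fun h => absurd h (by decide)) f_oh g1 g2
    refine h3.trans ?_
    have e : locz (Q.2.length + (j + 1)) Q.2.length (1, 15) =
        locz (Q.2.length + j) Q.2.length (37, 15) := by
      unfold locz; refine Prod.ext ?_ ?_ <;> simp only <;> push_cast <;> ring
    rw [e]
    refine ih _ (by omega) ⟨h2, ?_, ?_⟩ ?_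
    · intro i hi U' h4
      exact (hT.fr i hi U' h4).other h1 (Or.inr (by omega))
    · intro i hi
      exact (hT.st i hi).other h1 (Or.inr (by omega))
    · intro U' V' h4 h5
      exact (hF U' V' (by omega) h5).other h1 (Or.inl (by omega))

/-- the situation during the choice of the values of the variables -/
structure Inv (Q : QF) (A : Board (ℤ × ℤ)) (i : ℕ) (b : ℕ → Bool) : Prop where
  ga : GA Q A
  fr : ∀ U V, (V + i ≤ Q.2.length + Q.1.length ∨ U + V ≤ 2 * Q.2.length + Q.1.length) → Fr Q A U V
  st : ∀ j, j < i →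
    St Q A (Q.2.length + 1 + j) (Q.2.length + Q.1.length - j) (rv (vt Q j) (b j))

theorem ct_evc (hQ : QFwf Q) (u : List Bool) :
    (∀ k < Q.2.length, ct Q (fun j => u.getD j false) k) ↔ evc u Q.2 = true := by
  unfold evc
  rw [List.all_eq_true]
  have key : ∀ c ∈ Q.2, ((∃ i, i < Q.1.length ∧ ∃ s, (s, i) ∈ c ∧ u.getD i false = s) ↔
      (c.any fun l => u.getD l.2 false == l.1) = true) := by
    intro c hc
    rw [List.any_eq_true]
    constructor
    · rintro ⟨i, h1, s, h2, h3⟩
      exact ⟨(s, i), h2, by simp only [h3, beq_self_eq_true]⟩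
    · rintro ⟨⟨s, i⟩, h1, h2⟩
      exact ⟨i, hQ c hc _ h1, s, h1, by simpa using h2⟩
  constructor
  · intro h c hc
    obtain ⟨k, hk, rfl⟩ := List.mem_iff_getElem.1 hc
    have := h k hk
    unfold ct at this
    rw [List.getD_eq_getElem _ _ hk] at this
    exact (key _ hc).1 this
  · intro h k hk
    unfold ct
    rw [List.getD_eq_getElem _ _ hk]
    exact (key _ (List.getElem_mem hk)).2 (h _ (List.getElem_mem hk))

theorem getD_snoc_lt {ch : List Bool} {v : Bool} {j : ℕ} (h : j < ch.length) :
    (ch ++ [v]).getD j false = ch.getD j false := by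
  rw [List.getD_append _ _ _ _ h]

theorem getD_snoc_eq {ch : List Bool} {v : Bool} :
    (ch ++ [v]).getD ch.length false = v := by
  rw [List.getD_append_right _ _ _ _ le_rfl, Nat.sub_self]
  rfl

/-- after a variable block -/
theorem after_var {i : ℕ} (hi : i < Q.1.length) {ch : List Bool} (hch : ch.length = i)
    (hI : Inv Q A i (fun j => ch.getD j false)) (v : Bool) {P : Prop}
    (hP : ∀ A', Inv Q A' (i + 1) (fun j => (ch ++ [v]).getD j false) →
      (RunO Q stop A' (locz (Q.2.length + 1 + (i + 1)) (Q.2.length + Q.1.length - (i + 1)) (7, 37)) ↔ P)) :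
    RunP Q stop (dl A (Q.2.length + 1 + i) (Q.2.length + Q.1.length - i) (rv (vt Q i) v))
      (locz (Q.2.length + 1 + i) (Q.2.length + Q.1.length - i) (37, 10)) ↔ P := by
  have hU : Q.2.length + 1 + i < gg Q := by unfold gg; omega
  have hV : Q.2.length + Q.1.length - i < gg Q := by unfold gg; omega
  have hr : ∀ q ∈ rv (vt Q i) v, ownz q = true := by
    have h1 : (rv (vt Q i) v).all ownz = true := by
      rcases vt_34 Q i with h | h <;> rw [h]
      · exact (f_rv v).1
      · exact (f_rv v).2
    exact List.all_eq_true.1 h1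
  have hr2 : (24, 15) ∉ rv (vt Q i) v ∧ (21, 15) ∉ rv (vt Q i) v := by
    rcases vt_34 Q i with h | h <;> rw [h] <;> cases v <;> decide +kernel
  have hG : GA Q (dl A (Q.2.length + 1 + i) (Q.2.length + Q.1.length - i) (rv (vt Q i) v)) :=
    hI.ga.dl hU hV hr (fun _ => hr2)
  have e1 : locz (Q.2.length + 1 + i) (Q.2.length + Q.1.length - i) (37, 10) =
      locz (Q.2.length + 1 + (i + 1)) (Q.2.length + Q.1.length - i) (1, 10) := by
    unfold locz; refine Prod.ext ?_ ?_ <;> simp only <;> push_cast <;> ring
  have hU' : Q.2.length + 1 + (i + 1) < gg Q := by unfold gg; omega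
  have hb : bt Q (Q.2.length + 1 + (i + 1)) (Q.2.length + Q.1.length - i) = 2 := by
    rw [bt_row hi, if_neg (by omega), if_neg (by omega), if_neg (by omega), if_neg (by omega),
      if_pos (by omega)]
  obtain ⟨g1, g2⟩ := s_m (U := Q.2.length + 1 + (i + 1)) (V := Q.2.length + Q.1.length - i) hG hU' hV
  have hF : Fr Q (dl A (Q.2.length + 1 + i) (Q.2.length + Q.1.length - i) (rv (vt Q i) v))
      (Q.2.length + 1 + (i + 1)) (Q.2.length + Q.1.length - i) :=
    (hI.fr _ _ (Or.inl (by omega))).other hr (Or.inl (by omega))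
  obtain ⟨rm, h1, h2, h3⟩ := use_leafO (stop := stop) (ph := .rp) hG hU' hV hF hb (by decide)
    (fun h => absurd h (by decide)) f_corner g1 g2
  rw [e1]
  refine h3.trans ?_
  have e2 : locz (Q.2.length + 1 + (i + 1)) (Q.2.length + Q.1.length - i) (7, 1) =
      locz (Q.2.length + 1 + (i + 1)) (Q.2.length + Q.1.length - (i + 1)) (7, 37) := by
    unfold locz; refine Prod.ext ?_ ?_ <;> simp only <;> omega
  rw [e2]
  refine hP _ ⟨h2, ?_, ?_⟩
  · intro U' V' h4
    refine St.other (r0 := []) (St.other (r0 := []) (hI.fr U' V' (by omega)) hr ?_) h1 ?_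
    · omega
    · omega
  · intro j hj
    by_cases hji : j = i
    · subst hji
      refine St.other ?_ h1 (Or.inl (by omega))
      rw [show (ch ++ [v]).getD j false = v from by rw [← hch]; exact getD_snoc_eq]
      intro q hq
      have hF2 := hI.fr (Q.2.length + 1 + j) (Q.2.length + Q.1.length - j) (Or.inl (by omega)) q hq
      simp only [List.not_mem_nil, if_false] at hF2
      rw [dl_apply]
      rw [hF2]
    · have := hI.st j (by omega)
      rw [show (ch ++ [v]).getD j false = ch.getD j false from getD_snoc_lt (by omega)]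
      exact (this.other hr (Or.inl (by omega))).other h1 (Or.inl (by omega))

/-- the main induction -/
theorem chain (hQ : QFwf Q) (k : ℕ) : ∀ (i : ℕ) (A : Board (ℤ × ℤ)) (ch : List Bool),
    i + k = Q.1.length → ch.length = i → Inv Q A i (fun j => ch.getD j false) →
    (RunO Q stop A (locz (Q.2.length + 1 + i) (Q.2.length + Q.1.length - i) (7, 37)) ↔
      evq (Q.1.drop i) (fun u => evc (ch ++ u) Q.2) = true) := by
  induction k with
  | zero =>
    intro i A ch hi hch hI
    obtain rfl : i = Q.1.length := by omega
    rw [List.drop_length]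
    have e0 : evq [] (fun u => evc (ch ++ u) Q.2) = evc ch Q.2 := by
      show evc (ch ++ []) Q.2 = _
      rw [List.append_nil]
    rw [e0, ← ct_evc hQ]
    have hU : Q.2.length + 1 + Q.1.length < gg Q := by unfold gg; omega
    have hV : Q.2.length < gg Q := by unfold gg; omega
    rw [Nat.add_sub_cancel]
    obtain ⟨g1, g2⟩ := s_od (U := Q.2.length + 1 + Q.1.length) (V := Q.2.length) hI.ga hU
      (by unfold gg; omega)
    have hb : bt Q (Q.2.length + 1 + Q.1.length) Q.2.length = 12 := by
      unfold bt
      rw [if_pos le_rfl, if_neg (by omega), if_neg (by omega), if_pos rfl, if_neg (by omega),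
        if_pos (by omega)]
    obtain ⟨rm, h1, h2, h3⟩ := use_leafO (stop := stop) (ph := .ro) hI.ga hU hV
      (hI.fr _ _ (Or.inl (by omega))) hb (by decide) (fun h => absurd h (by decide)) f_oc g1 g2
    refine h3.trans ?_
    have e : locz (Q.2.length + 1 + Q.1.length) Q.2.length (1, 15) =
        locz (Q.2.length + Q.1.length) Q.2.length (37, 15) := by
      unfold locz; refine Prod.ext ?_ ?_ <;> simp only <;> push_cast <;> ring
    rw [e]
    refine tail Q.1.length _ le_rfl ⟨h2, ?_, ?_⟩ ?_
    · intro i hi' U' h4
      exact St.other (r0 := []) (hI.fr _ _ (Or.inr (by omega))) h1 (Or.inr (by omega))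
    · intro i hi'
      exact (hI.st i hi').other h1 (Or.inl (by omega))
    · intro U' V' h4 h5
      exact St.other (r0 := []) (hI.fr U' V' (Or.inl (by omega))) h1 (Or.inl (by omega))
  | succ k ih =>
    intro i A ch hi hch hI
    have hi' : i < Q.1.length := by omega
    have hU : Q.2.length + 1 + i < gg Q := by unfold gg; omega
    have hV : Q.2.length + Q.1.length - i < gg Q := by unfold gg; omega
    obtain ⟨g1, g2⟩ := s_od (U := Q.2.length + 1 + i) (V := Q.2.length + Q.1.length - i) hI.ga hU
      (by unfold gg; omega)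
    have hF : Fr Q A (Q.2.length + 1 + i) (Q.2.length + Q.1.length - i) :=
      hI.fr _ _ (Or.inl (by omega))
    have next : ∀ v : Bool,
        (RunP Q stop (dl A (Q.2.length + 1 + i) (Q.2.length + Q.1.length - i) (rv (vt Q i) v))
          (locz (Q.2.length + 1 + i) (Q.2.length + Q.1.length - i) (37, 10)) ↔
        evq (Q.1.drop (i + 1)) (fun u => evc (ch ++ (v :: u)) Q.2) = true) := by
      intro v
      refine after_var hi' hch hI v fun A' hI' => ?_
      rw [ih (i + 1) A' (ch ++ [v]) (by omega) (by simp [hch]) hI']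
      simp only [List.append_assoc, List.singleton_append]
    have hd : Q.1.drop i = Q.1.getD i false :: Q.1.drop (i + 1) := by
      rw [List.getD_eq_getElem _ _ hi']
      exact List.drop_eq_getElem_cons hi'
    rw [hd]
    have hb := bt_var hi'
    by_cases hq : Q.1.getD i false = true
    · have hv : vt Q i = 4 := by unfold vt; rw [if_pos hq]
      rw [hv] at hb next
      have e1 := f_var4
      refine (use (stop := stop) (ph := .ro) hI.ga hU hV hF hb
        (fun _ => by unfold gg; omega) g1 g2 (by rw [e1]; rfl)).trans ?_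
      rw [e1]
      simp only [sem]
      rw [next true, next false, hq]
      simp only [evq, cond_true, Bool.and_eq_true]
      tauto
    · have hq' : Q.1.getD i false = false := by simpa using hq
      have hv : vt Q i = 3 := by unfold vt; rw [if_neg hq]
      rw [hv] at hb next
      have e1 := f_var3
      refine (use (stop := stop) (ph := .ro) hI.ga hU hV hF hb
        (fun _ => by unfold gg; omega) g1 g2 (by rw [e1]; rfl)).trans ?_
      rw [e1]
      simp only [sem]
      rw [next true, next false, hq']
      simp only [evq, cond_false, Bool.or_eq_true]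
      tauto

/-- the value of the initial position -/
theorem start (hQ : QFwf Q) :
    LandP Q stop (Lf Q) (locz Q.2.length (Q.2.length + Q.1.length + 1) (22, 10)) ↔
      evq Q.1 (fun u => evc u Q.2) = true := by
  have hU : Q.2.length < gg Q := by unfold gg; omega
  have hV : Q.2.length + Q.1.length + 1 < gg Q := by unfold gg; omega
  have hb : bt Q Q.2.length (Q.2.length + Q.1.length + 1) = 1 := by
    unfold bt
    rw [if_neg (by omega), if_neg (by omega), if_pos rfl, if_pos rfl]
  have hG := GA.Lf Q
  have hF : ∀ U V, Fr Q (Lf Q) U V := by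
    intro U V q hq
    rw [if_neg (by simp)]
  obtain ⟨g1, g2⟩ := exit_none (U := Q.2.length) (V := Q.2.length + Q.1.length + 1) (a := 22) (b := 10)
    hG hU hV (by decide) (by rw [hb]; decide +kernel)
  obtain ⟨rm, h1, h2, h3⟩ := use_leafP (stop := stop) (ph := .lp) hG hU hV (hF _ _) hb (by decide)
    (fun _ => by unfold gg; omega) f_start g1 g2
  refine h3.trans ?_
  have e : locz Q.2.length (Q.2.length + Q.1.length + 1) (37, 10) =
      locz (Q.2.length + 1) (Q.2.length + Q.1.length + 1) (1, 10) := by
    unfold locz; refine Prod.ext ?_ ?_ <;> simp only <;> push_cast <;> ring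
  rw [e]
  have hU' : Q.2.length + 1 < gg Q := by unfold gg; omega
  have hb' : bt Q (Q.2.length + 1) (Q.2.length + Q.1.length + 1) = 2 := by
    unfold bt
    rw [if_neg (by omega), if_neg (by omega), if_pos rfl, if_neg (by omega), if_pos rfl]
  obtain ⟨g3, g4⟩ := s_m (U := Q.2.length + 1) (V := Q.2.length + Q.1.length + 1) h2 hU' hV
  obtain ⟨rm2, h4, h5, h6⟩ := use_leafO (stop := stop) (ph := .rp) h2 hU' hV
    (St.other (r0 := []) (hF _ _) h1 (Or.inl (by omega))) hb' (by decide)
    (fun h => absurd h (by decide)) f_corner g3 g4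
  refine h6.trans ?_
  have e2 : locz (Q.2.length + 1) (Q.2.length + Q.1.length + 1) (7, 1) =
      locz (Q.2.length + 1 + 0) (Q.2.length + Q.1.length - 0) (7, 37) := by
    unfold locz; refine Prod.ext ?_ ?_ <;> simp only <;> omega
  rw [e2]
  have := chain (stop := stop) hQ Q.1.length 0
    (dl (dl (Lf Q) Q.2.length (Q.2.length + Q.1.length + 1) rm) (Q.2.length + 1)
      (Q.2.length + Q.1.length + 1) rm2) [] (by omega) rfl ⟨h5, ?_, ?_⟩
  · rw [this]
    rfl
  · intro U V h7
    exact St.other (r0 := []) (St.other (r0 := []) (hF U V) h1 (by omega)) h4 (by omega)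
  · intro j hj
    omega

end Pool.Agent.Helper314_MC
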