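import Pool.Agent.Helper314_MC.End
import Pool.Agent.H656R2.AK.TQPoly

/-!
# The layout of the initial position
-/

set_option autoImplicit false
set_option linter.unusedSectionVars false

namespace Pool.Agent.Helper314_MC

open Pool.Agent.H656R2.AK (QF)

/-- white men of the blocks -/
def tabW : List (List (ℕ × ℕ)) := [
  -- EMPTY
  [],
  -- START
  [(21, 10)],
  -- CORNER
  [(7, 2), (7, 4), (7, 6), (7, 8)],
  -- VARE
  [(5, 25), (6, 25), (7, 26), (7, 28), (7, 30), (7, 32), (7, 34), (7, 36), (10, 18), (11, 18),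
   (12, 19), (19, 15), (20, 6), (21, 6), (22, 7), (22, 9), (22, 11), (22, 13), (22, 15), (22,
   17), (22, 19), (22, 21), (22, 23), (26, 10), (27, 10), (28, 11), (28, 13), (28, 15), (28,
   17), (28, 19), (28, 21), (28, 23), (28, 25), (28, 27), (28, 29)],
  -- VARA
  [(1, 25), (2, 25), (3, 26), (3, 28), (3, 30), (3, 32), (4, 33), (5, 31), (6, 31), (6, 33), (7,
   32), (7, 34), (7, 36), (10, 18), (11, 18), (12, 19), (19, 15), (20, 6), (21, 6), (22, 7),
   (22, 9), (22, 11), (22, 13), (22, 15), (22, 17), (22, 19), (22, 21), (22, 23), (26, 10), (27,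
   10), (28, 11), (28, 13), (28, 15), (28, 17), (28, 19), (28, 21), (28, 23), (28, 25), (28,
   27), (28, 29)],
  -- HH
  [],
  -- E00
  [],
  -- E10
  [(5, 3), (6, 3), (7, 4)],
  -- E01
  [(5, 13), (6, 13), (7, 14)],
  -- E11
  [(5, 3), (5, 13), (6, 3), (6, 13), (7, 4), (7, 14)],
  -- V
  [],
  -- SEL
  [(3, 13), (3, 14), (4, 15), (6, 15), (7, 2), (7, 4), (7, 6), (7, 8), (7, 10), (7, 12), (7,
   14), (8, 15), (10, 15), (12, 15), (14, 15), (16, 15), (18, 15), (20, 15), (22, 15), (24, 15),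
   (26, 15), (28, 15), (30, 15), (32, 15), (34, 15), (36, 15)],
  -- OC
  [(2, 15), (4, 15), (6, 15), (7, 16), (7, 18), (7, 20), (7, 22), (7, 24), (7, 26), (7, 28), (7,
   30), (7, 32), (7, 34), (7, 36)],
  -- OH
  [(2, 15), (4, 15), (6, 15), (8, 15), (10, 15), (12, 15), (14, 15), (16, 15), (18, 15), (20,
   15), (22, 15), (24, 15), (26, 15), (28, 15), (30, 15), (32, 15), (34, 15), (36, 15)]]

/-- black men of the blocks -/
def tabB : List (List (ℕ × ℕ)) := [
  -- EMPTY
  [],
  -- START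
  [(24, 10), (26, 10), (28, 10), (30, 10), (32, 10), (34, 10), (36, 10)],
  -- CORNER
  [(2, 10), (4, 10), (6, 10), (7, 11), (7, 12)],
  -- VARE
  [(1, 11), (1, 21), (3, 11), (3, 21), (5, 11), (5, 21), (7, 11), (7, 21), (9, 11), (9, 21), (9,
   25), (10, 26), (10, 28), (10, 30), (11, 11), (11, 21), (11, 25), (11, 31), (12, 22), (12,
   23), (13, 11), (13, 25), (13, 31), (14, 18), (15, 11), (15, 19), (15, 21), (15, 23), (15,
   25), (15, 27), (15, 28), (15, 31), (17, 11), (17, 25), (17, 31), (19, 11), (19, 25), (19,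
   31), (20, 12), (20, 14), (21, 15), (21, 25), (21, 31), (22, 26), (22, 27), (23, 15), (23,
   31), (24, 6), (24, 15), (25, 31), (26, 6), (27, 31), (28, 6), (28, 32), (28, 33), (30, 6),
   (30, 10), (31, 7), (31, 9), (32, 10), (34, 10), (36, 10)],
  -- VARA
  [(1, 11), (1, 21), (3, 11), (3, 21), (5, 11), (5, 21), (5, 25), (7, 11), (7, 21), (7, 25), (9,
   11), (9, 21), (9, 25), (9, 31), (11, 11), (11, 21), (11, 25), (11, 31), (12, 22), (12, 23),
   (13, 11), (13, 25), (13, 31), (14, 18), (15, 11), (15, 19), (15, 21), (15, 23), (15, 25),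
   (15, 27), (15, 28), (15, 31), (17, 11), (17, 25), (17, 31), (19, 11), (19, 25), (19, 31),
   (20, 12), (20, 14), (21, 15), (21, 25), (21, 31), (22, 26), (22, 27), (23, 15), (23, 31),
   (24, 6), (24, 15), (25, 31), (26, 6), (27, 31), (28, 6), (28, 32), (28, 33), (30, 6), (30,
   10), (31, 7), (31, 9), (32, 10), (34, 10), (36, 10)],
  -- HH
  [(1, 11), (1, 21), (3, 11), (3, 21), (5, 11), (5, 21), (7, 11), (7, 21), (9, 11), (9, 21),
   (11, 11), (11, 21), (13, 11), (13, 21), (15, 11), (15, 21), (17, 11), (17, 21), (19, 11),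
   (19, 21), (21, 11), (21, 21), (23, 11), (23, 21), (25, 11), (25, 21), (27, 11), (27, 21),
   (29, 11), (29, 21), (31, 11), (31, 21), (33, 11), (33, 21), (35, 11), (35, 21)],
  -- E00
  [(1, 11), (1, 21), (3, 1), (3, 3), (3, 5), (3, 7), (3, 9), (3, 11), (3, 13), (3, 15), (3, 17),
   (3, 19), (3, 21), (3, 23), (3, 25), (3, 27), (3, 29), (3, 31), (3, 33), (3, 35), (5, 11), (5,
   21), (7, 11), (7, 21), (9, 11), (9, 21), (11, 11), (11, 21), (13, 11), (13, 21), (15, 11),
   (15, 21), (17, 11), (17, 21), (19, 11), (19, 21), (21, 11), (21, 21), (23, 11), (23, 21),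
   (25, 11), (25, 21), (27, 11), (27, 21), (29, 11), (29, 21), (31, 11), (31, 21), (33, 11),
   (33, 21), (35, 11), (35, 21)],
  -- E10
  [(1, 11), (1, 21), (3, 1), (3, 3), (3, 5), (3, 7), (3, 9), (3, 11), (3, 13), (3, 15), (3, 17),
   (3, 19), (3, 21), (3, 23), (3, 25), (3, 27), (3, 29), (3, 31), (3, 33), (3, 35), (4, 6), (5,
   11), (5, 21), (6, 6), (7, 7), (7, 8), (7, 11), (7, 21), (9, 3), (9, 11), (9, 21), (10, 4),
   (10, 6), (10, 8), (10, 10), (11, 11), (11, 21), (13, 11), (13, 21), (15, 11), (15, 21), (17,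
   11), (17, 21), (19, 11), (19, 21), (21, 11), (21, 21), (23, 11), (23, 21), (25, 11), (25,
   21), (27, 11), (27, 21), (29, 11), (29, 21), (31, 11), (31, 21), (33, 11), (33, 21), (35,
   11), (35, 21)],
  -- E01
  [(1, 11), (1, 21), (3, 1), (3, 3), (3, 5), (3, 7), (3, 9), (3, 11), (3, 13), (3, 15), (3, 17),
   (3, 19), (3, 21), (3, 23), (3, 25), (3, 27), (3, 29), (3, 31), (3, 33), (3, 35), (4, 16), (5,
   11), (5, 21), (6, 16), (7, 11), (7, 17), (7, 18), (7, 21), (9, 11), (9, 13), (9, 21), (10,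
   14), (10, 16), (10, 18), (10, 20), (11, 11), (11, 21), (13, 11), (13, 21), (15, 11), (15,
   21), (17, 11), (17, 21), (19, 11), (19, 21), (21, 11), (21, 21), (23, 11), (23, 21), (25,
   11), (25, 21), (27, 11), (27, 21), (29, 11), (29, 21), (31, 11), (31, 21), (33, 11), (33,
   21), (35, 11), (35, 21)],
  -- E11
  [(1, 11), (1, 21), (3, 1), (3, 3), (3, 5), (3, 7), (3, 9), (3, 11), (3, 13), (3, 15), (3, 17),
   (3, 19), (3, 21), (3, 23), (3, 25), (3, 27), (3, 29), (3, 31), (3, 33), (3, 35), (4, 6), (4,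
   16), (5, 11), (5, 21), (6, 6), (6, 16), (7, 7), (7, 8), (7, 11), (7, 17), (7, 18), (7, 21),
   (9, 3), (9, 11), (9, 13), (9, 21), (10, 4), (10, 6), (10, 8), (10, 10), (10, 14), (10, 16),
   (10, 18), (10, 20), (11, 11), (11, 21), (13, 11), (13, 21), (15, 11), (15, 21), (17, 11),
   (17, 21), (19, 11), (19, 21), (21, 11), (21, 21), (23, 11), (23, 21), (25, 11), (25, 21),
   (27, 11), (27, 21), (29, 11), (29, 21), (31, 11), (31, 21), (33, 11), (33, 21), (35, 11),
   (35, 21)],
  -- V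
  [(3, 1), (3, 3), (3, 5), (3, 7), (3, 9), (3, 11), (3, 13), (3, 15), (3, 17), (3, 19), (3, 21),
   (3, 23), (3, 25), (3, 27), (3, 29), (3, 31), (3, 33), (3, 35)],
  -- SEL
  [(3, 17), (3, 19), (3, 21), (3, 23), (3, 25), (3, 27), (3, 29), (3, 31), (3, 33), (3, 35)],
  -- OC
  [],
  -- OH
  []]

/-- The contents of a square of a block: `0` empty, `1` white man, `2` black man. -/
def pat (t : ℕ) (q : ℕ × ℕ) : ℕ :=
  if q ∈ tabB.getD t [] then 2 else if q ∈ tabW.getD t [] then 1 else 0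

/-- pieces from their numbers -/
def dec (k : ℕ) : Option Piece := if k = 1 then WM else if k = 2 then BM else none

/-- the number of blocks in each direction -/
def gg (Q : QF) : ℕ := Q.2.length + Q.1.length + 2

/-- the type of a block -/
def bt (Q : QF) (U V : ℕ) : ℕ :=
  if V ≤ Q.2.length then
    if U = 0 then 0
    else if U ≤ Q.2.length then
      (if V = U then 11 else if V + 1 = U then 12 else if U < V then 10 else 0)
    else if V = Q.2.length then
      (if U ≤ Q.2.length + Q.1.length then 13 else if U = Q.2.length + Q.1.length + 1 then 12 else 0)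
    else 0
  else if V ≤ Q.2.length + Q.1.length then
    if U = 0 then 0
    else if U ≤ Q.2.length then
      6 + (if (true, Q.2.length + Q.1.length - V) ∈ Q.2.getD (U - 1) [] then 1 else 0) +
        (if (false, Q.2.length + Q.1.length - V) ∈ Q.2.getD (U - 1) [] then 2 else 0)
    else if U + V ≤ 2 * Q.2.length + Q.1.length then 5
    else if U + V = 2 * Q.2.length + Q.1.length + 1 then
      (if Q.1.getD (Q.2.length + Q.1.length - V) false = true then 4 else 3)
    else if U + V = 2 * Q.2.length + Q.1.length + 2 then 2 else 0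
  else if V = Q.2.length + Q.1.length + 1 then
    (if U = Q.2.length then 1 else if U = Q.2.length + 1 then 2 else 0)
  else 0

theorem bt_lt (Q : QF) (U V : ℕ) : bt Q U V < 14 := by
  unfold bt
  split_ifs <;> omega

/-- the network part -/
def net (g : ℕ) (s : ℤ × ℤ) : Prop := (0 ≤ s.1 ∧ s.1 < 36 * g) ∧ (0 ≤ s.2 ∧ s.2 < 36 * g)

instance (g : ℕ) (s : ℤ × ℤ) : Decidable (net g s) := by unfold net; infer_instance

instance (g : ℕ) (s : ℤ × ℤ) : Decidable (zone g s) := by unfold zone rot; infer_instance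

/-- the contents of the ceiling -/
def c0 (s : ℤ × ℤ) : Option Piece :=
  if s = (16, 17) then WK else if s = (17, 16) then BM else if s = (24, 8) then BK else cc s

/-- the initial position, without the black man to be captured first -/
def Lf (Q : QF) (s : ℤ × ℤ) : Option Piece :=
  if net (gg Q) s then dec (pat (bt Q (s.1.toNat / 36) (s.2.toNat / 36))
    (s.1.toNat % 36 + 1, s.2.toNat % 36 + 1))
  else if zone (gg Q) s then c0 (rel (gg Q) s) else none

/-- local coordinates -/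
def loc (U V : ℕ) (q : ℕ × ℕ) : ℤ × ℤ := (36 * U + q.1 - 1, 36 * V + q.2 - 1)

/-- the squares of a block -/
def own (q : ℕ × ℕ) : Bool := decide (1 ≤ q.1) && decide (q.1 ≤ 36) && decide (1 ≤ q.2) && decide (q.2 ≤ 36)

theorem own_iff {q : ℕ × ℕ} : own q = true ↔ 1 ≤ q.1 ∧ q.1 ≤ 36 ∧ 1 ≤ q.2 ∧ q.2 ≤ 36 := by
  unfold own
  simp only [Bool.and_eq_true, decide_eq_true_eq]
  tauto

theorem net_loc {g U V : ℕ} (hU : U < g) (hV : V < g) {q : ℕ × ℕ} (hq : own q = true) :
    net g (loc U V q) := by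
  rw [own_iff] at hq
  unfold net loc
  simp only
  omega

theorem Lf_loc {Q : QF} {U V : ℕ} (hU : U < gg Q) (hV : V < gg Q) {q : ℕ × ℕ}
    (hq : own q = true) : Lf Q (loc U V q) = dec (pat (bt Q U V) q) := by
  have h := net_loc hU hV hq
  rw [own_iff] at hq
  unfold Lf
  rw [if_pos h]
  have e1 : (loc U V q).1.toNat / 36 = U := by unfold loc; simp only; omega
  have e2 : (loc U V q).2.toNat / 36 = V := by unfold loc; simp only; omega
  have e3 : (loc U V q).1.toNat % 36 + 1 = q.1 := by unfold loc; simp only; omega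
  have e4 : (loc U V q).2.toNat % 36 + 1 = q.2 := by unfold loc; simp only; omega
  rw [e1, e2, e3, e4]

theorem exists_loc {g : ℕ} {s : ℤ × ℤ} (h : net g s) :
    ∃ U V q, U < g ∧ V < g ∧ own q = true ∧ s = loc U V q := by
  unfold net at h
  refine ⟨s.1.toNat / 36, s.2.toNat / 36, (s.1.toNat % 36 + 1, s.2.toNat % 36 + 1), by omega,
    by omega, ?_, ?_⟩
  · rw [own_iff]
    simp only
    omega
  · unfold loc
    refine Prod.ext ?_ ?_ <;> simp only <;> omega

theorem loc_inj {U V U' V' : ℕ} {q q' : ℕ × ℕ} (hq : own q = true) (hq' : own q' = true)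
    (h : loc U V q = loc U' V' q') : U = U' ∧ V = V' ∧ q = q' := by
  rw [own_iff] at hq hq'
  unfold loc at h
  simp only [Prod.mk.injEq] at h
  refine ⟨by omega, by omega, Prod.ext ?_ ?_⟩ <;> omega

theorem loc_inj' {U V : ℕ} {q q' : ℕ × ℕ} (h : loc U V q = loc U V q') : q = q' := by
  unfold loc at h
  simp only [Prod.mk.injEq] at h
  refine Prod.ext ?_ ?_ <;> omega

theorem dec_W {k : ℕ} (h : dec k = WM) : k = 1 := by
  unfold dec at h
  split_ifs at h <;> first | assumption | simp at h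

theorem dec_B {k : ℕ} (h : dec k = BM) : k = 2 := by
  unfold dec at h
  split_ifs at h <;> first | assumption | simp at h

theorem dec_man {k : ℕ} {p : Piece} (h : dec k = some p) : p = ⟨p.white, false⟩ := by
  unfold dec at h
  split_ifs at h with h1 h2
  · cases h; rfl
  · cases h; rfl

theorem pat_W {t : ℕ} {q : ℕ × ℕ} (h : pat t q = 1) : q ∈ tabW.getD t [] := by
  unfold pat at h
  split_ifs at h <;> first | assumption | simp at h

theorem pat_B {t : ℕ} {q : ℕ × ℕ} (h : pat t q = 2) : q ∈ tabB.getD t [] := by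
  unfold pat at h
  split_ifs at h <;> first | assumption | simp at h

theorem tab1 : ∀ t < 14, ∀ q ∈ tabW.getD t [], (q.1 + 1, q.2) ∈ tabB.getD t [] →
    (t = 3 ∨ t = 4) ∧ q = (22, 15) := by decide +kernel

theorem tab2 : ∀ t < 14, ∀ q ∈ tabW.getD t [], (q.1, q.2 + 1) ∉ tabB.getD t [] := by
  decide +kernel

theorem tab3 : ∀ t < 14, ∀ q ∈ tabW.getD t [], q.1 = 36 → q.2 = 15 := by decide +kernel

theorem tab4 : ∀ t < 14, ∀ q ∈ tabW.getD t [], q.2 = 36 → q.1 = 7 := by decide +kernel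

theorem tab5 : ∀ t < 14, (1, 15) ∉ tabB.getD t [] ∧ (7, 1) ∉ tabB.getD t [] := by decide +kernel

/-- a white man directly below a black man -/
theorem LL {Q : QF} {s : ℤ × ℤ} {d : Fin 4} (hd : d.val < 2) (h1 : net (gg Q) s)
    (h2 : net (gg Q) ((rot (gg Q)).nb s d)) (h3 : Lf Q s = WM)
    (h4 : Lf Q ((rot (gg Q)).nb s d) = BM) :
    d = 0 ∧ ∃ U V, U < gg Q ∧ V < gg Q ∧ (bt Q U V = 3 ∨ bt Q U V = 4) ∧ s = loc U V (22, 15) := by
  obtain ⟨U, V, q, hU, hV, hq, rfl⟩ := exists_loc h1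
  have h5 := hq
  rw [own_iff] at h5
  rw [Lf_loc hU hV hq] at h3
  have h3' := pat_W (dec_W h3)
  have hd' : d = 0 ∨ d = 1 := by omega
  rcases hd' with rfl | rfl
  · refine ⟨rfl, ?_⟩
    by_cases h6 : q.1 < 36
    · have e : (rot (gg Q)).nb (loc U V q) 0 = loc U V (q.1 + 1, q.2) := by
        simp [rot_nb, loc, dx, dy]; ring
      rw [e, Lf_loc hU hV (by rw [own_iff]; simp only; omega)] at h4
      obtain ⟨h7, h8⟩ := tab1 _ (bt_lt Q U V) q h3' (pat_B (dec_B h4))
      exact ⟨U, V, hU, hV, h7, by rw [h8]⟩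
    · exfalso
      have h7 : q.1 = 36 := by omega
      have h8 := tab3 _ (bt_lt Q U V) q h3' h7
      have e : (rot (gg Q)).nb (loc U V q) 0 = loc (U + 1) V (1, 15) := by
        simp [rot_nb, loc, dx, dy]; constructor <;> omega
      have hU' : U + 1 < gg Q := by
        rw [e] at h2
        unfold net loc at h2
        simp only at h2
        omega
      rw [e, Lf_loc hU' hV (by decide)] at h4
      exact (tab5 _ (bt_lt Q (U + 1) V)).1 (pat_B (dec_B h4))
  · exfalso
    by_cases h6 : q.2 < 36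
    · have e : (rot (gg Q)).nb (loc U V q) 1 = loc U V (q.1, q.2 + 1) := by
        simp [rot_nb, loc, dx, dy]; ring
      rw [e, Lf_loc hU hV (by rw [own_iff]; simp only; omega)] at h4
      exact tab2 _ (bt_lt Q U V) q h3' (pat_B (dec_B h4))
    · have h7 : q.2 = 36 := by omega
      have h8 := tab4 _ (bt_lt Q U V) q h3' h7
      have e : (rot (gg Q)).nb (loc U V q) 1 = loc U (V + 1) (7, 1) := by
        simp [rot_nb, loc, dx, dy]; constructor <;> omega
      have hV' : V + 1 < gg Q := by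
        rw [e] at h2
        unfold net loc at h2
        simp only at h2
        omega
      rw [e, Lf_loc hU hV' (by decide)] at h4
      exact (tab5 _ (bt_lt Q U (V + 1))).2 (pat_B (dec_B h4))

/-- the positions of the forced phase (without the token) -/
structure GA (Q : QF) (A : Board (ℤ × ℤ)) : Prop where
  sub : ∀ s, A s = Lf Q s ∨ (A s = none ∧ net (gg Q) s)
  yy : ∀ U V, U < gg Q → V < gg Q → (bt Q U V = 3 ∨ bt Q U V = 4) → A (loc U V (24, 15)) = BM ∧
    (A (loc U V (22, 15)) = none ∨ A (loc U V (21, 15)) = BM)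

theorem net_not_zone {g : ℕ} {s : ℤ × ℤ} (h : net g s) : ¬ zone g s := by
  intro h'
  unfold net at h
  have := h'.2
  omega

theorem net_ok {g : ℕ} {s : ℤ × ℤ} (h : net g s) : (rot g).ok s := by
  unfold net at h
  simp only [rot]
  omega

theorem pat_Y : (∀ t, t = 3 ∨ t = 4 → pat t (24, 15) = 2 ∧ pat t (21, 15) = 2) := by
  rintro t (rfl | rfl) <;> decide +kernel

theorem GA.Lf (Q : QF) : GA Q (Lf Q) where
  sub _ := Or.inl rfl
  yy U V hU hV h := by
    obtain ⟨h1, h2⟩ := pat_Y _ h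
    refine ⟨?_, Or.inr ?_⟩
    · rw [Lf_loc hU hV (by decide), h1]
      rfl
    · rw [Lf_loc hU hV (by decide), h2]
      rfl

variable {Q : QF} {A : Board (ℤ × ℤ)}

theorem GA.some_net (hA : GA Q A) {s : ℤ × ℤ} {p : Piece} (h : A s = some p)
    (hs : ¬ zone (gg Q) s) : net (gg Q) s ∧ Helper314_MC.Lf Q s = some p ∧ p = ⟨p.white, false⟩ := by
  rcases hA.sub s with h1 | ⟨h1, -⟩
  · rw [h] at h1
    by_cases h2 : net (gg Q) s
    · refine ⟨h2, h1.symm, ?_⟩
      unfold Helper314_MC.Lf at h1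
      rw [if_pos h2] at h1
      exact dec_man h1.symm
    · unfold Helper314_MC.Lf at h1
      rw [if_neg h2, if_neg hs] at h1
      cases h1
  · rw [h] at h1
    cases h1

theorem GA.zone_eq (hA : GA Q A) {s : ℤ × ℤ} (hs : zone (gg Q) s) : A s = c0 (rel (gg Q) s) := by
  have h1 : ¬ net (gg Q) s := fun h => net_not_zone h hs
  rcases hA.sub s with h | ⟨-, h⟩
  · rw [h]
    unfold Helper314_MC.Lf
    rw [if_neg h1, if_pos hs]
  · exact absurd h h1

theorem GA.ZI (hA : GA Q A) : ZI (gg Q) A := by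
  constructor
  · intro s hs hs'
    rw [hA.zone_eq hs]
    unfold c0
    rw [if_neg, if_neg, if_neg]
    · rintro h; rw [h] at hs'; exact hs' (by decide)
    · rintro h; rw [h] at hs'; exact hs' (by decide)
    · rintro h; rw [h] at hs'; exact hs' (by decide)
  · intro s hs
    by_cases h : zone (gg Q) s
    · exact h.1
    · obtain ⟨p, hp⟩ := Option.ne_none_iff_exists'.1 hs
      exact net_ok (hA.some_net hp h).1

theorem rel_kc (g : ℕ) (i : Fin 5) : rel g (kc g i) = (![((15 : ℤ), (16 : ℤ)), (15, 17), (16, 17), (16, 16), (17, 16)] i) := by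
  fin_cases i <;> simp [rel, kc]

theorem rel_bc (g : ℕ) (i : Fin 2) : rel g (bc g i) = (![((24 : ℤ), (8 : ℤ)), (25, 8)] i) := by
  fin_cases i <;> simp [rel, bc]

theorem GA.kv (hA : GA Q A) : kv (gg Q) A = k0 := by
  funext i
  unfold Helper314_MC.kv
  rw [hA.zone_eq (zone_kc i), rel_kc]
  revert i
  decide

theorem GA.KB (hA : GA Q A) : KB (gg Q) A := by
  refine ⟨0, 1, by decide, ?_, ?_⟩
  · rw [hA.zone_eq (zone_bc 0), rel_bc]
    decide
  · rw [hA.zone_eq (zone_bc 1), rel_bc]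
    decide

theorem c0_WK {s : ℤ × ℤ} (h : c0 s = WK) : s = (16, 17) := by
  unfold c0 cc at h
  split_ifs at h <;> first | assumption | simp at h

theorem GA.wk (hA : GA Q A) {s : ℤ × ℤ} (h : A s = WK) : s = kc (gg Q) 2 := by
  by_cases hs : zone (gg Q) s
  · rw [hA.zone_eq hs] at h
    have h1 := c0_WK h
    simp only [rel, Prod.mk.injEq] at h1
    simp only [kc]
    refine Prod.ext ?_ ?_ <;> simp only <;> omega
  · have := (hA.some_net h hs).2.2
    simp at this

/-- a man -/
abbrev Mn (w : Bool) : Option Piece := some ⟨w, false⟩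

/-- a forward direction -/
def up (w : Bool) (d : Fin 4) : Prop := (w = true ∧ d.val < 2) ∨ (w = false ∧ 2 ≤ d.val)

theorem can_man {w : Bool} {d : Fin 4} : (⟨w, false⟩ : Piece).can d ↔ up w d := by
  unfold Piece.can up
  simp

/-- there are no captures without the token -/
theorem GA.static (hA : GA Q A) {w : Bool} {s : ℤ × ℤ} {d : Fin 4} (hd : up w d)
    (h1 : A s = Mn w) (h2 : A ((rot (gg Q)).nb s d) = Mn (!w)) (hs : ¬ zone (gg Q) s)
    (hm : ¬ zone (gg Q) ((rot (gg Q)).nb s d)) :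
    A ((rot (gg Q)).nb ((rot (gg Q)).nb s d) d) ≠ none := by
  obtain ⟨h3, h4, -⟩ := hA.some_net h1 hs
  obtain ⟨h5, h6, -⟩ := hA.some_net h2 hm
  rcases hd with ⟨rfl, hd⟩ | ⟨rfl, hd⟩
  · obtain ⟨rfl, U, V, hU, hV, hb, rfl⟩ := LL hd h3 h5 h4 h6
    have e : (rot (gg Q)).nb ((rot (gg Q)).nb (loc U V (22, 15)) 0) 0 = loc U V (24, 15) := by
      simp [rot_nb, loc, dx, dy]; ring
    rw [e, (hA.yy U V hU hV hb).1]
    simp
  · set m := (rot (gg Q)).nb s d with hm'
    obtain ⟨d', hd', e'⟩ : ∃ d' : Fin 4, d'.val < 2 ∧ d = d' + 2 := by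
      fin_cases d <;> simp at hd
      · exact ⟨0, by decide, by decide⟩
      · exact ⟨1, by decide, by decide⟩
    have e1 : (rot (gg Q)).nb m d' = s := by
      rw [hm', e']
      fin_cases d' <;> simp at hd' ⊢ <;> simp [rot_nb, dx, dy]
    obtain ⟨rfl, U, V, hU, hV, hb, h7⟩ := LL (d := d') hd' h5 (by rw [e1]; exact h3) h6
      (by rw [e1]; exact h4)
    have hm2 : A (loc U V (22, 15)) ≠ none := by
      rw [← h7, h2]
      simp
    have e : (rot (gg Q)).nb m d = loc U V (21, 15) := by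
      rw [h7, e']
      simp [rot_nb, loc, dx, dy]; ring
    rw [e, (hA.yy U V hU hV hb).2.resolve_left hm2]
    simp

end Pool.Agent.Helper314_MC
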