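import Pool.Agent.Helper314_MC.Rows
import Pool.Agent.H671R2.PolyAuto

/-!
# The reduction is computable in polynomial time
-/

set_option autoImplicit false
set_option linter.unusedSectionVars false
set_option linter.unnecessarySeqFocus false

namespace Pool.Agent.Helper314_MC

open Pool.Agent Pool.Agent.NPC
open Pool.Agent.H656R2.AK (QF QFwf evc qbf_hard)
open Pool.Agent.H623R2.PS (evq PSPACEHard InPSPACE)

variable {α : Type} [TEnc α]

theorem poly_pat {t : α → ℕ} {q : α → ℕ × ℕ} (ht : NPC.Poly t) (hq : NPC.Poly q) :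
    NPC.Poly (fun x => pat (t x) (q x)) := by
  have h1 : NPC.Poly (fun x => tabB.getD (t x) []) := NPC.Poly.getD (NPC.Poly.const _) ht (NPC.Poly.const _)
  have h2 : NPC.Poly (fun x => tabW.getD (t x) []) := NPC.Poly.getD (NPC.Poly.const _) ht (NPC.Poly.const _)
  unfold pat
  fun_prop

theorem upoly_gg {Q : α → QF} (hQ : NPC.Poly Q) : UPoly (fun x => gg (Q x)) :=
  ((UPoly.length (NPC.Poly.snd hQ)).add (UPoly.length (NPC.Poly.fst hQ))).add (UPoly.const 2)

theorem poly_bt {Q : α → QF} {U V : α → ℕ} (hQ : NPC.Poly Q) (hU : NPC.Poly U) (hV : NPC.Poly V) :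
    NPC.Poly (fun x => bt (Q x) (U x) (V x)) := by
  have hm : NPC.Poly (fun x => (Q x).2.length) := (UPoly.length (NPC.Poly.snd hQ)).toPoly
  have hn : NPC.Poly (fun x => (Q x).1.length) := (UPoly.length (NPC.Poly.fst hQ)).toPoly
  have h1 : NPC.Poly (fun x => (Q x).2.getD (U x - 1) []) :=
    NPC.Poly.getD (NPC.Poly.snd hQ) (by fun_prop) (NPC.Poly.const [])
  have h2 : NPC.Poly (fun x => (Q x).1.getD ((Q x).2.length + (Q x).1.length - V x) false) :=
    NPC.Poly.getD (NPC.Poly.fst hQ) (by fun_prop) (NPC.Poly.const false)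
  unfold bt
  fun_prop

theorem poly_ceilN {g : α → ℕ} {p : α → ℕ × ℕ} (hg : NPC.Poly g) (hp : NPC.Poly p) :
    NPC.Poly (fun x => ceilN (g x) (p x)) := by
  have h1 : NPC.Poly (fun _ : α => bwN) := NPC.Poly.const _
  have h2 : NPC.Poly (fun _ : α => cavN) := NPC.Poly.const _
  unfold ceilN
  fun_prop

theorem poly_netN {Q : α → QF} {p : α → ℕ × ℕ} (hQ : NPC.Poly Q) (hp : NPC.Poly p) :
    NPC.Poly (fun x => netN (Q x) (p x)) := by
  have hm : NPC.Poly (fun x => (Q x).2.length) := (UPoly.length (NPC.Poly.snd hQ)).toPoly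
  have hn : NPC.Poly (fun x => (Q x).1.length) := (UPoly.length (NPC.Poly.fst hQ)).toPoly
  have hg : NPC.Poly (fun x => gg (Q x)) := (upoly_gg hQ).toPoly
  have h1 : NPC.Poly (fun x => bt (Q x) ((p x).1 / 36) ((p x).2 / 36)) :=
    poly_bt hQ (by fun_prop) (by fun_prop)
  have h2 : NPC.Poly (fun x => pat (bt (Q x) ((p x).1 / 36) ((p x).2 / 36))
      ((p x).1 % 36 + 1, (p x).2 % 36 + 1)) := poly_pat h1 (by fun_prop)
  have h3 : NPC.Poly (fun x => ceilN (gg (Q x)) (p x)) := poly_ceilN hg hp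
  unfold netN
  fun_prop

theorem poly_cellN {Q : α → QF} {a b : α → ℕ} (hQ : NPC.Poly Q) (ha : NPC.Poly a)
    (hb : NPC.Poly b) : NPC.Poly (fun x => cellN (Q x) (a x) (b x)) := by
  have hg : NPC.Poly (fun x => gg (Q x)) := (upoly_gg hQ).toPoly
  have h1 : NPC.Poly (fun x => netN (Q x) ((a x + b x) / 2 - (18 * gg (Q x) + 11),
      (b x + (36 * gg (Q x) + 18) - a x) / 2)) := poly_netN hQ (by fun_prop)
  unfold cellN
  fun_prop

theorem upoly_side {Q : α → QF} (hQ : NPC.Poly Q) : UPoly (fun x => side (Q x)) :=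
  ((UPoly.const 72).mul (upoly_gg hQ)).add (UPoly.const 40)

theorem poly_rows {Q : α → QF} (hQ : NPC.Poly Q) : NPC.Poly (fun x => rows (Q x)) := by
  unfold rows
  refine NPC.Poly.map (l := fun x => List.range (side (Q x)))
    (F := fun x b => (List.range (side (Q x))).map fun a => cellN (Q x) a b)
    (upoly_side hQ).range ?_
  refine NPC.Poly.map (l := fun q : α × ℕ => List.range (side (Q q.1)))
    (F := fun q a => cellN (Q q.1) a q.2) (upoly_side (hQ.comp (NPC.Poly.fst NPC.Poly.id))).range ?_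
  exact poly_cellN (hQ.comp (NPC.Poly.fst (NPC.Poly.fst NPC.Poly.id))) (NPC.Poly.snd NPC.Poly.id)
    (NPC.Poly.snd (NPC.Poly.fst NPC.Poly.id))

theorem hard (stop : Bool) : PSPACEHard (lang (MisereCheckers stop)) := by
  intro L hL
  obtain ⟨f, hf, hwf, hf'⟩ := qbf_hard hL
  have h1 : NPC.Poly (fun x => ((true : Bool), rows (f x))) :=
    NPC.Poly.pair (NPC.Poly.const true) (poly_rows hf)
  exact ⟨fun x => bits ((true : Bool), rows (f x)), polyTime_bits h1,
    fun x => by rw [hf' x, bits_mem_lang, rows_iff (hwf x)]⟩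

end Pool.Agent.Helper314_MC
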