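import Pool.Agent.Helper314_MC.Main2

/-!
# The initial position as a table
-/

set_option autoImplicit false
set_option linter.unusedSectionVars false
set_option linter.unnecessarySeqFocus false

namespace Pool.Agent.Helper314_MC

open Pool.Agent.H656R2.AK (QF QFwf evc)
open Pool.Agent.H623R2.PS (evq)

/-- the walls -/
def bwN : List (ℕ × ℕ) := [(14, 16), (13, 16), (14, 17), (13, 17), (17, 15), (17, 14), (16, 15),
  (16, 14), (15, 15), (15, 14), (23, 8), (22, 8), (24, 7), (24, 6), (25, 7), (25, 6)]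

/-- the holes -/
def cavN : List (ℕ × ℕ) := [(15, 16), (15, 17), (16, 17), (16, 16), (17, 16), (24, 8), (25, 8)]

/-- the entries of the ceiling -/
def ceilN (g : ℕ) (p : ℕ × ℕ) : ℕ :=
  if (p.1 - 36 * g, p.2 - 36 * g) = (16, 17) then 2
  else if (p.1 - 36 * g, p.2 - 36 * g) = (17, 16) then 3
  else if (p.1 - 36 * g, p.2 - 36 * g) = (24, 8) then 4
  else if p.1 + p.2 = 72 * g + 37 then 3
  else if (p.1 - 36 * g, p.2 - 36 * g) ∈ bwN then 3
  else if (p.1 - 36 * g, p.2 - 36 * g) ∈ cavN then 0
  else 1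

/-- the entries in rotated coordinates -/
def netN (Q : QF) (p : ℕ × ℕ) : ℕ :=
  if p = (36 * Q.2.length + 21, 36 * (Q.2.length + Q.1.length + 1) + 9) then 3
  else if p.1 < 36 * gg Q ∧ p.2 < 36 * gg Q then
    (if pat (bt Q (p.1 / 36) (p.2 / 36)) (p.1 % 36 + 1, p.2 % 36 + 1) = 2 then 3
    else pat (bt Q (p.1 / 36) (p.2 / 36)) (p.1 % 36 + 1, p.2 % 36 + 1))
  else if 72 * gg Q + 27 ≤ p.1 + p.2 then ceilN (gg Q) p else 0

/-- the entries -/
def cellN (Q : QF) (a b : ℕ) : ℕ :=
  if (a + b) % 2 = 0 ∧ 18 * gg Q + 11 ≤ (a + b) / 2 ∧ a ≤ b + (36 * gg Q + 18) then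
    netN Q ((a + b) / 2 - (18 * gg Q + 11), (b + (36 * gg Q + 18) - a) / 2)
  else 0

/-- the side of the board -/
def side (Q : QF) : ℕ := 72 * gg Q + 40

/-- the table -/
def rows (Q : QF) : List (List ℕ) :=
  (List.range (side Q)).map fun b => (List.range (side Q)).map fun a => cellN Q a b

variable {Q : QF}

theorem rows_length : (rows Q).length = side Q := by simp [rows]

theorem row_lt {b : ℕ} (hb : b < side Q) :
    (rows Q).getD b [] = (List.range (side Q)).map fun a => cellN Q a b := by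
  have h : b < (rows Q).length := by rw [rows_length]; exact hb
  rw [List.getD_eq_getElem (rows Q) [] h]
  simp [rows]

theorem entry_rows {a b : ℕ} (ha : a < side Q) (hb : b < side Q) :
    entry (rows Q) a b = cellN Q a b := by
  unfold entry
  rw [row_lt hb]
  have h : a < ((List.range (side Q)).map fun a => cellN Q a b).length := by simpa using ha
  rw [List.getD_eq_getElem _ 0 h]
  simp

theorem entry_out {a b : ℕ} (h : ¬ (a < side Q ∧ b < side Q)) : entry (rows Q) a b = 0 := by
  unfold entry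
  by_cases hb : b < side Q
  · rw [row_lt hb, List.getD_eq_default]
    simp only [List.length_map, List.length_range]
    by_contra ha
    exact h ⟨by omega, hb⟩
  · rw [List.getD_eq_default (l := rows Q)]
    · rfl
    · rw [rows_length]
      omega

theorem pat_le {t : ℕ} {q : ℕ × ℕ} : pat t q ≤ 2 := by
  unfold pat
  split_ifs <;> omega

theorem ceilN_le {g : ℕ} {p : ℕ × ℕ} : ceilN g p ≤ 4 := by
  unfold ceilN
  split_ifs <;> omega

theorem netN_le {p : ℕ × ℕ} : netN Q p ≤ 4 := by
  unfold netN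
  have := @pat_le (bt Q (p.1 / 36) (p.2 / 36)) (p.1 % 36 + 1, p.2 % 36 + 1)
  have := @ceilN_le (gg Q) p
  split_ifs <;> omega

theorem cellN_le {a b : ℕ} : cellN Q a b ≤ 4 := by
  unfold cellN
  have := @netN_le Q ((a + b) / 2 - (18 * gg Q + 11), (b + (36 * gg Q + 18) - a) / 2)
  split_ifs <;> omega

theorem gg_ge : Q.2.length + Q.1.length + 2 = gg Q := rfl

theorem cellN_top {a : ℕ} : cellN Q a (72 * gg Q + 39) ≠ 1 := by
  unfold cellN
  split_ifs with h
  · obtain ⟨h1, h2, h3⟩ := h
    set x := (a + (72 * gg Q + 39)) / 2 - (18 * gg Q + 11) with hx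
    set y := (72 * gg Q + 39 + (36 * gg Q + 18) - a) / 2 with hy
    have hxy : x + y = 72 * gg Q + 37 := by omega
    have hg := @gg_ge Q
    unfold netN
    rw [if_neg (by simp only [Prod.mk.injEq]; omega), if_neg (by simp only; omega),
      if_pos (by simp only; omega)]
    unfold ceilN
    split_ifs <;> simp_all
  · simp

theorem cellN_bot {a : ℕ} : cellN Q a 0 = 0 := by
  unfold cellN
  rw [if_neg (by omega)]

theorem valid_rows (Q : QF) : ValidPos (rows Q) := by
  constructor
  · intro r hr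
    unfold rows at hr
    obtain ⟨b, -, rfl⟩ := List.mem_map.1 hr
    rw [rows_length]
    simp
  · intro a b
    by_cases h : a < side Q ∧ b < side Q
    · rw [entry_rows h.1 h.2]
      refine ⟨cellN_le, ?_, ?_, ?_⟩
      · intro h1
        unfold cellN at h1
        split_ifs at h1 with h2
        · exact h2.1
        · exact absurd rfl h1
      · rw [rows_length]
        intro h1
        obtain rfl : b = 72 * gg Q + 39 := by unfold side at h1; omega
        exact cellN_top
      · rintro rfl
        rw [cellN_bot]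
        simp
    · rw [entry_out h]
      simp

theorem mem_tr {l : List (ℕ × ℕ)} {l' : List (ℤ × ℤ)}
    (h : l' = l.map (fun p => ((p.1 : ℤ), (p.2 : ℤ)))) (hp : ∀ p ∈ l, 1 ≤ p.1 ∧ 1 ≤ p.2) {g : ℕ}
    {x y : ℤ} (hx : 0 ≤ x) (hy : 0 ≤ y) :
    (x.toNat - 36 * g, y.toNat - 36 * g) ∈ l ↔ rel g (x, y) ∈ l' := by
  subst h
  rw [List.mem_map]
  constructor
  · intro h
    obtain ⟨h1, h2⟩ := hp _ h
    simp only at h1 h2
    refine ⟨_, h, ?_⟩
    unfold rel
    refine Prod.ext ?_ ?_
    · simp only; omega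
    · simp only; omega
  · rintro ⟨p, h, h3⟩
    obtain ⟨h1, h2⟩ := hp _ h
    unfold rel at h3
    have h4 := congrArg Prod.fst h3
    have h5 := congrArg Prod.snd h3
    simp only at h4 h5
    have e : (x.toNat - 36 * g, y.toNat - 36 * g) = p := by
      refine Prod.ext ?_ ?_
      · simp only; omega
      · simp only; omega
    rw [e]
    exact h

theorem mem_bw {g : ℕ} {x y : ℤ} (hx : 0 ≤ x) (hy : 0 ≤ y) :
    (x.toNat - 36 * g, y.toNat - 36 * g) ∈ bwN ↔ rel g (x, y) ∈ bw :=
  mem_tr (by decide) (by decide) hx hy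

theorem mem_cav {g : ℕ} {x y : ℤ} (hx : 0 ≤ x) (hy : 0 ≤ y) :
    (x.toNat - 36 * g, y.toNat - 36 * g) ∈ cavN ↔ rel g (x, y) ∈ cav :=
  mem_tr (by decide) (by decide) hx hy

theorem ceil_eq {g : ℕ} {x y : ℤ} (hx : 0 ≤ x) (hy : 0 ≤ y) :
    pieceOf (ceilN g (x.toNat, y.toNat)) = c0 (rel g (x, y)) := by
  unfold ceilN c0
  have e1 : (x.toNat - 36 * g, y.toNat - 36 * g) = (16, 17) ↔ rel g (x, y) = (16, 17) := by
    have := mem_tr (l := [(16, 17)]) (l' := [(16, 17)]) (by decide) (by decide) (g := g) hx hy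
    simpa using this
  have e2 : (x.toNat - 36 * g, y.toNat - 36 * g) = (17, 16) ↔ rel g (x, y) = (17, 16) := by
    have := mem_tr (l := [(17, 16)]) (l' := [(17, 16)]) (by decide) (by decide) (g := g) hx hy
    simpa using this
  have e3 : (x.toNat - 36 * g, y.toNat - 36 * g) = (24, 8) ↔ rel g (x, y) = (24, 8) := by
    have := mem_tr (l := [(24, 8)]) (l' := [(24, 8)]) (by decide) (by decide) (g := g) hx hy
    simpa using this
  have e4 : x.toNat + y.toNat = 72 * g + 37 ↔ (rel g (x, y)).1 + (rel g (x, y)).2 = 37 := by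
    simp only [rel]; omega
  unfold cc
  simp only [e1, e2, e3, e4, mem_bw hx hy, mem_cav hx hy]
  by_cases h1 : rel g (x, y) = (16, 17)
  · rw [if_pos h1, if_pos h1]; rfl
  rw [if_neg h1, if_neg h1]
  by_cases h2 : rel g (x, y) = (17, 16)
  · rw [if_pos h2, if_pos h2]; rfl
  rw [if_neg h2, if_neg h2]
  by_cases h3 : rel g (x, y) = (24, 8)
  · rw [if_pos h3, if_pos h3]; rfl
  rw [if_neg h3, if_neg h3]
  by_cases h4 : (rel g (x, y)).1 + (rel g (x, y)).2 = 37
  · rw [if_pos h4, if_pos h4]; rfl
  rw [if_neg h4, if_neg h4]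
  by_cases h5 : rel g (x, y) ∈ bw
  · rw [if_pos h5, if_pos h5]; rfl
  rw [if_neg h5, if_neg h5]
  by_cases h6 : rel g (x, y) ∈ cav
  · rw [if_pos h6, if_pos h6]; rfl
  rw [if_neg h6, if_neg h6]; rfl

/-- the square of the first token -/
abbrev tk (Q : QF) : ℤ × ℤ := locz Q.2.length (Q.2.length + Q.1.length + 1) (22, 10)

/-- the initial position -/
abbrev L0 (Q : QF) : Board (ℤ × ℤ) := Function.update (Lf Q) (tk Q) BM

theorem dec_pieceOf {k : ℕ} (hk : k ≤ 2) : pieceOf (if k = 2 then 3 else k) = dec k := by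
  interval_cases k <;> rfl

theorem net_eq {x y : ℤ} (hx : 0 ≤ x) (hy : 0 ≤ y) (hok : (rot (gg Q)).ok (x, y)) :
    pieceOf (netN Q (x.toNat, y.toNat)) = L0 Q (x, y) := by
  unfold netN
  have e1 : (x.toNat, y.toNat) = (36 * Q.2.length + 21, 36 * (Q.2.length + Q.1.length + 1) + 9) ↔
      (x, y) = tk Q := by
    simp only [tk, locz, Prod.mk.injEq]
    omega
  simp only [e1]
  by_cases h1 : (x, y) = tk Q
  · rw [if_pos h1, h1, L0, Function.update_self]; rfl
  rw [if_neg h1, L0, Function.update_of_ne h1]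
  unfold Lf
  by_cases h2 : net (gg Q) (x, y)
  · have h2' := h2
    unfold net at h2'
    simp only at h2'
    rw [if_pos h2, if_pos (by omega)]
    exact dec_pieceOf pat_le
  · have h2' := h2
    unfold net at h2'
    simp only at h2'
    rw [if_neg h2, if_neg (by omega)]
    by_cases h3 : zone (gg Q) (x, y)
    · rw [if_pos h3]
      have h4 := h3.2
      simp only at h4
      rw [if_pos (by omega)]
      exact ceil_eq hx hy
    · rw [if_neg h3]
      rw [if_neg]
      · rfl
      · intro h4
        exact h3 ⟨hok, by simp only; omega⟩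

theorem L0_pos {s : ℤ × ℤ} (h : L0 Q s ≠ none) : (rot (gg Q)).ok s ∧ 0 ≤ s.1 ∧ 0 ≤ s.2 := by
  have hg := @gg_ge Q
  by_cases h1 : s = tk Q
  · subst h1
    have h2 : net (gg Q) (tk Q) := net_locz (by omega) (by omega) (by decide)
    exact ⟨net_ok h2, h2.1.1, h2.2.1⟩
  · rw [L0, Function.update_of_ne h1] at h
    by_cases h2 : net (gg Q) s
    · exact ⟨net_ok h2, h2.1.1, h2.2.1⟩
    · by_cases h3 : zone (gg Q) s
      · have h4 := h3.1
        have h5 := h3.2
        refine ⟨h4, ?_⟩
        simp only [rot] at h4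
        omega
      · exact absurd (Lf_out h2 h3) h

theorem same_rows (Q : QF) : Same (phi (gg Q)) (boardOf (rows Q)) (L0 Q) := by
  constructor
  · rintro ⟨x, y⟩
    by_cases h : (0 ≤ (phi (gg Q) (x, y)).1 ∧ (phi (gg Q) (x, y)).1 < 72 * gg Q + 40) ∧
        (0 ≤ (phi (gg Q) (x, y)).2 ∧ (phi (gg Q) (x, y)).2 < 72 * gg Q + 40)
    · unfold boardOf
      rw [if_pos ⟨h.1.1, h.2.1⟩, entry_rows (by unfold side; omega) (by unfold side; omega)]
      have hok : (rot (gg Q)).ok (x, y) := h
      simp only [phi] at h ⊢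
      unfold cellN
      by_cases hxy : 0 ≤ x ∧ 0 ≤ y
      · rw [if_pos (by omega)]
        have e1 : ((x - y + (36 * (gg Q : ℤ) + 20)).toNat + (x + y + 2).toNat) / 2 - (18 * gg Q + 11) =
            x.toNat := by omega
        have e2 : ((x + y + 2).toNat + (36 * gg Q + 18) - (x - y + (36 * (gg Q : ℤ) + 20)).toNat) / 2 =
            y.toNat := by omega
        rw [e1, e2]
        exact net_eq hxy.1 hxy.2 hok
      · rw [if_neg (by omega)]
        by_contra h2
        exact hxy (L0_pos (Ne.symm h2)).2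
    · have h1 : L0 Q (x, y) = none := by
        by_contra h2
        exact h (L0_pos h2).1
      rw [h1]
      unfold boardOf
      split_ifs with h2
      · rw [entry_out]
        · rfl
        · intro h3
          apply h
          unfold side at h3
          omega
      · rfl
  · rintro ⟨a, b⟩ h
    unfold boardOf at h
    split_ifs at h with h1
    · simp only at h h1
      by_cases h2 : a.toNat < side Q ∧ b.toNat < side Q
      · rw [entry_rows h2.1 h2.2] at h
        unfold cellN at h
        split_ifs at h with h3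
        · refine ⟨((a + b) / 2 - (18 * gg Q + 11), (b + (36 * gg Q + 18) - a) / 2), ?_⟩
          simp only [phi, Prod.mk.injEq]
          constructor <;> omega
        · exact absurd rfl h
      · rw [entry_out h2] at h
        exact absurd rfl h
    · exact absurd rfl h

/-- The reduction is correct. -/
theorem rows_iff (hQ : QFwf Q) (stop : Bool) : MisereCheckers stop (true, rows Q) ↔
    evq Q.1 (fun u => evc u Q.2) = true := by
  rw [← start (stop := stop) hQ]
  have h : (stdGeo (rows Q).length).Win stop true true (boardOf (rows Q)) ↔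
      LandP Q stop (Lf Q) (tk Q) := by
    rw [rows_length]
    exact (phi_chart (gg Q)).win_iff (same_rows Q)
  unfold MisereCheckers
  rw [h]
  exact ⟨fun h => h.2, fun h => ⟨valid_rows Q, h⟩⟩

end Pool.Agent.Helper314_MC
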