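import Pool.Agent.H623R2.PS.Defs

/-!
# Misère checkers on `N × N` boards

The rules of (misère) checkers are written down for an abstract board geometry `Geo`; the actual
board is `stdGeo N`.
-/

set_option autoImplicit false

namespace Pool.Agent.Helper314_MC

/-- A piece: its colour, and whether it is a king. White men move towards larger ranks, black men
towards smaller ranks. -/
structure Piece where
  /-- the colour -/
  white : Bool
  /-- crowned or not -/
  king : Bool
deriving DecidableEq

/-- The geometry of a board: the neighbour of a square in each of the four diagonal directions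
(directions `0`, `1` lead to the next rank, directions `2`, `3` to the previous one), the squares
which belong to the board, and the far row of each colour (`true` stands for white). -/
structure Geo (C : Type) where
  /-- the neighbours of a square -/
  nb : C → Fin 4 → C
  /-- the squares of the board -/
  ok : C → Prop
  /-- the far row of a colour -/
  far : Bool → C → Bool

/-- A placement of pieces. -/
abbrev Board (C : Type) := C → Option Piece

/-- A man steps and captures forwards only, a king in all directions. -/
def Piece.can (p : Piece) (d : Fin 4) : Prop :=
  p.king = true ∨ (p.white = true ∧ d.val < 2) ∨ (p.white = false ∧ 2 ≤ d.val)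

variable {C : Type} [DecidableEq C]

/-- The piece `p` after it has arrived at `t`: a man on its far row becomes a king. -/
def Geo.crown (G : Geo C) (p : Piece) (t : C) : Piece := ⟨p.white, p.king || G.far p.white t⟩

/-- The piece on `s` steps to an adjacent empty square. -/
def Geo.Step (G : Geo C) (B : Board C) (s : C) (B' : Board C) : Prop :=
  ∃ p d, B s = some p ∧ p.can d ∧ G.ok (G.nb s d) ∧ B (G.nb s d) = none ∧
    B' = Function.update (Function.update B s none) (G.nb s d) (some (G.crown p (G.nb s d)))

/-- The piece on `s` jumps over an adjacent opposing piece to the empty square `t` directly beyond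
it; the jumped piece is removed. -/
def Geo.Jump (G : Geo C) (B : Board C) (s : C) (B' : Board C) (t : C) : Prop :=
  ∃ p q d, B s = some p ∧ p.can d ∧ B (G.nb s d) = some q ∧ q.white ≠ p.white ∧
    t = G.nb (G.nb s d) d ∧ G.ok t ∧ B t = none ∧
    B' = Function.update (Function.update (Function.update B s none) (G.nb s d) none) t
      (some (G.crown p t))

/-- If `stop` is true then a man which reaches its far row by a jump ends its move there (English
draughts); if `stop` is false then it goes on jumping as a king if it can. -/
def Geo.Halts (G : Geo C) (stop : Bool) (B : Board C) (s t : C) : Prop :=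
  stop = true ∧ ∃ p, B s = some p ∧ p.king = false ∧ G.far p.white t = true

/-- `B'` arises from `B` by a capture move of the piece on `s`: the piece keeps jumping while it
can. -/
inductive Geo.Cap (G : Geo C) (stop : Bool) : Board C → C → Board C → Prop
  | last {B : Board C} {s : C} {B' : Board C} {t : C} : G.Jump B s B' t →
      (G.Halts stop B s t ∨ ¬ ∃ B'' u, G.Jump B' t B'' u) → Geo.Cap G stop B s B'
  | more {B : Board C} {s : C} {B₁ : Board C} {t : C} {B' : Board C} : G.Jump B s B₁ t →
      ¬ G.Halts stop B s t → Geo.Cap G stop B₁ t B' → Geo.Cap G stop B s B'

/-- There is a piece of colour `w` on `s`. -/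
def Owns (B : Board C) (w : Bool) (s : C) : Prop := ∃ p, B s = some p ∧ p.white = w

/-- Colour `w` can capture. -/
def Geo.CanJump (G : Geo C) (w : Bool) (B : Board C) : Prop :=
  ∃ s B' t, Owns B w s ∧ G.Jump B s B' t

/-- The legal moves of colour `w`: captures are mandatory. -/
def Geo.Legal (G : Geo C) (stop : Bool) (w : Bool) (B B' : Board C) : Prop :=
  (∃ s, Owns B w s ∧ G.Cap stop B s B') ∨ (¬ G.CanJump w B ∧ ∃ s, Owns B w s ∧ G.Step B s B')

/-- `Win p t B`: in the position `B` with colour `t` to move, colour `p` can force a win in finitely
many moves, where a player who has no legal move on their turn wins. -/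
inductive Geo.Win (G : Geo C) (stop : Bool) (p : Bool) : Bool → Board C → Prop
  | blocked {t : Bool} {B : Board C} : t = p → (¬ ∃ B', G.Legal stop t B B') → Geo.Win G stop p t B
  | move {t : Bool} {B B' : Board C} : t = p → G.Legal stop t B B' → Geo.Win G stop p (!t) B' →
      Geo.Win G stop p t B
  | reply {t : Bool} {B : Board C} : t ≠ p → (∃ B', G.Legal stop t B B') →
      (∀ B', G.Legal stop t B B' → Geo.Win G stop p (!t) B') → Geo.Win G stop p t B

/-- The `N × N` board; a square is a pair (file, rank) of numbers below `N`. -/
def stdGeo (N : ℕ) : Geo (ℤ × ℤ) where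
  nb s d := match d with
    | 0 => (s.1 + 1, s.2 + 1)
    | 1 => (s.1 - 1, s.2 + 1)
    | 2 => (s.1 - 1, s.2 - 1)
    | 3 => (s.1 + 1, s.2 - 1)
  ok s := (0 ≤ s.1 ∧ s.1 < N) ∧ (0 ≤ s.2 ∧ s.2 < N)
  far w s := if w then decide (s.2 = N - 1) else decide (s.2 = 0)

/-- The meaning of the entries of a position: `0` empty, `1` white man, `2` white king, `3` black
man, `4` black king. -/
def pieceOf (n : ℕ) : Option Piece :=
  if n = 1 then some ⟨true, false⟩ else if n = 2 then some ⟨true, true⟩
  else if n = 3 then some ⟨false, false⟩ else if n = 4 then some ⟨false, true⟩ else none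

/-- The entry of the table `rows` for the square (file `a`, rank `b`). -/
def entry (rows : List (List ℕ)) (a b : ℕ) : ℕ := (rows.getD b []).getD a 0

/-- The placement of pieces given by a table (one row per rank). -/
def boardOf (rows : List (List ℕ)) : Board (ℤ × ℤ) := fun s =>
  if 0 ≤ s.1 ∧ 0 ≤ s.2 then pieceOf (entry rows s.1.toNat s.2.toNat) else none

/-- `rows` describes a position on the `N × N` board, where `N` is the number of rows: the table is
square, all the pieces are on dark squares, and there are no men on their far row. -/
def ValidPos (rows : List (List ℕ)) : Prop :=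
  (∀ r ∈ rows, r.length = rows.length) ∧
    ∀ a b, entry rows a b ≤ 4 ∧ (entry rows a b ≠ 0 → (a + b) % 2 = 0) ∧
      (b + 1 = rows.length → entry rows a b ≠ 1) ∧ (b = 0 → entry rows a b ≠ 3)

/-- Misère checkers: the input consists of the player to move (`true` is white) and a position;
the question is whether the player to move has a winning strategy. -/
def MisereCheckers (stop : Bool) (P : Bool × List (List ℕ)) : Prop :=
  ValidPos P.2 ∧ (stdGeo P.2.length).Win stop P.1 P.1 (boardOf P.2)

end Pool.Agent.Helper314_MC
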