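import Pool.Agent.Helper314_MC.Basic

/-!
# The frozen ceiling of the board and the endgame
-/

set_option autoImplicit false
set_option linter.unusedSectionVars false

namespace Pool.Agent.Helper314_MC

abbrev WM : Option Piece := some ⟨true, false⟩
abbrev WK : Option Piece := some ⟨true, true⟩
abbrev BM : Option Piece := some ⟨false, false⟩
abbrev BK : Option Piece := some ⟨false, true⟩

/-- first coordinate of the directions -/
def dx (d : Fin 4) : ℤ := if d = 0 then 1 else if d = 2 then -1 else 0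
/-- second coordinate of the directions -/
def dy (d : Fin 4) : ℤ := if d = 1 then 1 else if d = 3 then -1 else 0

/-- the board of side `72 g + 40` in rotated coordinates -/
def rot (g : ℕ) : Geo (ℤ × ℤ) where
  nb s d := (s.1 + dx d, s.2 + dy d)
  ok s := (0 ≤ s.1 - s.2 + (36 * g + 20) ∧ s.1 - s.2 + (36 * g + 20) < 72 * g + 40) ∧
    (0 ≤ s.1 + s.2 + 2 ∧ s.1 + s.2 + 2 < 72 * g + 40)
  far w s := if w then decide (s.1 + s.2 + 2 = 72 * g + 40 - 1) else decide (s.1 + s.2 + 2 = 0)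

/-- the rotation -/
def phi (g : ℕ) (s : ℤ × ℤ) : ℤ × ℤ := (s.1 - s.2 + (36 * g + 20), s.1 + s.2 + 2)

theorem phi_chart (g : ℕ) : Chart (stdGeo (72 * g + 40)) (rot g) (phi g) where
  inj := by
    rintro ⟨a, b⟩ ⟨c, d⟩ h
    simp only [phi, Prod.mk.injEq] at h
    refine Prod.ext ?_ ?_ <;> simp <;> omega
  nb := by
    rintro ⟨a, b⟩ d
    fin_cases d <;> simp [stdGeo, rot, phi, dx, dy] <;> constructor <;> ring
  ok := by
    rintro ⟨a, b⟩
    simp only [stdGeo, rot, phi]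
    push_cast
    rfl
  far := by
    rintro w ⟨a, b⟩
    simp only [stdGeo, rot, phi]
    push_cast
    rfl

/-- the empty squares and the squares of the kings in the ceiling -/
def cav : List (ℤ × ℤ) := [(15, 16), (15, 17), (16, 17), (16, 16), (17, 16), (24, 8), (25, 8)]

/-- the black walls -/
def bw : List (ℤ × ℤ) := [(14, 16), (13, 16), (14, 17), (13, 17), (17, 15), (17, 14), (16, 15),
  (16, 14), (15, 15), (15, 14), (23, 8), (22, 8), (24, 7), (24, 6), (25, 7), (25, 6)]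

/-- the ceiling -/
def cc (s : ℤ × ℤ) : Option Piece :=
  if s.1 + s.2 = 37 then BM else if s ∈ bw then BM else if s ∈ cav then none else WM

/-- relative coordinates -/
def rel (g : ℕ) (s : ℤ × ℤ) : ℤ × ℤ := (s.1 - 36 * g, s.2 - 36 * g)

/-- the squares of the ceiling -/
def zone (g : ℕ) (s : ℤ × ℤ) : Prop := (rot g).ok s ∧ 72 * (g : ℤ) + 27 ≤ s.1 + s.2

/-- the ceiling is intact -/
def ZI (g : ℕ) (B : Board (ℤ × ℤ)) : Prop :=
  (∀ s, zone g s → rel g s ∉ cav → B s = cc (rel g s)) ∧ ∀ s, B s ≠ none → (rot g).ok s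

theorem cc_ne_none {s : ℤ × ℤ} (h : s ∉ cav) : cc s ≠ none := by
  unfold cc
  split_ifs <;> simp

theorem bw_level : ∀ s ∈ bw, 29 ≤ s.1 + s.2 := by decide

theorem cav_level : ∀ s ∈ cav, 31 ≤ s.1 + s.2 := by decide

theorem cav_level' : ∀ s ∈ cav, s.1 + s.2 ≤ 33 ∧ -2 ≤ s.1 - s.2 ∧ s.1 - s.2 ≤ 17 := by decide

theorem cc_low {s : ℤ × ℤ} (h : s.1 + s.2 = 27 ∨ s.1 + s.2 = 28) : cc s = WM := by
  unfold cc
  rw [if_neg (by omega), if_neg (fun h1 => by have := bw_level _ h1; omega),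
    if_neg (fun h1 => by have := cav_level _ h1; omega)]

theorem fin1 : ∀ t ∈ cav, ∀ d : Fin 4, ∀ k : Fin 2,
    (t.1 - (k.val + 1) * dx d, t.2 - (k.val + 1) * dy d) ∈ cav ∨
      (27 ≤ (t.1 - (k.val + 1) * dx d) + (t.2 - (k.val + 1) * dy d) ∧
        (t.1 - (k.val + 1) * dx d, t.2 - (k.val + 1) * dy d) ∉ cav ∧
        cc (t.1 - (k.val + 1) * dx d, t.2 - (k.val + 1) * dy d) =
          (if d.val < 2 then BM else WM)) := by
  decide

theorem zone_ok {g : ℕ} {s : ℤ × ℤ} (h : rel g s ∈ cav) : zone g s := by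
  have h1 := cav_level _ h
  have h2 := cav_level' _ h
  simp only [rel] at h1 h2
  unfold zone rot
  simp only
  omega

theorem zmove {g : ℕ} {B : Board (ℤ × ℤ)} (hZ : ZI g B) {s t : ℤ × ℤ} {p : Piece} {d : Fin 4}
    (hs : B s = some p) (hd : p.can d) (ht : (rot g).ok t) (hB : B t = none) (k : Fin 2)
    (h : t = (s.1 + (k.val + 1) * dx d, s.2 + (k.val + 1) * dy d)) :
    (¬ zone g s ∧ ¬ zone g t) ∨ (rel g s ∈ cav ∧ rel g t ∈ cav) := by
  have hsok : (rot g).ok s := hZ.2 s (by rw [hs]; simp)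
  by_cases hzt : zone g t
  · right
    have h1 : rel g t ∈ cav := by
      by_contra h1
      have h2 := hZ.1 t hzt h1
      rw [hB] at h2
      exact cc_ne_none h1 h2.symm
    refine ⟨?_, h1⟩
    have e : ((rel g t).1 - (k.val + 1) * dx d, (rel g t).2 - (k.val + 1) * dy d) = rel g s := by
      subst h
      simp only [rel, Prod.mk.injEq]
      constructor <;> ring
    rcases fin1 _ h1 d k with h3 | ⟨h3, h4, h5⟩
    · rwa [e] at h3
    · exfalso
      rw [e] at h4 h5
      have e1 := congrArg Prod.fst e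
      have e2 := congrArg Prod.snd e
      simp only at e1 e2
      rw [e1, e2] at h3
      have h6 : zone g s := by
        refine ⟨hsok, ?_⟩
        simp only [rel] at h3
        omega
      have h7 := hZ.1 s h6 h4
      rw [hs, h5] at h7
      unfold Piece.can at hd
      split_ifs at h7 with h8
      · cases h7
        simp at hd
        omega
      · cases h7
        simp at hd
        omega
  · left
    refine ⟨?_, hzt⟩
    intro hzs
    have h1 : s.1 + s.2 = 72 * (g : ℤ) + 27 ∨ s.1 + s.2 = 72 * (g : ℤ) + 28 := by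
      have h2 := hzs.2
      have h3 : ¬ (72 * (g : ℤ) + 27 ≤ t.1 + t.2) := fun h3 => hzt ⟨ht, h3⟩
      subst h
      simp only at h3
      fin_cases d <;> fin_cases k <;> simp [dx, dy] at h3 <;> omega
    have h2 : 2 ≤ d.val := by
      have h2 := hzs.2
      have h3 : ¬ (72 * (g : ℤ) + 27 ≤ t.1 + t.2) := fun h3 => hzt ⟨ht, h3⟩
      subst h
      simp only at h3
      fin_cases d <;> fin_cases k <;> simp [dx, dy] at h3 ⊢ <;> omega
    have h3 : rel g s ∉ cav := fun h3 => by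
      have := cav_level _ h3
      simp only [rel] at this
      omega
    have h4 := hZ.1 s hzs h3
    rw [cc_low (by simp only [rel]; omega), hs] at h4
    cases h4
    unfold Piece.can at hd
    simp at hd
    omega

theorem mid_zone {g : ℕ} {s m t : ℤ × ℤ} {d : Fin 4} (hs : (rot g).ok s) (ht : (rot g).ok t)
    (hm : m = (s.1 + dx d, s.2 + dy d)) (h : t = (m.1 + dx d, m.2 + dy d))
    (h1 : ¬ zone g s) (h2 : ¬ zone g t) : ¬ zone g m := by
  intro h3
  have h4 := h3.2
  have h5 : ¬ (72 * (g : ℤ) + 27 ≤ s.1 + s.2) := fun h => h1 ⟨hs, h⟩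
  have h6 : ¬ (72 * (g : ℤ) + 27 ≤ t.1 + t.2) := fun h => h2 ⟨ht, h⟩
  subst h
  subst hm
  simp only at h4 h5 h6
  fin_cases d <;> simp [dx, dy] at h4 h5 h6 <;> omega

theorem rot_nb (g : ℕ) (s : ℤ × ℤ) (d : Fin 4) : (rot g).nb s d = (s.1 + dx d, s.2 + dy d) := rfl

/-- the squares of the chamber of the white king -/
def kc (g : ℕ) (i : Fin 5) : ℤ × ℤ :=
  match i with
  | 0 => (36 * g + 15, 36 * g + 16)
  | 1 => (36 * g + 15, 36 * g + 17)
  | 2 => (36 * g + 16, 36 * g + 17)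
  | 3 => (36 * g + 16, 36 * g + 16)
  | 4 => (36 * g + 17, 36 * g + 16)

/-- the squares of the chamber of the black king -/
def bc (g : ℕ) (i : Fin 2) : ℤ × ℤ := if i = 0 then (36 * g + 24, 36 * g + 8) else (36 * g + 25, 36 * g + 8)

theorem rel_mem {g : ℕ} {s : ℤ × ℤ} : rel g s ∈ cav ↔ (∃ i, s = kc g i) ∨ ∃ i, s = bc g i := by
  obtain ⟨a, b⟩ := s
  simp only [rel, cav, List.mem_cons, List.not_mem_nil, or_false, Prod.mk.injEq]
  constructor
  · rintro (h | h | h | h | h | h | h)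
    · exact Or.inl ⟨0, by simp [kc]; omega⟩
    · exact Or.inl ⟨1, by simp [kc]; omega⟩
    · exact Or.inl ⟨2, by simp [kc]; omega⟩
    · exact Or.inl ⟨3, by simp [kc]; omega⟩
    · exact Or.inl ⟨4, by simp [kc]; omega⟩
    · exact Or.inr ⟨0, by simp [bc]; omega⟩
    · exact Or.inr ⟨1, by simp [bc]; omega⟩
  · rintro (⟨i, h⟩ | ⟨i, h⟩)
    · fin_cases i <;> simp [kc] at h <;> omega
    · fin_cases i <;> simp [bc] at h <;> omega

theorem kc_inj {g : ℕ} {i j : Fin 5} (h : kc g i = kc g j) : i = j := by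
  fin_cases i <;> fin_cases j <;> simp [kc] at h ⊢

theorem bc_inj {g : ℕ} {i j : Fin 2} (h : bc g i = bc g j) : i = j := by
  fin_cases i <;> fin_cases j <;> simp [bc] at h ⊢

theorem kc_ne_bc {g : ℕ} {i : Fin 5} {j : Fin 2} : kc g i ≠ bc g j := by
  intro h
  fin_cases i <;> fin_cases j <;> simp [kc, bc] at h

/-- jumps do not touch the ceiling, except in the middle of the chamber of the white king -/
theorem zone_jump {g : ℕ} {B : Board (ℤ × ℤ)} (hZ : ZI g B) {s t : ℤ × ℤ} {p q : Piece}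
    {d : Fin 4} (h1 : B s = some p) (h2 : p.can d) (h3 : B ((rot g).nb s d) = some q)
    (h5 : t = (rot g).nb ((rot g).nb s d) d) (h6 : (rot g).ok t) (h7 : B t = none) :
    (¬ zone g s ∧ ¬ zone g ((rot g).nb s d) ∧ ¬ zone g t) ∨
      ((rot g).nb s d = kc g 3 ∧ ((s = kc g 0 ∧ t = kc g 4) ∨ (s = kc g 4 ∧ t = kc g 0))) := by
  have e : t = (s.1 + ((1 : Fin 2).val + 1) * dx d, s.2 + ((1 : Fin 2).val + 1) * dy d) := by
    subst h5
    simp only [rot_nb, Prod.mk.injEq]
    constructor <;> simp <;> ring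
  rcases zmove hZ h1 h2 h6 h7 1 e with ⟨h8, h9⟩ | ⟨h8, h9⟩
  · left
    exact ⟨h8, mid_zone (hZ.2 s (by rw [h1]; simp)) h6 rfl h5 h8 h9, h9⟩
  · right
    rw [rel_mem] at h8 h9
    rcases h8 with ⟨i, rfl⟩ | ⟨i, rfl⟩ <;> rcases h9 with ⟨j, rfl⟩ | ⟨j, rfl⟩
    · fin_cases i <;> fin_cases j <;> fin_cases d <;> simp [kc, dx, dy, rot_nb] at e ⊢
      all_goals omega
    · fin_cases i <;> fin_cases j <;> fin_cases d <;> simp [kc, bc, dx, dy] at e <;> omega
    · fin_cases i <;> fin_cases j <;> fin_cases d <;> simp [kc, bc, dx, dy] at e <;> omega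
    · fin_cases i <;> fin_cases j <;> fin_cases d <;> simp [bc, dx, dy] at e <;> omega

/-- adjacent squares of the chamber -/
def adj (i j : Fin 5) : Bool :=
  (i, j) ∈ [((0 : Fin 5), (1 : Fin 5)), (1, 0), (1, 2), (2, 1), (2, 3), (3, 2), (0, 3), (3, 0), (3, 4), (4, 3)]

theorem zone_step {g : ℕ} {B : Board (ℤ × ℤ)} (hZ : ZI g B) {s : ℤ × ℤ} {p : Piece}
    {d : Fin 4} (h1 : B s = some p) (h2 : p.can d) (h6 : (rot g).ok ((rot g).nb s d))
    (h7 : B ((rot g).nb s d) = none) :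
    (¬ zone g s ∧ ¬ zone g ((rot g).nb s d)) ∨
      (∃ i j, adj i j = true ∧ s = kc g i ∧ (rot g).nb s d = kc g j) ∨
      ∃ i j, i ≠ j ∧ s = bc g i ∧ (rot g).nb s d = bc g j := by
  have e : (rot g).nb s d = (s.1 + ((0 : Fin 2).val + 1) * dx d, s.2 + ((0 : Fin 2).val + 1) * dy d) := by
    simp only [rot_nb, Prod.mk.injEq]
    constructor <;> simp
  rcases zmove hZ h1 h2 h6 h7 0 e with ⟨h8, h9⟩ | ⟨h8, h9⟩
  · left
    exact ⟨h8, h9⟩
  · right
    rw [rel_mem] at h8 h9
    rcases h8 with ⟨i, rfl⟩ | ⟨i, rfl⟩ <;> rcases h9 with ⟨j, h9⟩ | ⟨j, h9⟩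
    · left
      refine ⟨i, j, ?_, rfl, h9⟩
      rw [h9] at e
      fin_cases i <;> fin_cases j <;> fin_cases d <;> simp [kc, dx, dy] at e <;> first | omega | decide
    · exfalso
      rw [h9] at e
      fin_cases i <;> fin_cases j <;> fin_cases d <;> simp [kc, bc, dx, dy] at e <;> omega
    · exfalso
      rw [h9] at e
      fin_cases i <;> fin_cases j <;> fin_cases d <;> simp [kc, bc, dx, dy] at e <;> omega
    · right
      refine ⟨i, j, ?_, rfl, h9⟩
      rintro rfl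
      rw [h9] at e
      fin_cases i <;> fin_cases d <;> simp [bc, dx, dy] at e

end Pool.Agent.Helper314_MC
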